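import Pool.Agent.BRG.Defs
import Pool.Agent.FIN.Defs

/-!
# The ideals of the compact surfaces of the tube: properties
-/

set_option autoImplicit false

noncomputable section

namespace Pool.Agent.BRG

open scoped Classical
open MvPolynomial Pool.Agent.FRM Pool.Agent.XV Pool.Agent.GML Pool.Agent.XB

section fin

variable {R D : Type} [CommRing R] [CommRing D] [Algebra R D]

theorem fin_iff (I : Ideal D) : Module.Finite R (D ⧸ I) ↔
    ∃ T : Finset D, ∀ y : D, ∃ y' ∈ Submodule.span R (T : Set D), y - y' ∈ I := by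
  constructor
  · intro h
    obtain ⟨T', hT'⟩ := h.fg_top
    choose g hg using fun t : D ⧸ I => Ideal.Quotient.mk_surjective t
    refine ⟨T'.image g, fun y => ?_⟩
    have h1 : Ideal.Quotient.mkₐ R I y ∈ (Submodule.span R ((T'.image g : Finset D) : Set D)).map
        (Ideal.Quotient.mkₐ R I).toLinearMap := by
      rw [Submodule.map_span]
      have h2 : ((Ideal.Quotient.mkₐ R I).toLinearMap : D → D ⧸ I) ''
          ((T'.image g : Finset D) : Set D) = (T' : Set (D ⧸ I)) := by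
        rw [Finset.coe_image, Set.image_image]
        have h3 : ∀ t : D ⧸ I, (Ideal.Quotient.mkₐ R I).toLinearMap (g t) = t := fun t => hg t
        simp only [h3, Set.image_id']
      rw [h2, hT']
      exact Submodule.mem_top
    obtain ⟨y', hy', h2⟩ := h1
    refine ⟨y', hy', ?_⟩
    rw [← Ideal.Quotient.eq]
    exact h2.symm
  · rintro ⟨T, hT⟩
    refine ⟨⟨T.image (Ideal.Quotient.mk I), ?_⟩⟩
    rw [eq_top_iff]
    intro y _
    obtain ⟨y, rfl⟩ := Ideal.Quotient.mk_surjective y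
    obtain ⟨y', hy', h1⟩ := hT y
    rw [Ideal.Quotient.eq.2 h1]
    have h2 : Ideal.Quotient.mk I y' ∈ (Submodule.span R (T : Set D)).map
        (Ideal.Quotient.mkₐ R I).toLinearMap := ⟨y', hy', rfl⟩
    rw [Submodule.map_span] at h2
    rw [Finset.coe_image]
    exact h2

theorem fin_mul {I I' : Ideal D} (hI : I.FG) (h : Module.Finite R (D ⧸ I))
    (h' : Module.Finite R (D ⧸ I')) : Module.Finite R (D ⧸ I * I') := by
  rw [fin_iff] at h h' ⊢
  obtain ⟨T, hT⟩ := h
  obtain ⟨T', hT'⟩ := h'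
  obtain ⟨U, hU⟩ := hI
  refine ⟨T ∪ (U ×ˢ T').image (fun p => p.1 * p.2), fun y => ?_⟩
  obtain ⟨y₁, hy₁, h1⟩ := hT y
  have key : ∀ u ∈ I, ∃ u' ∈ Submodule.span R
      (((U ×ˢ T').image (fun p => p.1 * p.2) : Finset D) : Set D), u - u' ∈ I * I' := by
    intro u hu
    rw [← hU] at hu
    obtain ⟨f, -, rfl⟩ := Submodule.mem_span_finset.1 hu
    choose g hg hg' using hT'
    refine ⟨∑ a ∈ U, a * g (f a), ?_, ?_⟩
    · refine Submodule.sum_mem _ fun a ha => ?_
      have h2 : a * g (f a) ∈ (Submodule.span R (T' : Set D)).map (LinearMap.mulLeft R a) :=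
        ⟨g (f a), hg _, rfl⟩
      rw [Submodule.map_span] at h2
      refine Submodule.span_mono ?_ h2
      rintro _ ⟨t, ht, rfl⟩
      rw [Finset.mem_coe, Finset.mem_image]
      exact ⟨(a, t), Finset.mem_product.2 ⟨ha, ht⟩, rfl⟩
    · rw [← Finset.sum_sub_distrib]
      refine Ideal.sum_mem _ fun a ha => ?_
      have h3 : f a • a - a * g (f a) = a * (f a - g (f a)) := by
        rw [smul_eq_mul]
        ring
      rw [h3]
      refine Ideal.mul_mem_mul ?_ (hg' _)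
      rw [← hU]
      exact Submodule.subset_span ha
  obtain ⟨u', hu', h2⟩ := key _ h1
  refine ⟨y₁ + u', ?_, ?_⟩
  · rw [Finset.coe_union, Submodule.span_union]
    exact Submodule.add_mem_sup hy₁ hu'
  · have h3 : y - (y₁ + u') = y - y₁ - u' := by ring
    rw [h3]
    exact h2

theorem fin_mono {I I' : Ideal D} (hI : I ≤ I') (h : Module.Finite R (D ⧸ I)) :
    Module.Finite R (D ⧸ I') := by
  rw [fin_iff] at h ⊢
  obtain ⟨T, hT⟩ := h
  refine ⟨T, fun y => ?_⟩
  obtain ⟨y', hy', h1⟩ := hT y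
  exact ⟨y', hy', hI h1⟩

end fin

section JJ

variable {V κ : Type} [CommRing V] [Field κ] {σ : V →+* κ} {ϖ : V} {hr : DIL.Res σ ϖ} {B : Type}
  [CommRing B] [Algebra V B] {ℬ : ℕ → Submodule V B} [GradedAlgebra ℬ] {S : Subalgebra V B}
  {I : Ideal S} {h : Fin 3 → S} {a b c : ℕ} {γ : Fin 3 → S} {Q : Type} {x f : Q → S}
  (X : DIL.In hr ℬ S I h a b c γ x f) {K : Type} [Field K] [Algebra K B]
  (ℬK : ℕ → Submodule K B) [GradedAlgebra ℬK]

theorem JJ_hom : ∀ J ∈ JJ X ℬK, J.IsHomogeneous ℬK := fun _ hJ => hJ.1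

theorem JJ_ne : (JJ X ℬK).Nonempty := by
  refine ⟨⊤, Ideal.IsHomogeneous.top _, ?_⟩
  show Module.Finite _ _
  rw [fin_iff]
  exact ⟨∅, fun y => ⟨0, Submodule.zero_mem _, Submodule.mem_top⟩⟩

theorem JJ_mul : ∀ J ∈ JJ X ℬK, ∀ J' ∈ JJ X ℬK, J * J' ∈ JJ X ℬK := by
  rintro J ⟨h1, h2⟩ J' ⟨h1', h2'⟩
  refine ⟨h1.mul h1', ?_⟩
  have h3 := fin_mul (R := MvPolynomial (Fin 3) V)
    (IsNoetherian.noetherian (J.comap (DIL.emb X : DIL.Dd X →+* B))) h2 h2'
  refine fin_mono ?_ h3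
  rw [Ideal.mul_le]
  intro r hr s hs
  rw [Ideal.mem_comap, map_mul]
  exact Ideal.mul_mem_mul hr hs

/-- integral equations -/
theorem int_of {J : Ideal B} (hJ : FinJ X J) (y : DIL.Dd X) :
    ∃ P : Polynomial (MvPolynomial (Fin 3) V), P.Monic ∧ 0 < P.natDegree ∧
      DIL.emb X (P.eval₂ (algebraMap (MvPolynomial (Fin 3) V) (DIL.Dd X)) y) ∈ J := by
  have h1 : Module.Finite (MvPolynomial (Fin 3) V)
    (DIL.Dd X ⧸ J.comap (DIL.emb X : DIL.Dd X →+* B)) := hJ
  have h2 : IsIntegral (MvPolynomial (Fin 3) V)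
      (Ideal.Quotient.mk (J.comap (DIL.emb X : DIL.Dd X →+* B)) y) := Algebra.IsIntegral.isIntegral _
  obtain ⟨P, hP, h3⟩ := h2
  refine ⟨P * Polynomial.X, hP.mul Polynomial.monic_X, ?_, ?_⟩
  · have hV : Nontrivial V := σ.domain_nontrivial
    rw [hP.natDegree_mul Polynomial.monic_X, Polynomial.natDegree_X]
    omega
  · rw [Polynomial.eval₂_mul, map_mul]
    apply Ideal.mul_mem_right
    have h4 : (algebraMap (MvPolynomial (Fin 3) V)
        (DIL.Dd X ⧸ J.comap (DIL.emb X : DIL.Dd X →+* B))) =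
        (Ideal.Quotient.mk (J.comap (DIL.emb X : DIL.Dd X →+* B))).comp
          (algebraMap (MvPolynomial (Fin 3) V) (DIL.Dd X)) := rfl
    rw [h4, ← Polynomial.hom_eval₂, Ideal.Quotient.eq_zero_iff_mem] at h3
    exact h3

end JJ

section gr

variable {V : Type} [CommRing V] {B : Type} [CommRing B] [Algebra V B] (ℬ : ℕ → Submodule V B)
  [GradedAlgebra ℬ] {n : ℕ} (x : Fin n → B)

theorem aeval_mem (hx : ∀ i, x i ∈ ℬ 1) {F : MvPolynomial (Fin n) V} {k : ℕ}
    (hF : F.IsHomogeneous k) : aeval x F ∈ ℬ k := by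
  rw [aeval_def, eval₂_eq]
  refine Submodule.sum_mem _ fun d hd => ?_
  have h1 := hF (mem_support_iff.1 hd)
  have h2 : ∑ i ∈ d.support, d i = k := by
    rw [← h1, Finsupp.weight_apply, Finsupp.sum]
    simp
  have h3 : ∏ i ∈ d.support, x i ^ d i ∈ ℬ k := by
    rw [← h2]
    refine SetLike.prod_mem_graded (A := ℬ) _ _ fun i _ => ?_
    have := SetLike.pow_mem_graded (d i) (hx i)
    rwa [smul_eq_mul, mul_one] at this
  rw [← Algebra.smul_def]
  exact Submodule.smul_mem _ _ h3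

theorem cp_aeval (hx : ∀ i, x i ∈ ℬ 1) (F : MvPolynomial (Fin n) V) {k i : ℕ} {y : B}
    (hy : y ∈ ℬ i) : DIL.cp ℬ (k + i) (aeval x F * y) = aeval x (homogeneousComponent k F) * y := by
  conv_lhs => rw [← sum_homogeneousComponent F, map_sum, Finset.sum_mul, map_sum]
  have h1 : ∀ j, DIL.cp ℬ (k + i) (aeval x (homogeneousComponent j F) * y) =
      if j = k then aeval x (homogeneousComponent k F) * y else 0 := by
    intro j
    have h2 : aeval x (homogeneousComponent j F) * y ∈ ℬ (j + i) :=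
      SetLike.mul_mem_graded (aeval_mem ℬ x hx (homogeneousComponent_isHomogeneous j F)) hy
    split_ifs with hj
    · subst hj
      exact DIL.cp_self h2
    · exact DIL.cp_ne h2 (by omega)
  rw [Finset.sum_congr rfl fun j _ => h1 j, Finset.sum_ite_eq']
  split_ifs with h
  · rfl
  · rw [homogeneousComponent_eq_zero, map_zero, zero_mul]
    rw [Finset.mem_range] at h
    omega

variable {ℬ}

/-- homogeneous components over `K` and over `V` -/
theorem proj_eq {K : Type} [Field K] [Algebra K B] {ℬK : ℕ → Submodule K B} [GradedAlgebra ℬK]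
    (hb : ∀ n (b : B), b ∈ ℬ n ↔ b ∈ ℬK n) (n : ℕ) (b : B) :
    (DirectSum.decompose ℬK b n : B) = DIL.cp ℬ n b := by
  obtain ⟨s, hs⟩ := DIL.cp_sum (ℬ := ℬ) b
  have h1 : ∀ i, (DirectSum.decompose ℬK (DIL.cp ℬ i b) n : B) = DIL.cp ℬ n (DIL.cp ℬ i b) := by
    intro i
    have h2 : DIL.cp ℬ i b ∈ ℬ i := DIL.cp_mem ℬ i b
    by_cases hi : i = n
    · subst hi
      rw [DIL.cp_self h2, DirectSum.decompose_of_mem_same ℬK ((hb _ _).1 h2)]
    · rw [DIL.cp_ne h2 hi, DirectSum.decompose_of_mem_ne ℬK ((hb _ _).1 h2) hi]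
  conv_lhs => rw [hs, DirectSum.decompose_sum, DFinsupp.finset_sum_apply]
  conv_rhs => rw [hs, map_sum]
  push_cast
  exact Finset.sum_congr rfl fun i _ => h1 i

end gr

section pow

variable {V κ : Type} [CommRing V] [Field κ] {σ : V →+* κ} {ϖ : V} {hr : DIL.Res σ ϖ} {B : Type}
  [CommRing B] [Algebra V B] {ℬ : ℕ → Submodule V B} [GradedAlgebra ℬ] {S : Subalgebra V B}
  {I : Ideal S} {h : Fin 3 → S} {a b c : ℕ} {γ : Fin 3 → S} {Q : Type} {x f : Q → S}
  (X : DIL.In hr ℬ S I h a b c γ x f) {K : Type} [Field K] [Algebra K B]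
  (ℬK : ℕ → Submodule K B) [GradedAlgebra ℬK]

theorem aeval_h {n : ℕ} {w : Fin n → B} {H : Fin 3 → MvPolynomial (Fin n) V}
    (hH : ∀ i, (h i : B) = aeval w (H i)) (F : MvPolynomial (Fin 3) V) :
    ((aeval h F : S) : B) = aeval w (aeval H F) := by
  have h1 : (S.val.comp (aeval h : MvPolynomial (Fin 3) V →ₐ[V] S)) =
      (aeval w : MvPolynomial (Fin n) V →ₐ[V] B).comp (aeval H) := by
    apply MvPolynomial.algHom_ext
    intro i
    rw [AlgHom.comp_apply, AlgHom.comp_apply, aeval_X, aeval_X, ← hH i]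
    rfl
  exact DFunLike.congr_fun h1 F

/-- **Powers of small linear forms are in the ideals of the compact surfaces, modulo `ϖ`.** -/
theorem pow_of (hb : ∀ n (b : B), b ∈ ℬ n ↔ b ∈ ℬK n) {n : ℕ} {w : Fin n → B}
    (hw : ∀ i, w i ∈ ℬ 1) {H : Fin 3 → MvPolynomial (Fin n) V}
    (hH : ∀ i, (h i : B) = aeval w (H i)) {J : Ideal B} (hJ : J ∈ JJ X ℬK)
    {l : MvPolynomial (Fin n) V} (hl : l.IsHomogeneous 1) {u : S} (hu : u ∈ I)
    (hul : (u : B) = aeval w l) :
    ∃ (m : ℕ) (G : MvPolynomial (Fin n) V), 0 < m ∧ G.IsHomogeneous m ∧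
      MvPolynomial.map σ G = MvPolynomial.map σ l ^ m ∧ aeval w G ∈ J := by
  obtain ⟨y, -, hy⟩ := DIL.exists_div' X (j := 1) (z := u) (by rwa [pow_one])
  rw [pow_one, hul] at hy
  obtain ⟨P, hP, hm, hPJ⟩ := int_of X hJ.2 y
  obtain ⟨m, hmd⟩ : ∃ m, m = P.natDegree := ⟨_, rfl⟩
  rw [← hmd] at hm
  -- the degree of `y`
  have hyd : DIL.emb X y ∈ ℬ 1 := by
    have h1 : DIL.emb X y = DIL.cp ℬ 1 (DIL.emb X y) := by
      apply DIL.cancelB X 1
      rw [pow_one]
      have h2 : algebraMap V B ϖ * DIL.cp ℬ 1 (DIL.emb X y) =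
          DIL.cp ℬ 1 (algebraMap V B ϖ * DIL.emb X y) := by
        rw [← Algebra.smul_def, ← Algebra.smul_def, map_smul]
      rw [h2, hy, DIL.cp_self (aeval_mem ℬ w hw hl)]
    rw [h1]
    exact DIL.cp_mem ℬ 1 _
  have hyi : ∀ i, DIL.emb X y ^ i ∈ ℬ i := by
    intro i
    have := SetLike.pow_mem_graded i hyd
    rwa [smul_eq_mul, mul_one] at this
  -- the equation
  have h1 : DIL.emb X (P.eval₂ (algebraMap (MvPolynomial (Fin 3) V) (DIL.Dd X)) y) =
      ∑ i ∈ Finset.range (m + 1), aeval w (aeval H (P.coeff i)) * DIL.emb X y ^ i := by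
    rw [Polynomial.eval₂_eq_sum_range, map_sum, hmd]
    refine Finset.sum_congr rfl fun i _ => ?_
    rw [map_mul, map_pow, DIL.algebraMap_Dd, DIL.emb_ofS, aeval_h hH]
  rw [h1] at hPJ
  have h2 : DIL.cp ℬ m (∑ i ∈ Finset.range (m + 1), aeval w (aeval H (P.coeff i)) *
      DIL.emb X y ^ i) ∈ J := by
    rw [← proj_eq hb m]
    exact hJ.1 m hPJ
  rw [map_sum] at h2
  have h3 : ∀ i ∈ Finset.range (m + 1), DIL.cp ℬ m (aeval w (aeval H (P.coeff i)) *
      DIL.emb X y ^ i) = aeval w (homogeneousComponent (m - i) (aeval H (P.coeff i))) *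
        DIL.emb X y ^ i := by
    intro i hi
    rw [Finset.mem_range] at hi
    have h4 := cp_aeval ℬ w hw (aeval H (P.coeff i)) (k := m - i) (hyi i)
    rwa [Nat.sub_add_cancel (by omega)] at h4
  rw [Finset.sum_congr rfl h3] at h2
  refine ⟨m, ∑ i ∈ Finset.range (m + 1), C ϖ ^ (m - i) *
    homogeneousComponent (m - i) (aeval H (P.coeff i)) * l ^ i, hm, ?_, ?_, ?_⟩
  · refine IsHomogeneous.sum _ _ _ fun i hi => ?_
    rw [Finset.mem_range] at hi
    have h4 : (C ϖ ^ (m - i) : MvPolynomial (Fin n) V).IsHomogeneous 0 := by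
      rw [← C_pow]
      exact isHomogeneous_C _ _
    have h5 := (h4.mul (homogeneousComponent_isHomogeneous (m - i) (aeval H (P.coeff i)))).mul
      (hl.pow i)
    have h6 : 0 + (m - i) + 1 * i = m := by omega
    rwa [h6] at h5
  · rw [map_sum, Finset.sum_range_succ, Finset.sum_eq_zero]
    · rw [zero_add, Nat.sub_self, pow_zero, one_mul, map_mul, map_pow]
      have h4 : P.coeff m = 1 := by
        rw [hmd]
        exact hP
      rw [h4, map_one]
      have h5 : homogeneousComponent 0 (1 : MvPolynomial (Fin n) V) = 1 := by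
        rw [homogeneousComponent_zero]
        simp
      rw [h5, map_one, one_mul]
    · intro i hi
      rw [Finset.mem_range] at hi
      rw [map_mul, map_mul, map_pow, map_C]
      have h4 : σ ϖ = 0 := by
        rw [← RingHom.mem_ker, hr.ker]
        exact Ideal.mem_span_singleton_self _
      rw [h4, C_0, zero_pow (by omega), zero_mul, zero_mul]
  · have h4 : aeval w (∑ i ∈ Finset.range (m + 1), C ϖ ^ (m - i) *
        homogeneousComponent (m - i) (aeval H (P.coeff i)) * l ^ i) =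
        algebraMap V B ϖ ^ m * ∑ i ∈ Finset.range (m + 1),
          aeval w (homogeneousComponent (m - i) (aeval H (P.coeff i))) * DIL.emb X y ^ i := by
      rw [map_sum, Finset.mul_sum]
      refine Finset.sum_congr rfl fun i hi => ?_
      rw [Finset.mem_range] at hi
      rw [map_mul, map_mul, map_pow, map_pow, aeval_C, ← hy]
      have h5 : algebraMap V B ϖ ^ m = algebraMap V B ϖ ^ (m - i) * algebraMap V B ϖ ^ i := by
        rw [← pow_add, Nat.sub_add_cancel (by omega)]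
      rw [h5, mul_pow]
      ring
    rw [h4]
    exact Ideal.mul_mem_left _ _ h2

end pow

section tube

variable {K : Type} [Field K] {V : ValuationSubring K} {κ : Type} [Field κ] {σ : V →+* κ} {ϖ : V}
  {hr : DIL.Res σ ϖ} {B : Type} [CommRing B] [Algebra K B] {ℬ : ℕ → Submodule V B}
  [GradedAlgebra ℬ] {φ : MvPolynomial (Fin (XV.N + 1)) K →ₐ[K] B} {g : Option (Fin 10)}
  {h : Fin 3 → Sb V φ} {a b c : ℕ} {γ : Fin 3 → Sb V φ} {Q : Type} {x f : Q → Sb V φ}
  (X : DIL.In hr ℬ (Sb V φ) (Igb V φ ϖ g) h a b c γ x f)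
  (ℬK : ℕ → Submodule K B) [GradedAlgebra ℬK]

theorem vB_eq (G : MvPolynomial (Fin (XV.N + 1)) V) :
    vB V φ G = aeval (fun i => φ (MvPolynomial.X i)) G := by
  have h1 : vB V φ = (aeval (R := V) (fun i => φ (MvPolynomial.X i)) :
      MvPolynomial (Fin (XV.N + 1)) V →ₐ[V] B).toRingHom := by
    apply MvPolynomial.ringHom_ext
    · intro v
      show φ (MvPolynomial.map V.subtype (C v)) =
        aeval (R := V) (fun i => φ (MvPolynomial.X i)) (C v)
      rw [map_C, aeval_C]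
      exact φ.commutes _
    · intro i
      show φ (MvPolynomial.map V.subtype (MvPolynomial.X i)) =
        aeval (R := V) (fun i => φ (MvPolynomial.X i)) (MvPolynomial.X i)
      rw [map_X, aeval_X]
  exact RingHom.congr_fun h1 G

theorem X_mem_Igb {i : Fin (XV.N + 1)} (hi : 0 < ordG g (XV.pt i)) :
    ∃ u ∈ Igb V φ ϖ g, (u : B) = φ (MvPolynomial.X i) := by
  have e1 : φ (MvPolynomial.X i) ∈ Sb V φ := by
    have e2 : φ (MvPolynomial.X i) = vB V φ (MvPolynomial.X i) := by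
      show _ = φ (MvPolynomial.map V.subtype (MvPolynomial.X i))
      rw [map_X]
    rw [e2]
    exact RingHom.isIntegralElem_map _
  refine ⟨⟨_, e1⟩, ?_, rfl⟩
  apply Ideal.subset_span
  right
  refine ⟨XV.pt i, hi, ?_⟩
  show φ (MvPolynomial.X i) = φ (XV.xc K (XV.pt i))
  rw [XV.xc, Equiv.symm_apply_apply]

theorem tube_of {H : Fin 3 → MvPolynomial (Fin (XV.N + 1)) V}
    (hH : ∀ i, (h i : B) = aeval (fun i => φ (MvPolynomial.X i)) (H i)) {J : Ideal B}
    (hJ : J ∈ JJ X ℬK) (hϖ : ϖ ≠ 0) (hϖ' : ¬IsUnit ϖ) {i : Fin (XV.N + 1)}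
    (hi : 0 < ordG g (XV.pt i)) :
    ∃ ϖ : V, ϖ ≠ 0 ∧ ¬IsUnit ϖ ∧ (FIN.vJ V φ J).IsIntegralElem
      (Ideal.Quotient.mk J (φ (C ((ϖ : K)⁻¹) * MvPolynomial.X i))) := by
  refine ⟨ϖ, hϖ, hϖ', ?_⟩
  obtain ⟨u, hu, hui⟩ := X_mem_Igb (V := V) (φ := φ) (ϖ := ϖ) hi
  obtain ⟨y, -, hy⟩ := DIL.exists_div' X (j := 1) (z := u) (by rwa [pow_one])
  have hyi : DIL.emb X y = φ (C ((ϖ : K)⁻¹) * MvPolynomial.X i) := by
    apply DIL.cancelB X 1
    rw [hy, hui, pow_one, map_mul]
    have h1 : algebraMap V B ϖ = φ (C (ϖ : K)) := (φ.commutes _).symm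
    rw [h1, ← mul_assoc, ← map_mul, ← C_mul, mul_inv_cancel₀, C_1, map_one, one_mul]
    exact fun h => hϖ (Subtype.ext h)
  obtain ⟨P, hP, -, hPJ⟩ := int_of X hJ.2 y
  have h1 : ((Ideal.Quotient.mk J).comp (DIL.emb X : DIL.Dd X →+* B)).comp
      (algebraMap (MvPolynomial (Fin 3) V) (DIL.Dd X)) =
        (FIN.vJ V φ J).comp (aeval H : MvPolynomial (Fin 3) V →ₐ[V] _).toRingHom := by
    refine RingHom.ext fun F => ?_
    show Ideal.Quotient.mk J (DIL.emb X (algebraMap (MvPolynomial (Fin 3) V) (DIL.Dd X) F)) =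
      Ideal.Quotient.mk J (vB V φ (aeval H F))
    rw [DIL.algebraMap_Dd, DIL.emb_ofS, aeval_h hH, vB_eq]
  refine ⟨P.map (aeval H : MvPolynomial (Fin 3) V →ₐ[V] _).toRingHom, hP.map _, ?_⟩
  rw [Polynomial.eval₂_map, ← h1, ← hyi]
  have h2 : (Ideal.Quotient.mk J) (DIL.emb X y) =
      ((Ideal.Quotient.mk J).comp (DIL.emb X : DIL.Dd X →+* B)) y := rfl
  rw [h2, ← Polynomial.hom_eval₂]
  exact Ideal.Quotient.eq_zero_iff_mem.2 hPJ

end tube

end Pool.Agent.BRG
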