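import Pool.Agent.BRG.GRStmts
import Pool.Agent.BRG.JJ

/-!
# CMP: functionals on `D` and on `B = D[1 / ϖ]`
-/

set_option autoImplicit false

noncomputable section

namespace Pool.Agent.BRG

open scoped Classical
open MvPolynomial Pool.Agent.FRM Pool.Agent.XV Pool.Agent.GML Pool.Agent.XB

namespace CMPb_

section cmp

variable {V κ K : Type} [CommRing V] [IsDomain V] [IsDiscreteValuationRing V] [Field κ] [Field K]
    [Algebra V K] [IsFractionRing V K] {σ : V →+* κ} {ϖ : V} {hr : DIL.Res σ ϖ} {B : Type}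
    [CommRing B] [IsDomain B] [Algebra V B] [Algebra K B] [IsScalarTower V K B]
    {ℬ : ℕ → Submodule K B} [GradedAlgebra ℬ]
    [gV : GradedAlgebra fun n => (ℬ n).restrictScalars V] {S : Subalgebra V B} {I : Ideal S}
    {h : Fin 3 → S} {a b c : ℕ} {γ : Fin 3 → S} {Q : Type} {x f : Q → S}
    (Y : DIL.In hr (fun n => (ℬ n).restrictScalars V) S I h a b c γ x f)
    [Algebra (MvPolynomial (Fin (2 + 1)) K) B] [IsScalarTower K (MvPolynomial (Fin (2 + 1)) K) B]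
    (hϖ : Irreducible ϖ)
    (hA : ∀ i : Fin (2 + 1), algebraMap (MvPolynomial (Fin (2 + 1)) K) B (X i) = h i)
    (hloc : ∀ y : B, ∃ N : ℕ, algebraMap V B ϖ ^ N * y ∈ S)

/-- the inclusion of `V[h]` in `K[h]` -/
abbrev ι (V K : Type) [CommRing V] [Field K] [Algebra V K] :
    MvPolynomial (Fin 3) V →+* MvPolynomial (Fin (2 + 1)) K := MvPolynomial.map (algebraMap V K)

omit [IsDomain V] [IsDiscreteValuationRing V] in
theorem ι_inj : Function.Injective (ι V K) :=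
  MvPolynomial.map_injective _ (IsFractionRing.injective V K)

omit [IsDomain V] [IsDiscreteValuationRing V] [IsFractionRing V K] [IsDomain B] in
include hA in
theorem emb_smul' (q : MvPolynomial (Fin 3) V) (y : DIL.Dd Y) :
    DIL.emb Y (q • y) = ι V K q • DIL.emb Y y := by
  rw [Algebra.smul_def, Algebra.smul_def, map_mul, DIL.algebraMap_Dd, DIL.emb_ofS]
  congr 1
  have h1 : (S.val.comp (aeval h : MvPolynomial (Fin 3) V →ₐ[V] S)).toRingHom =
      (algebraMap (MvPolynomial (Fin (2 + 1)) K) B).comp (ι V K) := by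
    apply MvPolynomial.ringHom_ext
    · intro v
      show ((aeval h (C v) : S) : B) = algebraMap (MvPolynomial (Fin (2 + 1)) K) B
        (MvPolynomial.map (algebraMap V K) (C v))
      rw [aeval_C, map_C]
      have h2 : algebraMap (MvPolynomial (Fin (2 + 1)) K) B (C (algebraMap V K v)) =
          algebraMap K B (algebraMap V K v) :=
        (IsScalarTower.algebraMap_apply K (MvPolynomial (Fin (2 + 1)) K) B _).symm
      rw [h2, ← IsScalarTower.algebraMap_apply]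
      rfl
    · intro i
      show ((aeval h (MvPolynomial.X i) : S) : B) = algebraMap (MvPolynomial (Fin (2 + 1)) K) B
        (MvPolynomial.map (algebraMap V K) (MvPolynomial.X i))
      rw [aeval_X, map_X]
      exact (hA i).symm
  exact RingHom.congr_fun h1 q

include hϖ in
/-- denominators of polynomials -/
theorem exists_den (q : MvPolynomial (Fin (2 + 1)) K) :
    ∃ (N : ℕ) (q' : MvPolynomial (Fin 3) V), ι V K q' = C (algebraMap V K ϖ ^ N) * q := by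
  induction q using MvPolynomial.induction_on with
  | C a =>
    obtain ⟨v, w, hw, rfl⟩ := IsFractionRing.div_surjective (A := V) a
    have hw0 : w ≠ 0 := nonZeroDivisors.ne_zero hw
    obtain ⟨N, u, hu⟩ := IsDiscreteValuationRing.eq_unit_mul_pow_irreducible hw0 hϖ
    refine ⟨N, C ((u⁻¹ : Vˣ) * v), ?_⟩
    show MvPolynomial.map (algebraMap V K) _ = _
    rw [map_C, ← C_mul]
    congr 1
    have h1 : algebraMap V K w ≠ 0 := by
      rw [Ne, map_eq_zero_iff _ (IsFractionRing.injective V K)]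
      exact hw0
    rw [← mul_div_assoc, eq_div_iff h1, ← map_mul, ← map_pow, ← map_mul]
    congr 1
    rw [hu]
    calc (((u⁻¹ : Vˣ) : V) * v) * ((u : V) * ϖ ^ N)
        = (((u⁻¹ : Vˣ) : V) * (u : V)) * (ϖ ^ N * v) := by ring
      _ = ϖ ^ N * v := by rw [Units.inv_mul, one_mul]
  | add p q hp hq =>
    obtain ⟨N, p', hp'⟩ := hp
    obtain ⟨M, q', hq'⟩ := hq
    refine ⟨N + M, C (ϖ ^ M) * p' + C (ϖ ^ N) * q', ?_⟩
    rw [map_add, map_mul, map_mul, hp', hq']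
    show MvPolynomial.map (algebraMap V K) (C (ϖ ^ M)) * _ +
      MvPolynomial.map (algebraMap V K) (C (ϖ ^ N)) * _ = _
    simp only [MvPolynomial.map_C, map_pow, pow_add, map_mul]
    ring
  | mul_X p i hp =>
    obtain ⟨N, p', hp'⟩ := hp
    refine ⟨N, p' * X i, ?_⟩
    rw [map_mul, hp']
    show _ * MvPolynomial.map (algebraMap V K) (X i) = _
    rw [map_X]
    ring

/-- the relation between functionals on `D` and on `B` -/
def Rel (N : ℕ) (φ : DIL.Dd Y →ₗ[MvPolynomial (Fin (2 + 1)) V] MvPolynomial (Fin (2 + 1)) V)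
    (ψ : B →ₗ[MvPolynomial (Fin (2 + 1)) K] MvPolynomial (Fin (2 + 1)) K) : Prop :=
  ∀ y, ι V K (φ y) = C (algebraMap V K ϖ ^ N) * ψ (DIL.emb Y y)

omit [IsDiscreteValuationRing V] [IsDomain B] in
include hϖ in
theorem cK_ne : (algebraMap V K ϖ) ≠ 0 := by
  rw [Ne, map_eq_zero_iff _ (IsFractionRing.injective V K)]
  exact hϖ.ne_zero

include hA hϖ in
theorem exists_res {J : Ideal B} (hJ : FinJ Y J)
    (ψ : B →ₗ[MvPolynomial (Fin (2 + 1)) K] MvPolynomial (Fin (2 + 1)) K)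
    (hψ : ∀ x ∈ J, ψ x = 0) : ∃ N φ, Rel Y N φ ψ := by
  have hJ' : Module.Finite (MvPolynomial (Fin 3) V)
    (DIL.Dd Y ⧸ J.comap (DIL.emb Y : DIL.Dd Y →+* B)) := hJ
  rw [fin_iff] at hJ'
  obtain ⟨T, hT⟩ := hJ'
  choose M q' hq' using fun t : DIL.Dd Y => exists_den (V := V) hϖ (ψ (DIL.emb Y t))
  set N := ∑ t ∈ T, M t with hN
  have hval : ∀ y : DIL.Dd Y, ∃ r : MvPolynomial (Fin 3) V,
      ι V K r = C (algebraMap V K ϖ ^ N) * ψ (DIL.emb Y y) := by
    intro y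
    obtain ⟨y', hy', h1⟩ := hT y
    have h2 : ψ (DIL.emb Y y) = ψ (DIL.emb Y y') := by
      rw [← sub_eq_zero, ← map_sub, ← map_sub]
      exact hψ _ (Ideal.mem_comap.1 h1)
    rw [h2]
    refine Submodule.span_induction ?_ ?_ ?_ ?_ hy'
    · intro t ht
      obtain ⟨e, he⟩ := Nat.exists_eq_add_of_le
        (Finset.single_le_sum (f := M) (fun _ _ => Nat.zero_le _) ht)
      refine ⟨C (ϖ ^ e) * q' t, ?_⟩
      rw [map_mul, hq' t]
      show MvPolynomial.map (algebraMap V K) (C (ϖ ^ e)) * _ = _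
      rw [map_C, map_pow, ← mul_assoc, ← C_mul, ← pow_add, hN, he, add_comm e]
    · exact ⟨0, by rw [map_zero, map_zero, map_zero, mul_zero]⟩
    · rintro u w _ _ ⟨r, hr⟩ ⟨r', hr'⟩
      exact ⟨r + r', by rw [map_add, hr, hr', map_add, map_add, mul_add]⟩
    · rintro q u _ ⟨r, hr⟩
      refine ⟨q * r, ?_⟩
      rw [map_mul, hr, emb_smul' Y hA, map_smul, smul_eq_mul]
      ring
  choose φ hφ using hval
  refine ⟨N, { toFun := φ, map_add' := ?_, map_smul' := ?_ }, hφ⟩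
  · intro y y'
    apply ι_inj (V := V) (K := K)
    rw [map_add (ι V K), hφ, hφ, hφ, map_add, map_add, mul_add]
  · intro q y
    apply ι_inj (V := V) (K := K)
    rw [RingHom.id_apply, smul_eq_mul, map_mul (ι V K), hφ, hφ]
    have h1 : DIL.emb Y (q • y) = ι V K q • DIL.emb Y y := emb_smul' Y hA q y
    rw [h1, map_smul, smul_eq_mul]
    ring

variable {Y}

omit [IsDomain V] [IsDiscreteValuationRing V] [IsDomain B] [IsFractionRing V K] in
theorem coeff_rel {N : ℕ}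
    {φ : DIL.Dd Y →ₗ[MvPolynomial (Fin (2 + 1)) V] MvPolynomial (Fin (2 + 1)) V}
    {ψ : B →ₗ[MvPolynomial (Fin (2 + 1)) K] MvPolynomial (Fin (2 + 1)) K} (h1 : Rel Y N φ ψ)
    (y : DIL.Dd Y) (d : Fin (2 + 1) →₀ ℕ) :
    algebraMap V K (coeff d (φ y)) = algebraMap V K ϖ ^ N * coeff d (ψ (DIL.emb Y y)) := by
  have h2 := congrArg (coeff d) (h1 y)
  rw [coeff_C_mul] at h2
  rw [← h2]
  exact (coeff_map (algebraMap V K) (φ y) d).symm

include hϖ in
theorem rel_Om {N : ℕ}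
    {φ : DIL.Dd Y →ₗ[MvPolynomial (Fin (2 + 1)) V] MvPolynomial (Fin (2 + 1)) V}
    {ψ : B →ₗ[MvPolynomial (Fin (2 + 1)) K] MvPolynomial (Fin (2 + 1)) K} (h1 : Rel Y N φ ψ)
    {s : ℤ} (hψ : ψ ∈ DXA.Om ℬ s) : φ ∈ DXA.Om (DIL.dgr Y) s := by
  intro m y hy d hd
  refine hψ m (DIL.emb Y y) hy d fun h2 => hd ?_
  have h3 := coeff_rel h1 y d
  rw [h2, mul_zero] at h3
  exact (map_eq_zero_iff _ (IsFractionRing.injective V K)).1 h3

omit [IsDomain V] [IsDiscreteValuationRing V] [IsFractionRing V K] [IsDomain B] in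
/-- elements of `B` up to denominators -/
theorem emb_smulV {N : ℕ} {d : DIL.Dd Y} {y : B} (hd : DIL.emb Y d = algebraMap V B ϖ ^ N * y) :
    DIL.emb Y d = (C (algebraMap V K ϖ ^ N) : MvPolynomial (Fin (2 + 1)) K) • y := by
  rw [hd, Algebra.smul_def]
  congr 1
  have h2 : algebraMap (MvPolynomial (Fin (2 + 1)) K) B (C (algebraMap V K ϖ ^ N)) =
      algebraMap K B (algebraMap V K ϖ ^ N) :=
    (IsScalarTower.algebraMap_apply K (MvPolynomial (Fin (2 + 1)) K) B _).symm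
  rw [h2, map_pow, ← IsScalarTower.algebraMap_apply]

include hϖ hloc in
theorem rel_Om'
    {φ : DIL.Dd Y →ₗ[MvPolynomial (Fin (2 + 1)) V] MvPolynomial (Fin (2 + 1)) V}
    {ψ : B →ₗ[MvPolynomial (Fin (2 + 1)) K] MvPolynomial (Fin (2 + 1)) K} (h1 : Rel Y 0 φ ψ)
    {s : ℤ} (hφ : φ ∈ DXA.Om (DIL.dgr Y) s) : ψ ∈ DXA.Om ℬ s := by
  intro m y hy d hd
  obtain ⟨N, e, he⟩ := DIL.exists_num (X := Y) hloc y
  have he' := emb_smulV (K := K) he
  have he2 : e ∈ DIL.dgr Y m := by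
    rw [DIL.mem_dgr, he, ← map_pow, ← Algebra.smul_def]
    exact Submodule.smul_mem ((ℬ m).restrictScalars V) _ hy
  refine hφ m e he2 d fun h2 => hd ?_
  have h3 := coeff_rel h1 e d
  rw [h2, map_zero, pow_zero, one_mul, he', map_smul, smul_eq_mul, coeff_C_mul] at h3
  exact (mul_eq_zero.1 h3.symm).resolve_left (pow_ne_zero _ (cK_ne hϖ))

/-- functionals on `B` extending a functional on `D` -/
def Ext (φ : DIL.Dd Y →ₗ[MvPolynomial (Fin (2 + 1)) V] MvPolynomial (Fin (2 + 1)) V) (y : B)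
    (p : MvPolynomial (Fin (2 + 1)) K) : Prop :=
  ∃ (N : ℕ) (d : DIL.Dd Y), DIL.emb Y d = (C (algebraMap V K ϖ ^ N) : MvPolynomial (Fin (2 + 1)) K)
    • y ∧ ι V K (φ d) = C (algebraMap V K ϖ ^ N) * p

omit [IsDiscreteValuationRing V] in
include hϖ in
theorem C_ne (N : ℕ) : (C (algebraMap V K ϖ ^ N) : MvPolynomial (Fin (2 + 1)) K) ≠ 0 := by
  rw [Ne, C_eq_zero]
  exact pow_ne_zero _ (cK_ne hϖ)

omit [IsDiscreteValuationRing V] [IsDomain V] [IsFractionRing V K] in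
theorem ι_C (v : V) : ι V K (C v) = C (algebraMap V K v) := map_C _ _

omit [IsDiscreteValuationRing V] [IsDomain V] [IsFractionRing V K] in
theorem ι_Cp (v : V) (n : ℕ) : ι V K (C (v ^ n)) = C (algebraMap V K v ^ n) :=
  (ι_C (v ^ n)).trans (congrArg C (map_pow _ _ _))

include hA in
theorem emb_C_smul (v : V) (n : ℕ) (d : DIL.Dd Y) :
    DIL.emb Y ((C (v ^ n) : MvPolynomial (Fin 3) V) • d) =
      (C (algebraMap V K v ^ n) : MvPolynomial (Fin (2 + 1)) K) • DIL.emb Y d := by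
  rw [emb_smul' Y hA, ι_Cp]

include hA hϖ in
theorem ext_unique {φ : DIL.Dd Y →ₗ[MvPolynomial (Fin (2 + 1)) V] MvPolynomial (Fin (2 + 1)) V}
    {y : B} {p p' : MvPolynomial (Fin (2 + 1)) K} (h1 : Ext φ y p) (h2 : Ext φ y p') : p = p' := by
  obtain ⟨N, d, hd, hp⟩ := h1
  obtain ⟨M, e, he, hp'⟩ := h2
  have h3 : (C (ϖ ^ M) : MvPolynomial (Fin 3) V) • d = (C (ϖ ^ N) : MvPolynomial (Fin 3) V) • e := by
    apply DIL.emb_inj Y
    rw [emb_C_smul hA, emb_C_smul hA, hd, he, smul_smul, smul_smul, mul_comm]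
  have h4 : (C (ϖ ^ M) : MvPolynomial (Fin 3) V) * φ d = C (ϖ ^ N) * φ e := by
    have h5 : φ ((C (ϖ ^ M) : MvPolynomial (Fin 3) V) • d) =
      (C (ϖ ^ M) : MvPolynomial (Fin 3) V) • φ d := φ.map_smul _ _
    have h6 : φ ((C (ϖ ^ N) : MvPolynomial (Fin 3) V) • e) =
      (C (ϖ ^ N) : MvPolynomial (Fin 3) V) • φ e := φ.map_smul _ _
    rw [← smul_eq_mul, ← smul_eq_mul, ← h5, ← h6, h3]
  have h5 := congrArg (ι V K) h4
  rw [map_mul, map_mul, ι_Cp, ι_Cp, hp, hp'] at h5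
  have h6 : (C (algebraMap V K ϖ ^ M) : MvPolynomial (Fin (2 + 1)) K) *
      (C (algebraMap V K ϖ ^ N)) * p = C (algebraMap V K ϖ ^ M) *
      (C (algebraMap V K ϖ ^ N)) * p' := by
    linear_combination h5
  exact mul_left_cancel₀ (mul_ne_zero (C_ne hϖ M) (C_ne hϖ N)) h6

include hA hϖ hloc in
/-- **extension of functionals** -/
theorem exists_ext (φ : DIL.Dd Y →ₗ[MvPolynomial (Fin (2 + 1)) V] MvPolynomial (Fin (2 + 1)) V) :
    ∃ ψ, Rel (K := K) Y 0 φ ψ := by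
  have hex : ∀ y : B, ∃ p : MvPolynomial (Fin (2 + 1)) K, Ext φ y p := by
    intro y
    obtain ⟨N, e, he⟩ := DIL.exists_num (X := Y) hloc y
    refine ⟨C ((algebraMap V K ϖ ^ N)⁻¹) * ι V K (φ e), N, e, emb_smulV (K := K) he, ?_⟩
    rw [← mul_assoc, ← C_mul, mul_inv_cancel₀ (pow_ne_zero _ (cK_ne hϖ)), C_1, one_mul]
  choose ψ hψ using hex
  refine ⟨{ toFun := ψ, map_add' := ?_, map_smul' := ?_ }, fun y => ?_⟩
  · intro y y'
    refine ext_unique hϖ hA (hψ _) ?_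
    obtain ⟨N, d, hd, hp⟩ := hψ y
    obtain ⟨M, e, he, hp'⟩ := hψ y'
    refine ⟨N + M, (C (ϖ ^ M) : MvPolynomial (Fin 3) V) • d +
      (C (ϖ ^ N) : MvPolynomial (Fin 3) V) • e, ?_, ?_⟩
    · rw [map_add, emb_C_smul hA, emb_C_smul hA, hd, he, smul_smul, smul_smul, smul_add,
        ← C_mul, ← C_mul, ← pow_add, ← pow_add, add_comm M N]
    · have h5 : φ ((C (ϖ ^ M) : MvPolynomial (Fin 3) V) • d) =
        (C (ϖ ^ M) : MvPolynomial (Fin 3) V) • φ d := φ.map_smul _ _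
      have h6 : φ ((C (ϖ ^ N) : MvPolynomial (Fin 3) V) • e) =
        (C (ϖ ^ N) : MvPolynomial (Fin 3) V) • φ e := φ.map_smul _ _
      rw [map_add φ, h5, h6, map_add, smul_eq_mul, smul_eq_mul, map_mul, map_mul, ι_Cp, ι_Cp, hp,
        hp', pow_add, C_mul]
      ring
  · intro q y
    refine ext_unique hϖ hA (hψ _) ?_
    obtain ⟨N, d, hd, hp⟩ := hψ y
    obtain ⟨M, q', hq'⟩ := exists_den (V := V) hϖ q
    refine ⟨N + M, q' • d, ?_, ?_⟩
    · rw [emb_smul' Y hA, hd, hq', smul_smul, smul_smul, pow_add, C_mul]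
      congr 1
      ring
    · have h5 : φ (q' • d) = q' • φ d := φ.map_smul _ _
      rw [h5, smul_eq_mul, map_mul, hp, hq', RingHom.id_apply, smul_eq_mul, pow_add, C_mul]
      ring
  · rw [pow_zero, C_1, one_mul]
    refine ext_unique hϖ hA ?_ (hψ _)
    exact ⟨0, y, by rw [pow_zero, C_1, one_smul], by rw [pow_zero, C_1, one_mul]⟩

include hϖ hloc in
theorem ind_of {n : ℕ} {N : Fin n → ℕ}
    {φ : Fin n → (DIL.Dd Y →ₗ[MvPolynomial (Fin (2 + 1)) V] MvPolynomial (Fin (2 + 1)) V)}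
    {ψ : Fin n → (B →ₗ[MvPolynomial (Fin (2 + 1)) K] MvPolynomial (Fin (2 + 1)) K)}
    (h1 : ∀ i, Rel Y (N i) (φ i) (ψ i)) (hψ : LinearIndependent K ψ) : LinearIndependent V φ := by
  rw [Fintype.linearIndependent_iff] at hψ ⊢
  intro v hv i
  have h2 : ∀ y : DIL.Dd Y, ∑ i, C (algebraMap V K (v i) * algebraMap V K ϖ ^ N i) *
      ψ i (DIL.emb Y y) = 0 := by
    intro y
    have h3 := congrArg (ι V K) (LinearMap.congr_fun hv y)
    rw [LinearMap.sum_apply, LinearMap.zero_apply, map_sum, map_zero] at h3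
    rw [← h3]
    refine Finset.sum_congr rfl fun i _ => ?_
    have h4 : (v i • φ i) y = C (v i) * φ i y := by
      rw [LinearMap.smul_apply, smul_eq_C_mul]
    rw [h4, map_mul (ι V K), ι_C, h1 i y, C_mul]
    ring
  have h3 : ∑ i, (algebraMap V K (v i) * algebraMap V K ϖ ^ N i) • ψ i = 0 := by
    apply LinearMap.ext
    intro b
    obtain ⟨M, e, he⟩ := DIL.exists_num (X := Y) hloc b
    have he' := emb_smulV (K := K) he
    have h4 := h2 e
    have h5 : (C (algebraMap V K ϖ ^ M) : MvPolynomial (Fin (2 + 1)) K) *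
        (∑ i, (algebraMap V K (v i) * algebraMap V K ϖ ^ N i) • ψ i) b = 0 := by
      rw [← h4, LinearMap.sum_apply, Finset.mul_sum]
      refine Finset.sum_congr rfl fun i _ => ?_
      rw [he', map_smul, smul_eq_mul, LinearMap.smul_apply, smul_eq_C_mul]
      ring
    rw [LinearMap.zero_apply]
    exact (mul_eq_zero.1 h5).resolve_left (C_ne hϖ M)
  have h4 := hψ _ h3 i
  rcases mul_eq_zero.1 h4 with h5 | h5
  · exact (map_eq_zero_iff _ (IsFractionRing.injective V K)).1 h5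
  · exact absurd h5 (pow_ne_zero _ (cK_ne hϖ))

theorem ind_of' {n : ℕ}
    {φ : Fin n → (DIL.Dd Y →ₗ[MvPolynomial (Fin (2 + 1)) V] MvPolynomial (Fin (2 + 1)) V)}
    {ψ : Fin n → (B →ₗ[MvPolynomial (Fin (2 + 1)) K] MvPolynomial (Fin (2 + 1)) K)}
    (h1 : ∀ i, Rel Y 0 (φ i) (ψ i)) (hφ : LinearIndependent V φ) : LinearIndependent K ψ := by
  rw [← LinearIndependent.iff_fractionRing V K]
  rw [Fintype.linearIndependent_iff] at hφ ⊢
  intro v hv
  apply hφ
  apply LinearMap.ext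
  intro y
  apply ι_inj (V := V) (K := K)
  have h2 := LinearMap.congr_fun hv (DIL.emb Y y)
  rw [LinearMap.sum_apply, LinearMap.zero_apply] at h2
  rw [LinearMap.sum_apply, map_sum, LinearMap.zero_apply, map_zero, ← h2]
  refine Finset.sum_congr rfl fun i _ => ?_
  have h4 : (v i • φ i) y = C (v i) * φ i y := by
    rw [LinearMap.smul_apply, smul_eq_C_mul]
  rw [h4, map_mul (ι V K), ι_C, h1 i y, pow_zero, C_1, one_mul]
  show _ = v i • (ψ i (DIL.emb Y y))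
  rw [← algebraMap_smul K (v i) (ψ i (DIL.emb Y y)), smul_eq_C_mul]

end cmp

/-- common ideals -/
theorem exists_common {B : Type} [CommRing B] {JJ : Set (Ideal B)} (hne : JJ.Nonempty)
    (hmul : ∀ J ∈ JJ, ∀ J' ∈ JJ, J * J' ∈ JJ) (n : ℕ) (J : Fin n → Ideal B)
    (hJ : ∀ i, J i ∈ JJ) : ∃ J' ∈ JJ, ∀ i, J' ≤ J i := by
  induction n with
  | zero =>
    obtain ⟨J', hJ'⟩ := hne
    exact ⟨J', hJ', fun i => i.elim0⟩
  | succ n ih =>
    obtain ⟨J', hJ', h1⟩ := ih (fun i => J i.castSucc) fun i => hJ _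
    refine ⟨J' * J (Fin.last n), hmul _ hJ' _ (hJ _), fun i => ?_⟩
    refine Fin.lastCases ?_ (fun i => ?_) i
    · exact Ideal.mul_le_right
    · exact Ideal.mul_le_left.trans (h1 i)

section fin

variable {V κ K : Type} [CommRing V] [IsDomain V] [IsDiscreteValuationRing V] [Field κ] [Field K]
    [Algebra V K] [IsFractionRing V K] {σ : V →+* κ} {ϖ : V} {hr : DIL.Res σ ϖ} {B : Type}
    [CommRing B] [IsDomain B] [Algebra V B] [Algebra K B] [IsScalarTower V K B]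
    {ℬ : ℕ → Submodule K B} [GradedAlgebra ℬ]
    [gV : GradedAlgebra fun n => (ℬ n).restrictScalars V] {S : Subalgebra V B} {I : Ideal S}
    {h : Fin 3 → S} {a b c : ℕ} {γ : Fin 3 → S} {Q : Type} {x f : Q → S}
    {Y : DIL.In hr (fun n => (ℬ n).restrictScalars V) S I h a b c γ x f}
    [Algebra (MvPolynomial (Fin (2 + 1)) K) B] [IsScalarTower K (MvPolynomial (Fin (2 + 1)) K) B]
    (hϖ : Irreducible ϖ)
    (hA : ∀ i : Fin (2 + 1), algebraMap (MvPolynomial (Fin (2 + 1)) K) B (X i) = h i)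
    (hloc : ∀ y : B, ∃ N : ℕ, algebraMap V B ϖ ^ N * y ∈ S)

include hϖ hA hloc in
theorem half1 {J : Ideal B} (hJ : FinJ Y J) {s : ℤ} {n : ℕ}
    (ψ : Fin n → (B →ₗ[MvPolynomial (Fin (2 + 1)) K] MvPolynomial (Fin (2 + 1)) K))
    (hψ : LinearIndependent K ψ) (hO : ∀ i, ψ i ∈ GMD.HHm (n := 2) ℬ J s) :
    ∃ φ : Fin n → (DIL.Dd Y →ₗ[MvPolynomial (Fin (2 + 1)) V] MvPolynomial (Fin (2 + 1)) V),
      LinearIndependent V φ ∧ ∀ i, φ i ∈ DXA.Om (DIL.dgr Y) s := by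
  choose N φ hφ using fun i => exists_res Y hϖ hA hJ (ψ i) ((GMD.mem_HHm ℬ).1 (hO i)).2
  exact ⟨φ, ind_of hϖ hloc hφ hψ, fun i => rel_Om hϖ (hφ i) ((GMD.mem_HHm ℬ).1 (hO i)).1⟩

include hϖ hA hloc in
theorem half2 {JJ : Set (Ideal B)} (hne : JJ.Nonempty)
    (hmul : ∀ J ∈ JJ, ∀ J' ∈ JJ, J * J' ∈ JJ) {s : ℤ} {n : ℕ}
    (φ : Fin n → (DIL.Dd Y →ₗ[MvPolynomial (Fin (2 + 1)) V] MvPolynomial (Fin (2 + 1)) V))
    (hφ : LinearIndependent V φ) (hO : ∀ i, φ i ∈ DXA.Om (DIL.dgr Y) s)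
    (hJJ : ∀ i, ∃ J ∈ JJ, ∀ d : DIL.Dd Y, DIL.emb Y d ∈ J → φ i d = 0) :
    ∃ J ∈ JJ, ∃ ψ : Fin n → (B →ₗ[MvPolynomial (Fin (2 + 1)) K] MvPolynomial (Fin (2 + 1)) K),
      LinearIndependent K ψ ∧ ∀ i, ψ i ∈ GMD.HHm (n := 2) ℬ J s := by
  choose J hJ hJ' using hJJ
  obtain ⟨J', hJ'', hle⟩ := exists_common hne hmul _ J hJ
  choose ψ hψ using fun i => exists_ext (K := K) hϖ hA hloc (φ i)
  refine ⟨J', hJ'', ψ, ind_of' hψ hφ, fun i => (GMD.mem_HHm ℬ).2
    ⟨rel_Om' hϖ hloc (hψ i) (hO i), ?_⟩⟩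
  intro y hy
  obtain ⟨N, e, he⟩ := DIL.exists_num (X := Y) hloc y
  have he' := emb_smulV (K := K) he
  have h4 : DIL.emb Y e ∈ J i := by
    rw [he]
    exact Ideal.mul_mem_left _ _ (hle i hy)
  have h5 := hψ i e
  rw [hJ' i e h4, map_zero, pow_zero, C_1, one_mul, he', map_smul, smul_eq_mul] at h5
  exact (mul_eq_zero.1 h5.symm).resolve_left (C_ne hϖ N)

end fin

/-- independent families in submodules -/
theorem exists_fam {R M : Type} [CommRing R] [AddCommGroup M] [Module R M] (W : Submodule R M) :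
    ∃ f : Fin (Module.finrank R W) → M, LinearIndependent R f ∧ ∀ i, f i ∈ W := by
  obtain ⟨f, hf⟩ := exists_linearIndependent_of_le_finrank (R := R) (M := W) le_rfl
  exact ⟨fun i => f i, hf.map' W.subtype W.ker_subtype, fun i => (f i).2⟩

theorem le_finrank_of {R M : Type} [CommRing R] [IsDomain R] [AddCommGroup M] [Module R M]
    (W : Submodule R M) [Module.Finite R W] {n : ℕ} (f : Fin n → M) (hf : LinearIndependent R f)
    (h : ∀ i, f i ∈ W) : n ≤ Module.finrank R W := by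
  have h4 : LinearIndependent R (fun i => (⟨f i, h i⟩ : W)) :=
    LinearIndependent.of_comp W.subtype hf
  have h5 := h4.fintype_card_le_finrank
  rwa [Fintype.card_fin] at h5

end CMPb_

open CMPb_ in
theorem cmpb_proof : Stmt_Cmp := by
  intro V κ K _ _ _ _ _ _ _ σ ϖ hr B _ _ _ _ _ ℬ _ gV S I h a b c γ Q x f Y _ _ hϖ hA hloc hne
    hmul s hfree hfin hfinJ hann
  constructor
  · intro J hJ
    obtain ⟨ψ, hψ, hO⟩ := exists_fam (GMD.HHm (n := 2) ℬ J s)
    obtain ⟨φ, hφ, hO'⟩ := half1 (Y := Y) hϖ hA hloc hJ.2 ψ hψ hO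
    exact le_finrank_of (GML.Om (DIL.dmod Y) s) φ hφ fun i => (DIL.om_iff Y s (φ i)).1 (hO' i)
  · obtain ⟨φ, hφ, hO⟩ := exists_fam (GML.Om (DIL.dmod Y) s)
    obtain ⟨J, hJ, ψ, hψ, hO'⟩ := half2 (Y := Y) hϖ hA hloc hne hmul φ hφ
      (fun i => (DIL.om_iff Y s (φ i)).2 (hO i)) fun i => hann _ (hO i)
    refine ⟨J, hJ, ?_⟩
    have := hfinJ J hJ
    exact le_finrank_of (GMD.HHm (n := 2) ℬ J s) ψ hψ hO'

end Pool.Agent.BRG
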