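import Pool.Agent.BRG.Defs
import Pool.Agent.GMD.Std
import Pool.Agent.DIL.Surf

/-!
# GRW: parts of the proof (statements)
-/

set_option autoImplicit false

noncomputable section

namespace Pool.Agent.BRG

open scoped Classical
open MvPolynomial Pool.Agent.FRM Pool.Agent.XV Pool.Agent.GML Pool.Agent.XB

/-- **VGP**: the degree of `X` is larger than twice the degree of `P_k` (uses UCH, RAY of XB,
XPR of XS, PRI of XV). -/
def Stmt_Vgp : Prop :=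
  ∀ (F : Type) [Field F] [IsAlgClosed F] (k : Fin 10) (v d : ℕ),
    (∃ C : ℕ, ∀ m : ℕ, |6 * (Module.finrank F (qgr (I F) m) : ℤ) - v * (m : ℤ) ^ 3| ≤
      C * ((m : ℤ) + 1) ^ 2) →
    (∃ C : ℕ, ∀ m : ℕ, |2 * (Module.finrank F (qgr (JI F (some k)) m) : ℤ) - d * (m : ℤ) ^ 2| ≤
      C * ((m : ℤ) + 1)) → 2 * d < v

/-- **LNP**: linear forms which are parameters on the surface `g` and part of parameters on `X`
(compare LNF of XB). -/
def Stmt_Lnp : Prop :=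
  ∀ (F : Type) [Field F] [IsAlgClosed F] (g : Option (Fin 10)),
    ∃ (h : Fin 3 → MvPolynomial (Fin (XV.N + 1)) F) (θ : MvPolynomial (Fin (XV.N + 1)) F),
      (∀ i, (h i).IsHomogeneous 1) ∧ θ.IsHomogeneous 1 ∧
      (∀ j, ∃ n : ℕ, (X j : MvPolynomial (Fin (XV.N + 1)) F) ^ n ∈
        Ideal.span (Set.range h) ⊔ JI F g) ∧
      ∀ j, ∃ n : ℕ, (X j : MvPolynomial (Fin (XV.N + 1)) F) ^ n ∈
        Ideal.span (Set.range h) ⊔ Ideal.span {θ} ⊔ I F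

/-- **PAR**: parameters of the special fibre are parameters of `B`. -/
def Stmt_Par : Prop :=
  ∀ (p : ℕ) (J : Type) (E : Eqs p XV.N J) (K : Type) [Field K] (V : ValuationSubring K)
    (F : Type) [Field F] [IsAlgClosed F] (c : F →+* V) (σ : V →+* F) (t ϖ : V)
    (P : Ideal (MvPolynomial (Fin (XV.N + 1)) K)) (z : Fin 4 → MvPolynomial (Fin (XV.N + 1)) V)
    (B : Type) [CommRing B] [Algebra K B] (φ : MvPolynomial (Fin (XV.N + 1)) K →ₐ[K] B)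
    (ℬ : ℕ → Submodule K B) [GradedAlgebra ℬ], SuB E V c σ t ϖ P z φ ℬ →
    ∀ (h : Fin 3 → MvPolynomial (Fin (XV.N + 1)) F) (θ : MvPolynomial (Fin (XV.N + 1)) F),
      (∀ i, (h i).IsHomogeneous 1) → θ.IsHomogeneous 1 →
      (∀ j, ∃ n : ℕ, (X j : MvPolynomial (Fin (XV.N + 1)) F) ^ n ∈
        Ideal.span (Set.range h) ⊔ Ideal.span {θ} ⊔ I F) →
    (∀ q : Polynomial (MvPolynomial (Fin (2 + 1)) K),
      Polynomial.eval₂ ((aeval fun i => lfb V φ c (h i) :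
        MvPolynomial (Fin (2 + 1)) K →ₐ[K] B) : MvPolynomial (Fin (2 + 1)) K →+* B)
          (lfb V φ c θ) q = 0 → q = 0) ∧
    ∃ T : Finset B, ∀ b : B, ∃ q : B → Polynomial (MvPolynomial (Fin (2 + 1)) K),
      b = ∑ t ∈ T, Polynomial.eval₂ ((aeval fun i => lfb V φ c (h i) :
        MvPolynomial (Fin (2 + 1)) K →ₐ[K] B) : MvPolynomial (Fin (2 + 1)) K →+* B)
          (lfb V φ c θ) (q t) * t

/-- **CMP**: functionals on `D` and functionals on `B = D[1 / ϖ]`. -/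
def Stmt_Cmp : Prop :=
  ∀ (V κ K : Type) [CommRing V] [IsDomain V] [IsDiscreteValuationRing V] [Field κ] [Field K]
    [Algebra V K] [IsFractionRing V K] (σ : V →+* κ) (ϖ : V) (hr : DIL.Res σ ϖ) (B : Type)
    [CommRing B] [IsDomain B] [Algebra V B] [Algebra K B] [IsScalarTower V K B]
    (ℬ : ℕ → Submodule K B) [GradedAlgebra ℬ]
    (_ : GradedAlgebra fun n => (ℬ n).restrictScalars V) (S : Subalgebra V B) (I : Ideal S)
    (h : Fin 3 → S) (a b c : ℕ) (γ : Fin 3 → S) (Q : Type) (x f : Q → S)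
    (Y : DIL.In hr (fun n => (ℬ n).restrictScalars V) S I h a b c γ x f)
    [Algebra (MvPolynomial (Fin (2 + 1)) K) B] [IsScalarTower K (MvPolynomial (Fin (2 + 1)) K) B],
    Irreducible ϖ →
    (∀ i : Fin (2 + 1), algebraMap (MvPolynomial (Fin (2 + 1)) K) B (X i) = h i) →
    (∀ y : B, ∃ N : ℕ, algebraMap V B ϖ ^ N * y ∈ S) → (JJ Y ℬ).Nonempty →
    (∀ J ∈ JJ Y ℬ, ∀ J' ∈ JJ Y ℬ, J * J' ∈ JJ Y ℬ) →
    ∀ s : ℕ, Module.Free V (GML.Om (DIL.dmod Y) s) → Module.Finite V (GML.Om (DIL.dmod Y) s) →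
    (∀ J ∈ JJ Y ℬ, Module.Finite K (GMD.HHm (n := 2) ℬ J s)) →
    (∀ φ ∈ GML.Om (DIL.dmod Y) s, ∃ J ∈ JJ Y ℬ, ∀ d : DIL.Dd Y, DIL.emb Y d ∈ J → φ d = 0) →
    (∀ J ∈ JJ Y ℬ, Module.finrank K (GMD.HHm (n := 2) ℬ J s) ≤
      Module.finrank V (GML.Om (DIL.dmod Y) s)) ∧
    ∃ J ∈ JJ Y ℬ, Module.finrank V (GML.Om (DIL.dmod Y) s) ≤
      Module.finrank K (GMD.HHm (n := 2) ℬ J s)

end Pool.Agent.BRG
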