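import Pool.Agent.XB.LNF
import Pool.Agent.BRG.GRStmts

/-!
# LNP: linear forms which are parameters on the surface and on `X`
-/

set_option autoImplicit false

noncomputable section

namespace Pool.Agent.BRG.LNP_

open scoped Classical
open MvPolynomial Pool.Agent.FRM Pool.Agent.XV Pool.Agent.GML Pool.Agent.XB Pool.Agent.XB.LNF_

theorem range_snoc {F : Type} [Field F] {s : ℕ} (c : Fin s → (Fin (N + 1) → F))
    (c' : Fin (N + 1) → F) :
    (Set.range fun i : Fin (s + 1) =>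
      (∑ l, C ((Fin.snoc c c' : Fin (s + 1) → (Fin (N + 1) → F)) i l) * X l :
        MvPolynomial (Fin (N + 1)) F)) =
      (Set.range fun i => (∑ l, C (c i l) * X l : MvPolynomial (Fin (N + 1)) F)) ∪
        {∑ l, C (c' l) * X l} := by
  ext G
  constructor
  · rintro ⟨i, rfl⟩
    refine Fin.lastCases ?_ (fun i => ?_) i
    · right
      simp
    · left
      exact ⟨i, by simp⟩
  · rintro (⟨i, rfl⟩ | h)
    · exact ⟨i.castSucc, by simp⟩
    · rw [Set.mem_singleton_iff] at h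
      exact ⟨Fin.last s, by simp [h]⟩

theorem range_zero {F : Type} [Field F] (c : Fin 0 → (Fin (N + 1) → F)) :
    (Set.range fun i : Fin 0 =>
      (∑ l, C (c i l) * X l : MvPolynomial (Fin (N + 1)) F)) = ∅ :=
  Set.range_eq_empty _

/-- Linear forms which are general for two ideals at once. -/
theorem key {F : Type} [Field F] [Infinite F] (hLZA : FRM.Stmt_Lza)
    (J J' : Ideal (MvPolynomial (Fin (N + 1)) F)) (hJ : Homog J) (hJ' : Homog J') (d : ℕ)
    (h1 : ringKrullDim (MvPolynomial (Fin (N + 1)) F ⧸ J) ≤ (d : ℕ))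
    (h2 : ringKrullDim (MvPolynomial (Fin (N + 1)) F ⧸ J') ≤ (d + 1 : ℕ)) :
    ∀ s : ℕ, s ≤ d → ∃ c : Fin s → (Fin (N + 1) → F),
      ringKrullDim (MvPolynomial (Fin (N + 1)) F ⧸
        (J ⊔ Ideal.span (Set.range fun i => (∑ l, C (c i l) * X l :
          MvPolynomial (Fin (N + 1)) F)))) ≤ ((d - s : ℕ) : WithBot ℕ∞) ∧
      ringKrullDim (MvPolynomial (Fin (N + 1)) F ⧸
        (J' ⊔ Ideal.span (Set.range fun i => (∑ l, C (c i l) * X l :
          MvPolynomial (Fin (N + 1)) F)))) ≤ ((d - s + 1 : ℕ) : WithBot ℕ∞) := by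
  intro s
  induction s with
  | zero =>
    intro _
    refine ⟨fun i => i.elim0, ?_⟩
    rw [range_zero, Ideal.span_empty, sup_bot_eq, sup_bot_eq]
    exact ⟨h1, h2⟩
  | succ s ih =>
    intro hs
    obtain ⟨c, hc1, hc2⟩ := ih (by omega)
    have hds : d - s = (d - (s + 1)) + 1 := by omega
    rw [hds] at hc1 hc2
    obtain ⟨T, hT, hT1, hT2⟩ := hLZA F N (d - (s + 1)) _
      (homog_sup_span J hJ _ (by rintro _ ⟨i, rfl⟩; exact lin_hom (c i))) hc1
    obtain ⟨T', hT', hT1', hT2'⟩ := hLZA F N (d - (s + 1) + 1) _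
      (homog_sup_span J' hJ' _ (by rintro _ ⟨i, rfl⟩; exact lin_hom (c i))) hc2
    obtain ⟨c', hc'⟩ := exists_avoid (T ∪ T') (hT.union hT') (by
      rintro S (h | h)
      · exact hT1 S h
      · exact hT1' S h)
    refine ⟨Fin.snoc c c', ?_⟩
    rw [range_snoc, Ideal.span_union, ← sup_assoc, ← sup_assoc]
    exact ⟨hT2 c' fun S hS => hc' S (Or.inl hS), hT2' c' fun S hS => hc' S (Or.inr hS)⟩

theorem params {F : Type} [Field F] [IsAlgClosed F] (hDIM : XV.Stmt_Dim)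
    (hPRI : XV.Stmt_Pri) (hLZA : FRM.Stmt_Lza) (hLZE : FRM.Stmt_Lze) (g : Option (Fin 10)) :
    ∃ (h : Fin 3 → MvPolynomial (Fin (N + 1)) F) (θ : MvPolynomial (Fin (N + 1)) F),
      (∀ i, (h i).IsHomogeneous 1) ∧ θ.IsHomogeneous 1 ∧
      (∀ j, ∃ n : ℕ, (X j : MvPolynomial (Fin (N + 1)) F) ^ n ∈
        Ideal.span (Set.range h) ⊔ JI F g) ∧
      ∀ j, ∃ n : ℕ, (X j : MvPolynomial (Fin (N + 1)) F) ^ n ∈
        Ideal.span (Set.range h) ⊔ Ideal.span {θ} ⊔ I F := by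
  have : Infinite F := IsAlgClosed.instInfinite
  have hJ := homog_JI hPRI F g
  have hI : Homog (I F) := fun f hf m => (hPRI F).2 f hf m
  have hdI : ringKrullDim (MvPolynomial (Fin (N + 1)) F ⧸ I F) ≤ (3 + 1 : ℕ) := by
    rw [hDIM F]
    norm_num
  obtain ⟨c, hc1, hc2⟩ := key hLZA (JI F g) (I F) hJ hI 3 (dim_JI hDIM hPRI F g) hdI 3 le_rfl
  rw [Nat.sub_self] at hc1 hc2
  obtain ⟨T, hT, hT1, hT2⟩ := hLZA F N 0 _
    (homog_sup_span (I F) hI _ (by rintro _ ⟨i, rfl⟩; exact lin_hom (c i))) hc2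
  obtain ⟨c', hc'⟩ := exists_avoid T hT hT1
  have h3 := hT2 c' hc'
  refine ⟨fun i => ∑ l, C (c i l) * X l, ∑ l, C (c' l) * X l, fun i => lin_hom (c i), lin_hom c',
    ?_, ?_⟩
  · have h := hLZE F N _ (homog_sup_span (JI F g) hJ _
      (by rintro _ ⟨i, rfl⟩; exact lin_hom (c i))) hc1
    intro j
    obtain ⟨n, hn⟩ := h j
    rw [sup_comm] at hn
    exact ⟨n, hn⟩
  · rw [sup_assoc, ← Ideal.span_union] at h3
    have h := hLZE F N _ (homog_sup_span (I F) hI _ (by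
      rintro _ (⟨i, rfl⟩ | h)
      · exact lin_hom (c i)
      · rw [Set.mem_singleton_iff] at h
        rw [h]
        exact lin_hom c')) h3
    intro j
    obtain ⟨n, hn⟩ := h j
    rw [sup_comm, Ideal.span_union] at hn
    exact ⟨n, hn⟩

end Pool.Agent.BRG.LNP_

namespace Pool.Agent.BRG

theorem LNP_proof (hDIM : XV.Stmt_Dim) (hPRI : XV.Stmt_Pri) (hLZA : FRM.Stmt_Lza)
    (hLZE : FRM.Stmt_Lze) : Stmt_Lnp :=
  fun _ _ _ g => LNP_.params hDIM hPRI hLZA hLZE g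

end Pool.Agent.BRG
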