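import Pool.Agent.BRG.Qex
import Pool.Agent.BRG.GRStmts
import Pool.Agent.XB.All
import Pool.Agent.XS.All
import Pool.Agent.RST.All
import Pool.Agent.FIN.Exq
import Pool.Agent.FIN.JNQ

/-!
# The counts in the tubes, for all exact primes
-/

set_option autoImplicit false

noncomputable section

namespace Pool.Agent.BRG

open scoped Classical
open MvPolynomial Pool.Agent.FRM Pool.Agent.XV Pool.Agent.GML Pool.Agent.XB

section lin

variable {K : Type} [Field K] {V : ValuationSubring K} {B : Type} [CommRing B] [Algebra K B]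
  {φ : MvPolynomial (Fin (XV.N + 1)) K →ₐ[K] B} {ϖ : V} {g : Option (Fin 10)}

theorem lin_mem {w : Fin (XV.N + 1) → V} (hw : ∀ c, w c ≠ 0 → 0 < ordG g (XV.pt c)) :
    ∃ u ∈ Igb V φ ϖ g, (u : B) = aeval (fun i => φ (MvPolynomial.X i))
      (∑ c, C (w c) * MvPolynomial.X c) := by
  have h1 : ∀ c, ∃ u ∈ Igb V φ ϖ g, (u : B) =
      aeval (fun i => φ (MvPolynomial.X i)) (C (w c) * MvPolynomial.X c) := by
    intro c
    by_cases hc : w c = 0
    · refine ⟨0, Ideal.zero_mem _, ?_⟩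
      rw [hc, C_0, zero_mul, map_zero]
      rfl
    · obtain ⟨u, hu, hu'⟩ := X_mem_Igb (V := V) (φ := φ) (ϖ := ϖ) (hw c hc)
      refine ⟨algebraMap V (Sb V φ) (w c) * u, Ideal.mul_mem_left _ _ hu, ?_⟩
      rw [map_mul, aeval_C, aeval_X, ← hu']
      rfl
  choose u hu hu' using h1
  refine ⟨∑ c, u c, Ideal.sum_mem _ fun c _ => hu c, ?_⟩
  rw [map_sum, ← Finset.sum_congr rfl fun c _ => hu' c, ← (Sb V φ).coe_val, map_sum]

theorem lin_hom {R : Type} [CommRing R] {n : ℕ} (w : Fin n → R) :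
    (∑ c, C (w c) * MvPolynomial.X c : MvPolynomial (Fin n) R).IsHomogeneous 1 := by
  refine IsHomogeneous.sum _ _ _ fun c _ => ?_
  have h3 := (isHomogeneous_C (Fin n) (w c)).mul (isHomogeneous_X R c)
  rwa [zero_add] at h3

end lin

section fin

variable {p : ℕ} {J : Type} {E : Eqs p XV.N J} {K : Type} [Field K] {V : ValuationSubring K}
  {B : Type} [CommRing B] [Algebra K B] {φ : MvPolynomial (Fin (XV.N + 1)) K →ₐ[K] B}
  {F : Type} [Field F] {c : F →+* V} {σ : V →+* F}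
  {t ϖ : V} {P : Ideal (MvPolynomial (Fin (XV.N + 1)) K)}
  {z : Fin 4 → MvPolynomial (Fin (XV.N + 1)) V} {ℬ : ℕ → Submodule K B}

theorem B_fin (hB : SuB E V c σ t ϖ P z φ ℬ) : ∃ T : Finset B, ∀ b : B,
    ∃ f : B → MvPolynomial (Fin (XV.N + 1)) K, b = ∑ t ∈ T, φ (f t) * t := by
  obtain ⟨m, b, hgen⟩ := NRM.fin_z hB
  refine ⟨Finset.univ.image b, fun s => ?_⟩
  obtain ⟨q, hq⟩ := hgen s
  refine ⟨fun t => ∑ i with b i = t, aeval (fun j => MvPolynomial.map V.subtype (z j)) (q i), ?_⟩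
  have h1 : ∀ t ∈ Finset.univ.image b,
      φ (∑ i with b i = t, aeval (fun j => MvPolynomial.map V.subtype (z j)) (q i)) * t =
        ∑ i with b i = t, φ (aeval (fun j => MvPolynomial.map V.subtype (z j)) (q i)) * b i := by
    intro t _
    rw [map_sum, Finset.sum_mul]
    refine Finset.sum_congr rfl fun i hi => ?_
    rw [(Finset.mem_filter.1 hi).2]
  rw [Finset.sum_congr rfl h1, hq]
  exact (Finset.sum_fiberwise_of_maps_to (fun i _ => Finset.mem_image_of_mem b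
    (Finset.mem_univ i)) _).symm

end fin

/-- **BRG** -/
theorem tub (hLnp : Stmt_Lnp) (hGrw : Stmt_GRW) : FIN.Stmt_Tub := by
  intro p _ J _ E hE M T s
  obtain ⟨σ, ϖ, hSu⟩ := XB.sux p J E hE M
  obtain ⟨B, _, _, φ, ℬ, gK, hB, hIC, -⟩ := NRM.nrm_proof E M.V M.c σ M.t ϖ M.P M.z hSu
  have hdom : IsDomain B := hB.dom
  obtain ⟨gV⟩ := XB.grv M.K M.V B ℬ
  have hclosed : IsAlgClosed M.F := hSu.closed
  have hdvr : IsDiscreteValuationRing M.V := M.dvr
  obtain ⟨h, θ, hh1, hθ1, hh2, hθ2⟩ := hLnp M.F (some s)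
  obtain ⟨M', G, S, hChD, hS⟩ := XB.glu M.F (some s) h hh1
  have hr : DIL.Res σ ϖ := ⟨fun x => ⟨M.c x, hSu.sec x⟩, hSu.ker⟩
  let h' : Fin 3 → Sb M.V φ := fun i => ⟨lfb M.V φ M.c (h i), RingHom.isIntegralElem_map _⟩
  obtain ⟨cc, γ, x, f, hxf, Y⟩ := XB.inx p J E M.K M.V M.F M.c σ M.t ϖ M.P M.z B φ ℬ hB hr gV
    (some s) h M' G S hChD hh1 hh2 h' (fun i => rfl)
  obtain ⟨n, b, r, dd, k, hn, hbas, hdd, hrk⟩ := XS.bsh p J E M.K M.V M.F M.c σ M.t ϖ M.P M.z B φ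
    ℬ hB
  obtain ⟨v, Cv, hv⟩ := XB.hix M.F
  obtain ⟨d, hd, hdg, -⟩ := XS.xhg M.F (some s)
  obtain ⟨D, hDI, hDA, hDW, hDe, hDs₁, hDs₂⟩ := XS.xdd M.F s v d ⟨Cv, hv⟩ hdg
  obtain ⟨q, hq, hqh, hqc⟩ := FIN.exists_q φ hB.deg hB.intB hB.ker T.le T.prime T.hom
  let H : Fin 3 → MvPolynomial (Fin (XV.N + 1)) M.V := fun i => MvPolynomial.map M.c (h i)
  have hH : ∀ i, (h' i : B) = aeval (fun i => φ (MvPolynomial.X i)) (H i) := by
    intro i
    rw [← vB_eq]
    rfl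
  have hb : ∀ n (b : B), b ∈ (ℬ n).restrictScalars M.V ↔ b ∈ ℬ n := fun n b => Iff.rfl
  obtain ⟨hWf, hWg⟩ := hGrw p J E M.K M.V M.F M.c σ M.t ϖ M.P M.z B φ ℬ M.complete hB hr gV s h M'
    G S hChD hh1 hS hh2 θ hθ1 hθ2 h' (fun i => rfl) cc γ x f hxf Y n b r hn hbas v d ⟨Cv, hv⟩ hdg
    (FractionRing B) (JJ_ne Y ℬ) (JJ_mul Y ℬ)
  have hcpl : IsAdicComplete (IsLocalRing.maximalIdeal M.V) M.V := M.complete
  -- the context
  let Z : ∀ δ : ℕ, FIN.Grow ℬ q δ → RST.Ctx := fun δ hδ =>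
    { V := M.V
      κ := M.F
      K := M.K
      σ := σ
      ϖ := ϖ
      irr := hSu.irr
      surjσ := hr.surj
      kerσ := hSu.ker
      B := B
      L := FractionRing B
      ℬ := ℬ
      n := XV.N + 1
      x := fun i => φ (MvPolynomial.X i)
      S := Sb M.V φ
      D := D
      r := n
      x_mem := x_mem
      x_deg := hB.deg
      S_hom := fun y hy m => XB.hmb M.K M.V B φ ℬ hB.deg y hy m
      S_lat := S_lat hB
      S_fin := S_fin hB
      S_one := S_one XB.gss hB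
      red0 := fun G hG => red0 XB.lfk hB G (by rw [← hDI]; exact hG)
      red1 := fun G hG s hs h => red1 XB.nzd hB G (by rw [← hDI]; exact hG) s hs h
      rank := by
        rw [hDI]
        exact rank_of hB hbas hdd hrk
      JJ := JJ Y ℬ
      JJ_ne := JJ_ne Y ℬ
      JJ_mul := JJ_mul Y ℬ
      JJ_hom := JJ_hom Y ℬ
      JJ_pow := by
        intro J hJ w hw
        have hw' : ∀ c, w c ≠ 0 → 0 < ordG (some s) (XV.pt c) := by
          intro c hc
          by_contra h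
          exact hc (hw c (by rw [hDA]; exact h))
        obtain ⟨u, hu, hul⟩ := lin_mem (V := M.V) (φ := φ) (ϖ := ϖ) hw'
        obtain ⟨m, G, h1, h2, h3, h4⟩ := pow_of Y ℬ hb hB.deg hH hJ (lin_hom w) hu hul
        refine ⟨m, G, h1, h2, ?_, h4⟩
        rw [h3, map_sum]
        simp only [map_mul, map_C, map_X]
      q := q
      q_prime := hq
      q_hom := hqh
      q_exact := by
        intro c hc
        rw [hDW] at hc
        exact q_exact hdvr hSu.irr hSu.ker T.hom hqc T.ϖ_ne T.ϖ_nonunit (T.exact c hc)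
      δ := δ
      q_grow := hδ
      W_fin := hWf
      W_grow := by
        rw [hDe]
        exact hWg }
  refine ⟨{
    B := B
    L := FractionRing B
    ℬ := ℬ
    φ := φ
    φ_deg := hB.deg
    fin := B_fin hB
    q := q
    q_prime := hq
    q_hom := hqh
    q_comap := hqc
    JJ := JJ Y ℬ
    JJ_ne := JJ_ne Y ℬ
    JJ_mul := JJ_mul Y ℬ
    JJ_hom := JJ_hom Y ℬ
    JJ_tube := fun J hJ i hi => tube_of Y ℬ hH hJ hSu.irr.ne_zero hSu.irr.not_isUnit hi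
    JJ_q := ?_
    W_fin := hWf
    cnt := ?_ }⟩
  · intro δ hδ hgr J hJ
    obtain ⟨k, G, h1, h2, h3⟩ := FIN.jnq RST.a_cut RST.a_cst RST.a_qmx RST.a_qqq RST.a_gen
      RST.a_etx RST.a_zrk RST.a_zpc (Z δ hgr) hδ J hJ
    refine ⟨k, MvPolynomial.map M.V.subtype G, h1.map _, ?_, ?_⟩
    · rw [← hqc]
      have h4 : φ (MvPolynomial.map M.V.subtype G) = aeval (fun i => φ (MvPolynomial.X i)) G :=
        vB_eq G
      rw [h4]
      exact h3
    · have h4 : φ (MvPolynomial.map M.V.subtype G) = aeval (fun i => φ (MvPolynomial.X i)) G :=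
        vB_eq G
      rw [h4]
      exact h2
  · intro δ hδ hgr ε hε
    obtain ⟨m₀, hm₀⟩ := RST.a_rst (Z δ hgr) ε hε
    refine ⟨m₀, fun m hm => ?_⟩
    have h1 := hm₀ m hm
    have h2 : ((3 / 5 : ℝ) * δ - ε) * (m : ℝ) ^ 2 = ((((Z δ hgr).D.s₁ : ℕ) / ((Z δ hgr).D.s₂ : ℕ) : ℝ) *
        ((Z δ hgr).δ : ℕ) / 2 - ε) * (m : ℝ) ^ 2 := by
      have e1 : (Z δ hgr).D.s₁ = 24 := hDs₁
      have e2 : (Z δ hgr).D.s₂ = 20 := hDs₂
      have e3 : (Z δ hgr).δ = δ := rfl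
      rw [e1, e2, e3]
      push_cast
      ring
    rw [h2]
    exact h1

end Pool.Agent.BRG
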