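import Pool.Agent.XB.HIB
import Pool.Agent.XB.FID
import Pool.Agent.XB.GSS
import Pool.Agent.BRG.GRStmts
import Pool.Agent.FRM.FINA

/-!
# PAR: the parameters of the integral model

`B` is finite over `K[W_0, …, W_3]` for all linear forms `W` which are parameters of `X`.
-/

set_option autoImplicit false

noncomputable section

namespace Pool.Agent.BRG.PAR_

open scoped Classical
open MvPolynomial Pool.Agent.FRM Pool.Agent.XV Pool.Agent.GML Pool.Agent.XB Pool.Agent.XB.HIB_

section comb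

variable {K : Type} [Field K] (V : ValuationSubring K) {B : Type} [CommRing B] [Algebra K B]
  (φ : MvPolynomial (Fin (N + 1)) K →ₐ[K] B) (z : Fin 4 → MvPolynomial (Fin (N + 1)) V)
  {ι : Type} [Fintype ι] (e : ι → B)

/-- The combinations over `V[z]`. -/
def Nn : Submodule V B where
  carrier := {y | ∃ q : ι → MvPolynomial (Fin 4) V, y = ∑ i, vB V φ (aeval z (q i)) * e i}
  zero_mem' := ⟨0, by simp⟩
  add_mem' := by
    rintro _ _ ⟨q, rfl⟩ ⟨q', rfl⟩
    refine ⟨q + q', ?_⟩
    rw [← Finset.sum_add_distrib]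
    refine Finset.sum_congr rfl fun i _ => ?_
    rw [Pi.add_apply, map_add, map_add, add_mul]
  smul_mem' := by
    rintro v _ ⟨q, rfl⟩
    refine ⟨fun i => C v * q i, ?_⟩
    rw [Algebra.smul_def, Finset.mul_sum]
    refine Finset.sum_congr rfl fun i _ => ?_
    have h1 : aeval z (C v) = (C v : MvPolynomial (Fin (N + 1)) V) := by
      rw [aeval_C]
      rfl
    rw [map_mul, map_mul, h1, vB_C, mul_assoc]

theorem mem_Nn (q : MvPolynomial (Fin 4) V) (i : ι) : vB V φ (aeval z q) * e i ∈ Nn V φ z e := by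
  refine ⟨fun j => if j = i then q else 0, ?_⟩
  rw [Finset.sum_eq_single i]
  · beta_reduce
    rw [if_pos rfl]
  · intro j _ hj
    beta_reduce
    rw [if_neg hj, map_zero, map_zero, zero_mul]
  · intro h
    exact absurd (Finset.mem_univ i) h

variable (ℬ : ℕ → Submodule K B) [GradedAlgebra ℬ]

theorem proj_vB (hdeg : ∀ i, φ (X i) ∈ ℬ 1) (hz : ∀ i, (z i).IsHomogeneous 1)
    (q : MvPolynomial (Fin 4) V) (k : ℕ) :
    GradedAlgebra.proj ℬ k (vB V φ (aeval z q)) = vB V φ (aeval z (homogeneousComponent k q)) := by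
  have h1 : ∀ n, vB V φ (aeval z (homogeneousComponent n q)) ∈ ℬ n := by
    intro n
    have h4 : (aeval z (homogeneousComponent n q)).IsHomogeneous (1 * n) :=
      (homogeneousComponent_isHomogeneous n q).aeval z hz
    rw [one_mul] at h4
    exact phi_hom φ ℬ hdeg _ _ (h4.map V.subtype)
  conv_lhs => rw [← sum_homogeneousComponent q]
  rw [map_sum, map_sum, map_sum]
  by_cases hk : k ∈ Finset.range (q.totalDegree + 1)
  · rw [Finset.sum_eq_single_of_mem k hk]
    · exact proj_same ℬ (h1 k)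
    · intro n _ hn
      exact proj_ne ℬ (h1 n) hn
  · rw [Finset.sum_eq_zero]
    · rw [homogeneousComponent_eq_zero, map_zero, map_zero]
      rw [Finset.mem_range, not_lt] at hk
      omega
    · intro n hn
      refine proj_ne ℬ (h1 n) ?_
      rintro rfl
      exact hk hn

theorem proj_Nn (hdeg : ∀ i, φ (X i) ∈ ℬ 1) (hz : ∀ i, (z i).IsHomogeneous 1)
    (he : ∀ i, ∃ d, e i ∈ ℬ d) {y : B} (hy : y ∈ Nn V φ z e) (n : ℕ) :
    GradedAlgebra.proj ℬ n y ∈ Nn V φ z e := by
  obtain ⟨q, rfl⟩ := hy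
  rw [map_sum]
  refine Submodule.sum_mem _ fun i _ => ?_
  obtain ⟨d, hd⟩ := he i
  rw [mul_comm, proj_mul ℬ hd]
  split_ifs with h
  · rw [proj_vB V φ z ℬ hdeg hz, mul_comm]
    exact mem_Nn V φ z e _ i
  · exact Submodule.zero_mem _

end comb

/-- **The integral model is finite over `V[W]`.** -/
theorem fin_V (hFID : Stmt_Fid) (hFNH : Stmt_Fnh) (hLFK : Stmt_Lfk) (hHMB : Stmt_Hmb)
    (hPRI : XV.Stmt_Pri) (p : ℕ) (J : Type) (E : Eqs p N J) (K : Type) [Field K]
    (V : ValuationSubring K) (F : Type) [Field F] (c : F →+* V) (σ : V →+* F) (t ϖ : V)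
    (P : Ideal (MvPolynomial (Fin (N + 1)) K)) (z : Fin 4 → MvPolynomial (Fin (N + 1)) V)
    (B : Type) [CommRing B] [Algebra K B] (φ : MvPolynomial (Fin (N + 1)) K →ₐ[K] B)
    (ℬ : ℕ → Submodule K B) [GradedAlgebra ℬ] (hS : SuB E V c σ t ϖ P z φ ℬ)
    (W : Fin 4 → MvPolynomial (Fin (N + 1)) F) (hW : ∀ i, (W i).IsHomogeneous 1)
    (hX : ∀ j, ∃ n : ℕ, (X j : MvPolynomial (Fin (N + 1)) F) ^ n ∈
      Ideal.span (Set.range W) ⊔ I F) :
    ∃ (m : ℕ) (e : Fin m → B), (∀ i, e i ∈ Sb V φ) ∧ ∀ y ∈ Sb V φ,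
      ∃ q : Fin m → MvPolynomial (Fin 4) V,
        y = ∑ i, vB V φ (aeval (fun j => MvPolynomial.map c (W j)) (q i)) * e i := by
  have := hS.dom
  set zW : Fin 4 → MvPolynomial (Fin (N + 1)) V := fun j => MvPolynomial.map c (W j) with hzW
  have hzh : ∀ i, (zW i).IsHomogeneous 1 := fun i => (hW i).map c
  have hH : ∀ b ∈ Sb V φ, ∀ n, GradedAlgebra.proj ℬ n b ∈ Sb V φ :=
    hHMB K V B φ ℬ hS.deg
  obtain ⟨_, ⟨m, b, hb, hgen⟩, -⟩ := hFID p J E K V F c σ t ϖ P z B φ ℬ hS
  obtain ⟨T, hT⟩ := hFNH F (N + 1) 4 (I F) (hPRI F).2 W hW hX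
  have hlf := hLFK p J E K V F c σ t ϖ P z B φ ℬ hS
  have hlfm : ∀ G : MvPolynomial (Fin (N + 1)) F, lfb V φ c G ∈ Sb V φ :=
    fun G => HIB_.vB_mem V φ _
  -- bounds of the degrees
  have hbd : ∀ y : B, ∃ L : ℕ, ∀ l, L ≤ l → GradedAlgebra.proj ℬ l y = 0 := by
    intro y
    refine ⟨(DirectSum.decompose ℬ y).support.sup id + 1, fun l hl => ?_⟩
    rw [GradedAlgebra.proj_apply]
    by_contra h
    have h1 : l ∈ (DirectSum.decompose ℬ y).support := by
      rw [DFinsupp.mem_support_iff]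
      intro h2
      exact h (by rw [h2]; rfl)
    have h2 : id l ≤ (DirectSum.decompose ℬ y).support.sup id := Finset.le_sup h1
    simp only [id] at h2
    omega
  obtain ⟨L, hL⟩ : ∃ L : ℕ, ∀ (i : Fin m) (t : T), ∀ l, L ≤ l →
      GradedAlgebra.proj ℬ l (lfb V φ c t.1 * b i) = 0 := by
    choose f hf using fun x : Fin m × T => hbd (lfb V φ c x.2.1 * b x.1)
    refine ⟨Finset.univ.sup f, fun i t l hl => hf (i, t) l (le_trans ?_ hl)⟩
    exact Finset.le_sup (Finset.mem_univ _)
  -- the generators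
  let e : (Fin m × T) × Fin L → B := fun x =>
    GradedAlgebra.proj ℬ x.2 (lfb V φ c x.1.2.1 * b x.1.1)
  have heS : ∀ x, e x ∈ Sb V φ := fun x =>
    hH _ ((Sb V φ).mul_mem (hlfm _) (hb _)) _
  have heh : ∀ x, ∃ d, e x ∈ ℬ d := fun x => ⟨x.2, proj_mem ℬ _ _⟩
  have hsum : ∀ (i : Fin m) (t : T), lfb V φ c t.1 * b i = ∑ l : Fin L, e ((i, t), l) := by
    intro i t
    set y := lfb V φ c t.1 * b i with hy
    have h1 : y = ∑ l ∈ (DirectSum.decompose ℬ y).support, GradedAlgebra.proj ℬ l y := by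
      conv_lhs => rw [← DirectSum.sum_support_decompose ℬ y]
      rfl
    have h2 : ∑ l : Fin L, e ((i, t), l) = ∑ l ∈ Finset.range L, GradedAlgebra.proj ℬ l y := by
      rw [Finset.sum_range]
    rw [h2]
    conv_lhs => rw [h1]
    refine Finset.sum_subset_zero_on_sdiff ?_ ?_ fun _ _ => rfl
    · intro l hl
      rw [Finset.mem_range]
      by_contra h3
      have h4 := hL i t l (not_lt.mp h3)
      rw [GradedAlgebra.proj_apply] at h4
      rw [DFinsupp.mem_support_iff] at hl
      exact hl (Subtype.ext h4)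
    · intro l hl
      rw [Finset.mem_sdiff, DFinsupp.mem_support_iff, not_not] at hl
      rw [GradedAlgebra.proj_apply, hl.2]
      rfl
  -- generation modulo `ϖ`
  have hmod : ∀ y ∈ Sb V φ, ∃ w ∈ Nn V φ zW e, Dvb V φ ϖ (y - w) := by
    intro y hy
    obtain ⟨Q, hQ⟩ := hgen y hy
    choose q hq using fun i => hT (aeval (fun j => MvPolynomial.map σ (z j)) (Q i))
    refine ⟨∑ i : Fin m, ∑ t : T, lfb V φ c (aeval W (q i t.1)) * (lfb V φ c t.1 * b i), ?_, ?_⟩
    · refine Submodule.sum_mem _ fun i _ => Submodule.sum_mem _ fun t _ => ?_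
      rw [hsum i t, Finset.mul_sum]
      refine Submodule.sum_mem _ fun l _ => ?_
      have h1 : lfb V φ c (aeval W (q i t.1)) = vB V φ (aeval zW (MvPolynomial.map c (q i t.1))) := by
        have h2 : ∀ r : MvPolynomial (Fin 4) F, MvPolynomial.map c (aeval W r) =
            aeval zW (MvPolynomial.map c r) := by
          intro r
          induction r using MvPolynomial.induction_on with
          | C a => simp
          | add r s hr hs => rw [map_add, map_add, hr, hs, map_add, map_add]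
          | mul_X r i hr => rw [map_mul, map_mul, hr, aeval_X, map_mul, map_mul, map_X, aeval_X]
        show vB V φ (MvPolynomial.map c (aeval W (q i t.1))) = _
        rw [h2]
      rw [h1]
      exact mem_Nn V φ zW e _ _
    · have h1 : ∀ i : Fin m, Dvb V φ ϖ (lfb V φ c (aeval (fun j => MvPolynomial.map σ (z j)) (Q i)) *
          b i - ∑ t : T, lfb V φ c (aeval W (q i t.1)) * (lfb V φ c t.1 * b i)) := by
        intro i
        have h2 : Dvb V φ ϖ (lfb V φ c (aeval (fun j => MvPolynomial.map σ (z j)) (Q i) -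
            ∑ t ∈ T, aeval W (q i t) * t)) := (hlf _).2 (hq i)
        have h3 := FID_.dvb_mul V φ h2 (hb i)
        refine (congrArg (Dvb V φ ϖ) ?_).mp h3
        rw [map_sub, map_sum, sub_mul, Finset.sum_mul, ← Finset.sum_coe_sort T]
        congr 1
        refine Finset.sum_congr rfl fun t _ => ?_
        rw [map_mul, mul_assoc]
      have h2 := FID_.dvb_add V φ hQ (FID_.dvb_sum V φ Finset.univ _ fun i _ => h1 i)
      refine (congrArg (Dvb V φ ϖ) ?_).mp h2
      rw [Finset.sum_sub_distrib]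
      ring
  -- Nakayama
  have hVdvr := hS.base.dvr
  have hle : ∀ n, Lm V φ ℬ n ≤ Nn V φ zW e := by
    intro n
    have hfg : (Lm V φ ℬ n).FG := by
      refine Lm_fg V φ ℬ hVdvr hS.deg z ?_ hS.finS n
      exact hS.base.close.z_hom
    refine Submodule.le_of_le_smul_of_le_jacobson_bot (I := Ideal.span {ϖ}) hfg ?_ ?_
    · rw [IsLocalRing.jacobson_eq_maximalIdeal (⊥ : Ideal V) bot_ne_top]
      rw [Ideal.span_singleton_le_iff_mem, IsLocalRing.mem_maximalIdeal]
      exact hS.base.irr.not_isUnit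
    · rintro y ⟨hy1, hy2⟩
      obtain ⟨w, hw, y', hy', hyw⟩ := hmod y hy1
      have h1 : y = GradedAlgebra.proj ℬ n w + algebraMap V B ϖ * GradedAlgebra.proj ℬ n y' := by
        rw [← proj_V V ℬ, ← hyw, ← map_add]
        rw [add_sub_cancel]
        exact (proj_same ℬ hy2).symm
      rw [h1]
      refine Submodule.add_mem_sup (proj_Nn V φ zW e ℬ hS.deg hzh heh hw n) ?_
      rw [← Algebra.smul_def]
      refine Submodule.smul_mem_smul (Ideal.mem_span_singleton_self ϖ) ?_
      exact ⟨hH y' hy' n, proj_mem ℬ n y'⟩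
  have hall : ∀ y ∈ Sb V φ, y ∈ Nn V φ zW e := by
    intro y hy
    rw [← DirectSum.sum_support_decompose ℬ y]
    refine Submodule.sum_mem _ fun n _ => hle n ?_
    refine ⟨?_, SetLike.coe_mem _⟩
    have := hH y hy n
    rwa [GradedAlgebra.proj_apply] at this
  obtain ⟨ψ⟩ : Nonempty ((Fin m × T) × Fin L ≃ Fin (Fintype.card ((Fin m × T) × Fin L))) :=
    ⟨Fintype.equivFin _⟩
  refine ⟨_, fun i => e (ψ.symm i), fun i => heS _, fun y hy => ?_⟩
  obtain ⟨q, hq⟩ := hall y hy
  refine ⟨fun i => q (ψ.symm i), ?_⟩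
  rw [hq]
  exact (Equiv.sum_comp ψ.symm fun x => vB V φ (aeval zW (q x)) * e x).symm

/-- **`B` is finite over `K[W]`.** -/
theorem fin_K (hFID : Stmt_Fid) (hFNH : Stmt_Fnh) (hLFK : Stmt_Lfk) (hHMB : Stmt_Hmb)
    (hPRI : XV.Stmt_Pri) (p : ℕ) (J : Type) (E : Eqs p N J) (K : Type) [Field K]
    (V : ValuationSubring K) (F : Type) [Field F] (c : F →+* V) (σ : V →+* F) (t ϖ : V)
    (P : Ideal (MvPolynomial (Fin (N + 1)) K)) (z : Fin 4 → MvPolynomial (Fin (N + 1)) V)
    (B : Type) [CommRing B] [Algebra K B] (φ : MvPolynomial (Fin (N + 1)) K →ₐ[K] B)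
    (ℬ : ℕ → Submodule K B) [GradedAlgebra ℬ] (hS : SuB E V c σ t ϖ P z φ ℬ)
    (W : Fin 4 → MvPolynomial (Fin (N + 1)) F) (hW : ∀ i, (W i).IsHomogeneous 1)
    (hX : ∀ j, ∃ n : ℕ, (X j : MvPolynomial (Fin (N + 1)) F) ^ n ∈
      Ideal.span (Set.range W) ⊔ I F) :
    (∃ (m : ℕ) (e : Fin m → B), (∀ i, e i ∈ Sb V φ) ∧ ∀ y : B,
      ∃ q : Fin m → MvPolynomial (Fin 4) K,
        y = ∑ i, aeval (R := K) (fun j => lfb V φ c (W j)) (q i) * e i) ∧
    ∀ q : MvPolynomial (Fin 4) K, aeval (R := K) (fun j => lfb V φ c (W j)) q = 0 → q = 0 := by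
  have := hS.dom
  obtain ⟨m, e, he, hgen⟩ := fin_V hFID hFNH hLFK hHMB hPRI p J E K V F c σ t ϖ P z B φ ℬ hS W
    hW hX
  have hvB : ∀ q : MvPolynomial (Fin 4) V,
      vB V φ (aeval (fun j => MvPolynomial.map c (W j)) q) =
        aeval (R := K) (fun j => lfb V φ c (W j)) (MvPolynomial.map V.subtype q) := by
    intro q
    induction q using MvPolynomial.induction_on with
    | C a =>
      have h1 : aeval (fun j => MvPolynomial.map c (W j)) (C a) =
          (C a : MvPolynomial (Fin (N + 1)) V) := by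
        rw [aeval_C]
        rfl
      rw [h1, vB_C, map_C, aeval_C]
      rfl
    | add r s hr hs => rw [map_add, map_add, hr, hs, map_add, map_add]
    | mul_X r i hr =>
      rw [map_mul, map_mul, hr, aeval_X, map_mul, map_mul, map_X, aeval_X]
      rfl
  have hfin : ∀ y : B, ∃ q : Fin m → MvPolynomial (Fin 4) K,
      y = ∑ i, aeval (R := K) (fun j => lfb V φ c (W j)) (q i) * e i := by
    intro y
    obtain ⟨v, hv, hvy⟩ := exists_mult V φ hS.intB y
    obtain ⟨q, hq⟩ := hgen _ hvy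
    have hv0 : (v : K) ≠ 0 := fun h => hv (Subtype.ext h)
    refine ⟨fun i => C ((v : K)⁻¹) * MvPolynomial.map V.subtype (q i), ?_⟩
    have h1 : y = algebraMap K B (v : K)⁻¹ * (algebraMap V B v * y) := by
      have h2 : algebraMap V B v = algebraMap K B (v : K) := rfl
      rw [h2, ← mul_assoc, ← map_mul, inv_mul_cancel₀ hv0, map_one, one_mul]
    rw [h1, hq, Finset.mul_sum]
    refine Finset.sum_congr rfl fun i _ => ?_
    rw [hvB, map_mul, aeval_C, mul_assoc]
  refine ⟨⟨m, e, he, hfin⟩, ?_⟩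
  -- integrality
  set f : MvPolynomial (Fin 4) K →ₐ[K] B := aeval (R := K) fun j => lfb V φ c (W j) with hf
  have hint : (f : MvPolynomial (Fin 4) K →+* B).IsIntegral := by
    let _ : Algebra (MvPolynomial (Fin 4) K) B := (f : MvPolynomial (Fin 4) K →+* B).toAlgebra
    have hmf : Module.Finite (MvPolynomial (Fin 4) K) B := by
      refine Module.Finite.of_surjective
        (Fintype.linearCombination (MvPolynomial (Fin 4) K) e) ?_
      intro y
      obtain ⟨q, hq⟩ := hfin y
      refine ⟨q, ?_⟩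
      rw [Fintype.linearCombination_apply, hq]
      rfl
    exact fun y => Algebra.IsIntegral.isIntegral (R := MvPolynomial (Fin 4) K) y
  let g : MvPolynomial (Fin 4) K →+* (MvPolynomial (Fin (N + 1)) K ⧸ P) :=
    (Ideal.Quotient.mk P).comp (aeval (R := K) fun j =>
      MvPolynomial.map V.subtype (MvPolynomial.map c (W j)) :
        MvPolynomial (Fin 4) K →ₐ[K] MvPolynomial (Fin (N + 1)) K).toRingHom
  have hg : (GSS_.io P φ hS.ker).comp g = (f : MvPolynomial (Fin 4) K →+* B) := by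
    apply MvPolynomial.ringHom_ext
    · intro a
      simp only [g, RingHom.comp_apply, hf]
      rw [GSS_.io_mk]
      simp
    · intro i
      simp only [g, RingHom.comp_apply, hf]
      rw [GSS_.io_mk]
      simp only [AlgHom.toRingHom_eq_coe, RingHom.coe_coe, aeval_X]
      rfl
  have hginj : Function.Injective g := by
    apply FINA_.inj 3 g
    · intro b
      obtain ⟨r, hr, hrb⟩ := hint (GSS_.io P φ hS.ker b)
      refine ⟨r, hr, ?_⟩
      rw [← hg, ← Polynomial.hom_eval₂] at hrb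
      exact (injective_iff_map_eq_zero _).1 (GSS_.io_inj P φ hS.ker) _ hrb
    · exact hS.base.close.dim
  have hfinj : Function.Injective (f : MvPolynomial (Fin 4) K →+* B) := by
    rw [← hg, RingHom.coe_comp]
    exact (GSS_.io_inj P φ hS.ker).comp hginj
  intro q hq
  exact hfinj (by rw [map_zero]; exact hq)

end Pool.Agent.BRG.PAR_

namespace Pool.Agent.BRG

open scoped Classical
open MvPolynomial Pool.Agent.FRM Pool.Agent.XV Pool.Agent.GML Pool.Agent.XB

theorem PAR_proof (hFID : Stmt_Fid) (hFNH : Stmt_Fnh) (hLFK : Stmt_Lfk) (hHMB : Stmt_Hmb)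
    (hPRI : XV.Stmt_Pri) : Stmt_Par := by
  intro p J E K _ V F _ _ c σ t ϖ P z B _ _ φ ℬ _ hS h θ hh hθ hX
  let W : Fin 4 → MvPolynomial (Fin (XV.N + 1)) F := Fin.cons θ h
  have hW : ∀ i, (W i).IsHomogeneous 1 := by
    intro i
    refine Fin.cases ?_ (fun j => ?_) i
    · exact hθ
    · exact hh j
  have hrange : Set.range W = {θ} ∪ Set.range h := by
    ext x
    constructor
    · rintro ⟨i, rfl⟩
      refine Fin.cases ?_ (fun j => ?_) i
      · exact Or.inl rfl
      · exact Or.inr ⟨j, rfl⟩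
    · rintro (h1 | ⟨j, rfl⟩)
      · exact ⟨0, h1.symm⟩
      · exact ⟨j.succ, rfl⟩
  obtain ⟨⟨m, e, he, hfin⟩, hinj⟩ := PAR_.fin_K hFID hFNH hLFK hHMB hPRI p J E K V F c σ t ϖ P z B
    φ ℬ hS W hW (by
      intro j
      obtain ⟨n, hn⟩ := hX j
      refine ⟨n, ?_⟩
      rw [hrange, Ideal.span_union, sup_comm (Ideal.span {θ})]
      exact hn)
  set f : MvPolynomial (Fin (2 + 1)) K →ₐ[K] B := aeval fun i => lfb V φ c (h i) with hf
  have key : ∀ q : MvPolynomial (Fin 4) K,
      Polynomial.eval₂ (f : MvPolynomial (Fin (2 + 1)) K →+* B) (lfb V φ c θ)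
        (finSuccEquiv K 3 q) = aeval (R := K) (fun j => lfb V φ c (W j)) q := by
    intro q
    have h1 : (Polynomial.eval₂RingHom (f : MvPolynomial (Fin (2 + 1)) K →+* B)
        (lfb V φ c θ)).comp (finSuccEquiv K 3 : MvPolynomial (Fin 4) K →+* _) =
        (aeval (R := K) (fun j => lfb V φ c (W j)) : MvPolynomial (Fin 4) K →ₐ[K] B) := by
      apply MvPolynomial.ringHom_ext
      · intro a
        simp [finSuccEquiv_apply]
      · intro i
        refine Fin.cases ?_ (fun j => ?_) i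
        · show Polynomial.eval₂ (f : MvPolynomial (Fin (2 + 1)) K →+* B) (lfb V φ c θ)
            (finSuccEquiv K 3 (X 0)) = aeval (R := K) (fun j => lfb V φ c (W j)) (X 0)
          have h2 : finSuccEquiv K 3 (X 0) = Polynomial.X := finSuccEquiv_X_zero
          rw [h2, aeval_X, Polynomial.eval₂_X]
          rfl
        · show Polynomial.eval₂ (f : MvPolynomial (Fin (2 + 1)) K →+* B) (lfb V φ c θ)
            (finSuccEquiv K 3 (X j.succ)) = aeval (R := K) (fun j => lfb V φ c (W j)) (X j.succ)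
          have h2 : finSuccEquiv K 3 (X j.succ) = Polynomial.C (X j) := finSuccEquiv_X_succ
          rw [h2, aeval_X, Polynomial.eval₂_C]
          show f (X j) = _
          rw [hf, aeval_X]
          rfl
    exact congrArg (fun g : MvPolynomial (Fin 4) K →+* B => g q) h1
  refine ⟨?_, ?_⟩
  · intro q hq
    obtain ⟨q', rfl⟩ := (finSuccEquiv K 3).surjective q
    rw [key] at hq
    rw [hinj q' hq, map_zero]
  · refine ⟨Finset.univ.image e, fun b => ?_⟩
    obtain ⟨q, hq⟩ := hfin b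
    refine ⟨fun t => ∑ i ∈ Finset.univ.filter (fun i => e i = t), finSuccEquiv K 3 (q i), ?_⟩
    rw [hq]
    rw [← Finset.sum_fiberwise_of_maps_to (s := Finset.univ) (t := Finset.univ.image e) (g := e)
      (fun i _ => Finset.mem_image_of_mem _ (Finset.mem_univ i))]
    refine Finset.sum_congr rfl fun t _ => ?_
    rw [Polynomial.eval₂_finsetSum, Finset.sum_mul]
    refine Finset.sum_congr rfl fun i hi => ?_
    rw [key, (Finset.mem_filter.1 hi).2]

end Pool.Agent.BRG
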