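import Pool.Agent.BRG.GRStmts
import Pool.Agent.XS.Stmts
import Pool.Agent.XB.LCG

/-!
# VGP: the degree of `X` is larger than twice the degree of `P_k`
-/

set_option autoImplicit false

noncomputable section

namespace Pool.Agent.BRG

open scoped Classical
open MvPolynomial Pool.Agent.FRM Pool.Agent.XV Pool.Agent.GML Pool.Agent.XB

namespace VGP_

/-! ### orders -/

section ord

variable {B : Type} [CommRing B] [IsDomain B] (p : B)

/-- `b` has order `e` at the prime element `p` -/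
def HO (b : B) (e : ℕ) : Prop := ∃ y, b = p ^ e * y ∧ ¬p ∣ y

variable {p}

theorem HO.mul (hp : Prime p) {b b' : B} {e e' : ℕ} (h : HO p b e) (h' : HO p b' e') :
    HO p (b * b') (e + e') := by
  obtain ⟨y, rfl, hy⟩ := h
  obtain ⟨y', rfl, hy'⟩ := h'
  exact ⟨y * y', by ring, fun h => (hp.dvd_or_dvd h).elim hy hy'⟩

theorem HO.one (hp : Prime p) : HO p (1 : B) 0 :=
  ⟨1, by simp, fun h => hp.not_isUnit (isUnit_of_dvd_one h)⟩

theorem HO.pow (hp : Prime p) {b : B} {e : ℕ} (h : HO p b e) (k : ℕ) : HO p (b ^ k) (k * e) := by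
  induction k with
  | zero => simpa using HO.one hp
  | succ k ih =>
    rw [pow_succ, add_mul, one_mul]
    exact ih.mul hp h

theorem HO.zero_of {b : B} (h : ¬p ∣ b) : HO p b 0 := ⟨b, by simp, h⟩

theorem HO.dvd {b : B} {e : ℕ} (h : HO p b e) : p ^ e ∣ b := by
  obtain ⟨y, rfl, -⟩ := h
  exact Dvd.intro _ rfl

theorem HO.ndvd (hp : Prime p) {b : B} {e : ℕ} (h : HO p b e) : ¬p ^ (e + 1) ∣ b := by
  obtain ⟨y, rfl, hy⟩ := h
  intro h1
  rw [pow_succ] at h1
  exact hy ((mul_dvd_mul_iff_left (pow_ne_zero _ hp.ne_zero)).1 h1)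

/-- elements with different orders -/
theorem sum_ne (hp : Prime p) {ι : Type} (T : Finset ι) (hT : T.Nonempty) (b : ι → B) (o : ι → ℕ)
    (ho : ∀ i ∈ T, ∀ j ∈ T, o i = o j → i = j) (hb : ∀ i ∈ T, HO p (b i) (o i)) :
    ∑ i ∈ T, b i ≠ 0 := by
  intro h0
  obtain ⟨i, hi, hmin⟩ := Finset.exists_min_image T o hT
  apply (hb i hi).ndvd hp
  rw [← Finset.add_sum_erase T b hi] at h0
  have h1 : p ^ (o i + 1) ∣ ∑ j ∈ T.erase i, b j := by
    refine Finset.dvd_sum fun j hj => ?_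
    have hj' := Finset.mem_of_mem_erase hj
    have h2 : o i < o j := by
      rcases Nat.lt_or_ge (o i) (o j) with h | h
      · exact h
      · exact absurd (ho j hj' i hi (le_antisymm h (hmin j hj'))) (Finset.ne_of_mem_erase hj)
    exact (pow_dvd_pow p h2).trans (hb j hj').dvd
  have h3 : b i = -∑ j ∈ T.erase i, b j := by linear_combination h0
  rw [h3]
  exact (dvd_neg).2 h1

end ord

/-! ### the chart -/

theorem exists_pe : ∀ k : Fin 10, ∃ π : Equiv.Perm (Fin 5), pe π 0 = k := by decide +kernel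

theorem ex_zero : ∀ k : Fin 10, ∃ k' : Fin 10, cGe k' k = 0 := by decide +kernel

theorem sgn_ne (F : Type) [Field F] (π : Equiv.Perm (Fin 5)) (c : Pt) :
    ((sgn π c : ℤ) : F) ≠ 0 := by
  intro h
  have h1 : ((sgn π c * sgn π c : ℤ) : F) = 1 := by
    rw [LCG_.sgn_sq]
    simp
  rw [Int.cast_mul, h, zero_mul] at h1
  exact zero_ne_one h1

/-- the order of the coordinates -/
theorem ord_xc (F : Type) [Field F] (σ : Fin 6) (l : Fin 3) (π : Equiv.Perm (Fin 5))
    (φ : MvPolynomial (Fin (N + 1)) F →ₐ[F] Au F σ)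
    (hφ : ∀ c, ∃ w, IsUnit w ∧ φ (tws π (xc F) c) = w * ∏ l, Xa F σ l ^ elc σ l c) (c : Pt) :
    HO (Xa F σ l) (φ (xc F c)) (elc σ l (act π⁻¹ c)) := by
  have hdom : IsDomain (Au F σ) := LCG_.isDomain F σ
  obtain ⟨hp, hne⟩ := LCG_.Xa_prime F σ l
  obtain ⟨w, hw, hφw⟩ := hφ (act π⁻¹ c)
  rw [LCG_.xc_eq F π c, map_mul, map_intCast, hφw, ← Finset.mul_prod_erase Finset.univ _
    (Finset.mem_univ l)]
  refine ⟨((sgn π (act π⁻¹ c) : ℤ) : Au F σ) *
    (w * ∏ l' ∈ Finset.univ.erase l, Xa F σ l' ^ elc σ l' (act π⁻¹ c)), by ring, fun h => ?_⟩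
  have hs : IsUnit (((sgn π (act π⁻¹ c) : ℤ) : Au F σ)) := by
    have h1 : IsUnit (algebraMap F (Au F σ) ((sgn π (act π⁻¹ c) : ℤ) : F)) :=
      (isUnit_iff_ne_zero.2 (sgn_ne F π _)).map _
    rwa [map_intCast] at h1
  rcases hp.dvd_or_dvd h with h | h
  · exact hp.not_isUnit (isUnit_of_dvd_unit h hs)
  rcases hp.dvd_or_dvd h with h | h
  · exact hp.not_isUnit (isUnit_of_dvd_unit h hw)
  obtain ⟨l', hl', h'⟩ := (hp.dvd_finsetProd_iff _).1 h
  exact (Finset.ne_of_mem_erase hl') (hne l' (hp.dvd_of_dvd_pow h')).symm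

/-! ### the main inequality -/

section lin

variable {F : Type} [Field F]

theorem fin_hom (i : ℕ) : Module.Finite F (homogeneousSubmodule (Fin (N + 1)) F i) :=
  Module.Finite.iff_fg.2 (homogeneousSubmodule_fg (Fin (N + 1)) F i)

theorem fin_qgr (J : Ideal (MvPolynomial (Fin (N + 1)) F)) (i : ℕ) :
    Module.Finite F (qgr J i) :=
  Module.Finite.iff_fg.2 ((homogeneousSubmodule_fg (Fin (N + 1)) F i).map _)

/-- homogeneous representatives -/
theorem ex_sec (J : Ideal (MvPolynomial (Fin (N + 1)) F)) (i : ℕ) :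
    ∃ s : qgr J i →ₗ[F] MvPolynomial (Fin (N + 1)) F, (∀ v, (s v).IsHomogeneous i) ∧
      ∀ v, Ideal.Quotient.mk J (s v) = v := by
  let f : homogeneousSubmodule (Fin (N + 1)) F i →ₗ[F] qgr J i :=
    ((Ideal.Quotient.mkₐ F J).toLinearMap.domRestrict _).codRestrict (qgr J i)
      fun v => ⟨v, v.2, rfl⟩
  have hf : Function.Surjective f := by
    rintro ⟨v, w, hw, rfl⟩
    exact ⟨⟨w, hw⟩, rfl⟩
  obtain ⟨g, hg⟩ := f.exists_rightInverse_of_surjective (LinearMap.range_eq_top.2 hf)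
  refine ⟨(Submodule.subtype _).comp g, fun v => (g v).2, fun v => ?_⟩
  have h1 := DFunLike.congr_fun hg v
  exact congrArg Subtype.val h1

theorem main (hUCH : XB.Stmt_Uch) (hRAY : XB.Stmt_Ray) (k : Fin 10)
    (Pg : Ideal (MvPolynomial (Fin (N + 1)) F))
    (hPg : ∀ π σ l, RayOf (some k) π σ l → chf F π σ ∉ Pg ∧
        ∀ r, r ∈ Pg ↔ ∃ n : ℕ, chf F π σ ^ n * r ∈ Ideal.span {che F π σ l} ⊔ I F) (m : ℕ) :
    4 * ∑ i ∈ Finset.range (m + 1), Module.finrank F (qgr Pg i) ≤
      Module.finrank F (qgr (I F) (m + 3)) := by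
  obtain ⟨π, hπ⟩ := exists_pe k
  have hray : RayOf (some k) π 0 0 := Or.inr ⟨k, rfl, Or.inl ⟨rfl, Or.inl rfl, hπ⟩⟩
  obtain ⟨φ, hker, hchf, hsur, hZ, hche, hc⟩ := hUCH F π 0
  have hdom : IsDomain (Au F 0) := LCG_.isDomain F 0
  obtain ⟨hp, -⟩ := LCG_.Xa_prime F 0 0
  obtain ⟨h1, -⟩ := hRAY
  obtain ⟨hord, hcG⟩ := h1 (some k) π 0 0 hray
  have hx : ∀ c : Pt, HO (Xa F 0 0) (φ (xc F c)) (c.e k) := by
    intro c
    have := ord_xc F 0 0 π φ hc c
    rwa [hord c] at this
  obtain ⟨-, hP⟩ := hPg π 0 0 hray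
  -- elements outside of `Pg`
  have hout : ∀ r, r ∉ Pg → HO (Xa F 0 0) (φ r) 0 := by
    intro r hr
    refine HO.zero_of fun hdvd => hr ?_
    obtain ⟨y, hy⟩ := hdvd
    rw [hP]
    obtain ⟨n, s, hs⟩ := hsur y
    refine ⟨n + 1, ?_⟩
    have h2 : chf F π 0 = tws π (xc F) (tp 0 0) * (tws π (xc F) (tp 0 7) * tws π (xc F) (tp 0 8) *
        tws π (xc F) (tp 0 9)) := by
      unfold chf
      ring
    have h3 : chf F π 0 ^ n * tws π (xc F) (tp 0 0) * r - che F π 0 0 * s ∈ I F := by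
      rw [← hker, RingHom.mem_ker, map_sub, map_mul, map_mul, map_mul, map_pow, hy, hZ, hche, ← hs]
      ring
    have h4 : chf F π 0 ^ (n + 1) * r = (tws π (xc F) (tp 0 7) * tws π (xc F) (tp 0 8) *
        tws π (xc F) (tp 0 9)) * (chf F π 0 ^ n * tws π (xc F) (tp 0 0) * r - che F π 0 0 * s) +
        che F π 0 0 * (s * (tws π (xc F) (tp 0 7) * tws π (xc F) (tp 0 8) *
        tws π (xc F) (tp 0 9))) := by
      rw [pow_succ]
      conv_lhs => rw [mul_assoc, mul_comm (chf F π 0) r]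
      rw [show chf F π 0 ^ n * (r * chf F π 0) = chf F π 0 ^ n * (r * (tws π (xc F) (tp 0 0) *
        (tws π (xc F) (tp 0 7) * tws π (xc F) (tp 0 8) * tws π (xc F) (tp 0 9)))) by rw [← h2]]
      ring
    rw [h4]
    exact Ideal.add_mem _ (Ideal.mem_sup_right (Ideal.mul_mem_left _ _ h3))
      (Ideal.mem_sup_left (Ideal.mul_mem_right _ _ (Ideal.mem_span_singleton_self _)))
  -- the multipliers
  obtain ⟨k', hk'⟩ := ex_zero k
  let E : Fin (m + 1) × Fin 4 → MvPolynomial (Fin (N + 1)) F := fun q =>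
    xc F (cG (some k)) ^ (m - q.1.1) * (xc F cO ^ q.2.1 * xc F (cG (some k')) ^ (3 - q.2.1))
  have hE : ∀ q, HO (Xa F 0 0) (φ (E q)) ((m - q.1.1) * 4 + q.2.1) := by
    intro q
    simp only [E, map_mul, map_pow]
    have e1 : (cG (some k)).e k = 4 := by
      show cGe k k = 4
      simp [cGe]
    have e2 : cO.e k = 1 := rfl
    have e3 : (cG (some k')).e k = 0 := hk'
    have a1 := (hx (cG (some k))).pow hp (m - q.1.1)
    have a2 := (hx cO).pow hp q.2.1
    have a3 := (hx (cG (some k'))).pow hp (3 - q.2.1)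
    rw [e1] at a1
    rw [e2, mul_one] at a2
    rw [e3, mul_zero] at a3
    have a4 := a1.mul hp (a2.mul hp a3)
    rwa [add_zero] at a4
  have hEh : ∀ q, (E q).IsHomogeneous (m - q.1.1 + 3) := by
    intro q
    have a1 := (isHomogeneous_X F (pt.symm (cG (some k)))).pow (m - q.1.1)
    have a2 := (isHomogeneous_X F (pt.symm cO)).pow q.2.1
    have a3 := (isHomogeneous_X F (pt.symm (cG (some k')))).pow (3 - q.2.1)
    have a4 := a1.mul (a2.mul a3)
    have e : 1 * (m - q.1.1) + (1 * q.2.1 + 1 * (3 - q.2.1)) = m - q.1.1 + 3 := by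
      have := q.2.2
      omega
    rw [e] at a4
    exact a4
  choose s hs hs' using fun i => ex_sec Pg i
  have := fin_qgr (F := F)
  let Phi : (∀ q : Fin (m + 1) × Fin 4, qgr Pg q.1.1) →ₗ[F] MvPolynomial (Fin (N + 1)) F ⧸ I F :=
    (Ideal.Quotient.mkₐ F (I F)).toLinearMap ∘ₗ
      ∑ q, (LinearMap.mulLeft F (E q)) ∘ₗ (s q.1.1) ∘ₗ LinearMap.proj q
  have hPhi : ∀ r, Phi r = Ideal.Quotient.mk (I F) (∑ q, E q * s q.1.1 (r q)) := by
    intro r
    simp [Phi]
  have hmem : ∀ r, Phi r ∈ qgr (I F) (m + 3) := by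
    intro r
    rw [hPhi]
    refine ⟨_, ?_, rfl⟩
    refine Submodule.sum_mem _ fun q _ => ?_
    have a := (hEh q).mul (hs q.1.1 (r q))
    have e : m - q.1.1 + 3 + q.1.1 = m + 3 := by
      have := q.1.2
      omega
    rw [e] at a
    exact a
  have hinj : Function.Injective Phi := by
    rw [injective_iff_map_eq_zero]
    intro r hr
    by_contra hne
    rw [hPhi, Ideal.Quotient.eq_zero_iff_mem, ← hker, RingHom.mem_ker, map_sum] at hr
    set T : Finset (Fin (m + 1) × Fin 4) := Finset.univ.filter fun q => r q ≠ 0 with hT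
    have hTn : T.Nonempty := by
      by_contra h
      rw [Finset.not_nonempty_iff_eq_empty] at h
      apply hne
      funext q
      by_contra hq
      have : q ∈ T := Finset.mem_filter.2 ⟨Finset.mem_univ q, hq⟩
      rw [h] at this
      exact absurd this (Finset.notMem_empty q)
    have hsum : ∑ q ∈ T, φ (E q * s q.1.1 (r q)) = 0 := by
      rw [← hr]
      refine Finset.sum_subset (Finset.subset_univ _) fun q _ hq => ?_
      have : r q = 0 := by
        by_contra h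
        exact hq (Finset.mem_filter.2 ⟨Finset.mem_univ q, h⟩)
      rw [this, map_zero, mul_zero, map_zero]
    refine sum_ne hp T hTn (fun q => φ (E q * s q.1.1 (r q)))
      (fun q => (m - q.1.1) * 4 + q.2.1) ?_ ?_ hsum
    · intro q _ q' _ hq
      have b1 := q.1.2
      have b2 := q'.1.2
      have b3 := q.2.2
      have b4 := q'.2.2
      refine Prod.ext (Fin.ext ?_) (Fin.ext ?_) <;> omega
    · intro q hq
      have hq0 : r q ≠ 0 := (Finset.mem_filter.1 hq).2
      have hnP : s q.1.1 (r q) ∉ Pg := by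
        intro h
        apply hq0
        apply Subtype.ext
        rw [← hs' q.1.1 (r q)]
        exact Ideal.Quotient.eq_zero_iff_mem.2 h
      have a := (hE q).mul hp (hout _ hnP)
      rw [add_zero, ← map_mul] at a
      exact a
  have hle := LinearMap.finrank_le_finrank_of_injective
    (f := Phi.codRestrict (qgr (I F) (m + 3)) hmem) (by
      intro a b hab
      exact hinj (congrArg Subtype.val hab))
  rw [Module.finrank_pi_fintype, Fintype.sum_prod_type] at hle
  have h2 : ∀ i : Fin (m + 1), ∑ _j : Fin 4, Module.finrank F (qgr Pg i.1) =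
      4 * Module.finrank F (qgr Pg i.1) := by
    intro i
    rw [Finset.sum_const, Finset.card_univ, Fintype.card_fin, smul_eq_mul]
  have h3 := Finset.sum_congr (rfl : (Finset.univ : Finset (Fin (m + 1))) = Finset.univ)
    fun i _ => h2 i
  have h4 := h3.symm.le.trans hle
  rw [← Finset.mul_sum] at h4
  rw [Finset.sum_range]
  exact h4

/-! ### large degrees -/

/-- polynomials of large degree are in the powers of the ideal of the variables -/
theorem hom_mem_pow (M i : ℕ) (hi : M ≤ i) (f : MvPolynomial (Fin (N + 1)) F)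
    (hf : f.IsHomogeneous i) :
    f ∈ (Ideal.span (Set.range (X : Fin (N + 1) → MvPolynomial (Fin (N + 1)) F))) ^ M := by
  rw [f.as_sum]
  refine Ideal.sum_mem _ fun s hs => ?_
  have h1 : s.degree = i := by
    by_contra h
    exact (mem_support_iff.1 hs) (hf.coeff_eq_zero h)
  rw [MvPolynomial.monomial_eq]
  refine Ideal.mul_mem_left _ _ ?_
  rw [Finsupp.prod_fintype _ _ (fun i => pow_zero _)]
  have h2 : ∏ j, (X j : MvPolynomial (Fin (N + 1)) F) ^ s j ∈
      ∏ j, (Ideal.span (Set.range (X : Fin (N + 1) → MvPolynomial (Fin (N + 1)) F))) ^ s j :=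
    Ideal.prod_mem_prod fun j _ => Ideal.pow_mem_pow
      (Ideal.subset_span (Set.mem_range_self j) :
        (X j : MvPolynomial (Fin (N + 1)) F) ∈ Ideal.span (Set.range
          (X : Fin (N + 1) → MvPolynomial (Fin (N + 1)) F))) _
  rw [Finset.prod_pow_eq_pow_sum, ← Finsupp.degree_eq_sum, h1] at h2
  exact Ideal.pow_le_pow_right hi h2

attribute [local instance] MvPolynomial.gradedAlgebra in
theorem hc_mul (i j : ℕ) (hij : j ≤ i) (a t : MvPolynomial (Fin (N + 1)) F)
    (ht : t.IsHomogeneous j) :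
    homogeneousComponent i (a * t) = homogeneousComponent (i - j) a * t := by
  have h5 := DirectSum.coe_decompose_mul_of_right_mem_of_le
    (homogeneousSubmodule (Fin (N + 1)) F) (a := a) (n := i)
    ((mem_homogeneousSubmodule _ _).2 ht) hij
  have h6 : ∀ (f : MvPolynomial (Fin (N + 1)) F) (k : ℕ),
      (DirectSum.decompose (homogeneousSubmodule (Fin (N + 1)) F) f k :
        MvPolynomial (Fin (N + 1)) F) = homogeneousComponent k f := fun f k => by
    rw [← decomposition.decompose'_apply]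
    rfl
  rw [h6, h6] at h5
  exact h5

theorem cmp (J P : Ideal (MvPolynomial (Fin (N + 1)) F)) (hP : XS.HomId F P)
    (hn : ∃ n : ℕ, ∀ r ∈ P, ∀ j, X j ^ n * r ∈ J) :
    ∃ C : ℕ, ∀ m, ∑ i ∈ Finset.range m, Module.finrank F (qgr J i) ≤
      ∑ i ∈ Finset.range m, Module.finrank F (qgr P i) + C := by
  obtain ⟨n, hn⟩ := hn
  set 𝔪 : Ideal (MvPolynomial (Fin (N + 1)) F) :=
    Ideal.span (Set.range (X : Fin (N + 1) → MvPolynomial (Fin (N + 1)) F)) with h𝔪
  -- a power of the maximal ideal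
  obtain ⟨M, hM⟩ : ∃ M : ℕ, ∀ r ∈ P, ∀ f ∈ 𝔪 ^ M, f * r ∈ J := by
    let 𝔫 : Ideal (MvPolynomial (Fin (N + 1)) F) := Ideal.span (Set.range fun j => X j ^ n)
    have h1 : 𝔪 ≤ 𝔫.radical := by
      rw [h𝔪, Ideal.span_le]
      rintro _ ⟨j, rfl⟩
      exact ⟨n, Ideal.subset_span ⟨j, rfl⟩⟩
    obtain ⟨M, hM⟩ := Ideal.exists_pow_le_of_le_radical_of_fg h1 (IsNoetherian.noetherian _)
    refine ⟨M, fun r hr f hf => ?_⟩
    have h2 : 𝔫 ≤ (J : Ideal _).comap (RingHom.id _) ⊔ 𝔫 := le_sup_right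
    have h3 : f ∈ 𝔫 := hM hf
    have h4 : ∀ f ∈ 𝔫, f * r ∈ J := by
      intro f hf
      refine Submodule.span_induction ?_ ?_ ?_ ?_ hf
      · rintro _ ⟨j, rfl⟩
        exact hn r hr j
      · simp
      · intro a b _ _ ha hb
        rw [add_mul]
        exact J.add_mem ha hb
      · intro a b _ hb
        rw [smul_eq_mul, mul_assoc]
        exact J.mul_mem_left _ hb
    exact h4 f h3
  obtain ⟨T, hT⟩ := IsNoetherian.noetherian P
  set D : ℕ := T.sup MvPolynomial.totalDegree with hD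
  have hlarge : ∀ i, M + D ≤ i → ∀ r : MvPolynomial (Fin (N + 1)) F, r.IsHomogeneous i →
      r ∈ P → r ∈ J := by
    intro i hi r hr hrP
    have h1 : r ∈ Submodule.span (MvPolynomial (Fin (N + 1)) F)
        (T : Set (MvPolynomial (Fin (N + 1)) F)) := hT ▸ hrP
    obtain ⟨a, -, ha⟩ := Submodule.mem_span_finset.1 h1
    have h2 : homogeneousComponent i r = r := by
      rw [homogeneousComponent_of_mem hr, if_pos rfl]
    rw [← h2, ← ha, map_sum]
    refine J.sum_mem fun t ht => ?_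
    have htP : t ∈ P := by
      have : t ∈ Submodule.span (MvPolynomial (Fin (N + 1)) F)
        (T : Set (MvPolynomial (Fin (N + 1)) F)) := Submodule.subset_span ht
      rw [hT] at this
      exact this
    have htD : t.totalDegree ≤ D := Finset.le_sup (f := MvPolynomial.totalDegree) ht
    rw [smul_eq_mul]
    have h3 : a t * t = ∑ j ∈ Finset.range (t.totalDegree + 1), a t * homogeneousComponent j t := by
      rw [← Finset.mul_sum, sum_homogeneousComponent]
    rw [h3, map_sum]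
    refine J.sum_mem fun j hj => ?_
    have h4 : homogeneousComponent i (a t * homogeneousComponent j t) =
        homogeneousComponent (i - j) (a t) * homogeneousComponent j t :=
      hc_mul i j (by rw [Finset.mem_range] at hj; omega) _ _
        (homogeneousComponent_isHomogeneous j t)
    rw [h4]
    refine hM _ (hP t htP j) _ (hom_mem_pow M (i - j) ?_ _ (homogeneousComponent_isHomogeneous _ _))
    rw [Finset.mem_range] at hj
    omega
  have hle : ∀ i, M + D ≤ i → Module.finrank F (qgr J i) ≤ Module.finrank F (qgr P i) := by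
    intro i hi
    have := fin_hom (F := F) i
    have e1 : qgr J i = LinearMap.range ((Ideal.Quotient.mkₐ F J).toLinearMap.domRestrict
        (homogeneousSubmodule (Fin (N + 1)) F i)) := by
      rw [LinearMap.range_domRestrict]
      rfl
    have e2 : qgr P i = LinearMap.range ((Ideal.Quotient.mkₐ F P).toLinearMap.domRestrict
        (homogeneousSubmodule (Fin (N + 1)) F i)) := by
      rw [LinearMap.range_domRestrict]
      rfl
    rw [e1, e2]
    have h1 := LinearMap.finrank_range_add_finrank_ker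
      ((Ideal.Quotient.mkₐ F J).toLinearMap.domRestrict (homogeneousSubmodule (Fin (N + 1)) F i))
    have h2 := LinearMap.finrank_range_add_finrank_ker
      ((Ideal.Quotient.mkₐ F P).toLinearMap.domRestrict (homogeneousSubmodule (Fin (N + 1)) F i))
    have h3 : LinearMap.ker ((Ideal.Quotient.mkₐ F P).toLinearMap.domRestrict
        (homogeneousSubmodule (Fin (N + 1)) F i)) ≤
        LinearMap.ker ((Ideal.Quotient.mkₐ F J).toLinearMap.domRestrict
          (homogeneousSubmodule (Fin (N + 1)) F i)) := by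
      intro x hx
      have hx1 : Ideal.Quotient.mk P (x : MvPolynomial (Fin (N + 1)) F) = 0 := hx
      have hx2 := hlarge i hi x x.2 (Ideal.Quotient.eq_zero_iff_mem.1 hx1)
      exact Ideal.Quotient.eq_zero_iff_mem.2 hx2
    have h4 := Submodule.finrank_mono h3
    omega
  refine ⟨∑ i ∈ Finset.range (M + D), Module.finrank F (qgr J i), fun m => ?_⟩
  have h5 : ∀ i ∈ Finset.range m, Module.finrank F (qgr J i) ≤
      Module.finrank F (qgr P i) + if i < M + D then Module.finrank F (qgr J i) else 0 := by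
    intro i _
    split_ifs with h
    · omega
    · have := hle i (by omega)
      omega
  refine (Finset.sum_le_sum h5).trans ?_
  rw [Finset.sum_add_distrib]
  refine Nat.add_le_add_left ?_ _
  rw [← Finset.sum_filter]
  refine Finset.sum_le_sum_of_subset fun i hi => ?_
  rw [Finset.mem_filter] at hi
  exact Finset.mem_range.2 hi.2

end lin

/-- the numerical part -/
theorem num (v d : ℕ) (a b g : ℕ → ℕ) (C C' C₁ : ℕ)
    (ha : ∀ m : ℕ, |6 * (a m : ℤ) - v * (m : ℤ) ^ 3| ≤ C * ((m : ℤ) + 1) ^ 2)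
    (hb : ∀ m : ℕ, |2 * (b m : ℤ) - d * (m : ℤ) ^ 2| ≤ C' * ((m : ℤ) + 1))
    (h4 : ∀ m : ℕ, 4 * ∑ i ∈ Finset.range (m + 1), b i ≤ a (m + 3) + C₁)
    (h12 : ∀ m : ℕ, 12 * ∑ i ∈ Finset.range (m + 1), g i ≤ a (m + 11))
    (hg : ∀ m, 10 * m ^ 2 ≤ g m) : 2 * d < v := by
  have hsq : ∀ m : ℕ, (m : ℤ) ^ 3 ≤ 3 * ∑ i ∈ Finset.range (m + 1), (i : ℤ) ^ 2 := by
    intro m
    induction m with
    | zero => simp
    | succ m ih =>
      rw [Finset.sum_range_succ]
      push_cast
      nlinarith [Int.natCast_nonneg m]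
  have hlin : ∀ m : ℕ, 2 * ∑ i ∈ Finset.range (m + 1), ((i : ℤ) + 1) = ((m : ℤ) + 1) * (m + 2) := by
    intro m
    induction m with
    | zero => simp
    | succ m ih =>
      rw [Finset.sum_range_succ, mul_add, ih]
      push_cast
      ring
  -- `v` is positive
  have hv : 0 < v := by
    by_contra h0
    have hv0 : v = 0 := by omega
    subst hv0
    have key : ∀ m : ℕ, 240 * (m : ℤ) ^ 3 ≤ C * ((m : ℤ) + 12) ^ 2 := by
      intro m
      have h1 := (abs_le.1 (ha (m + 11))).2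
      have h2 : (12 * ∑ i ∈ Finset.range (m + 1), (g i : ℤ)) ≤ a (m + 11) := by
        exact_mod_cast h12 m
      have h3 : ∑ i ∈ Finset.range (m + 1), (10 * (i : ℤ) ^ 2) ≤
          ∑ i ∈ Finset.range (m + 1), (g i : ℤ) :=
        Finset.sum_le_sum fun i _ => by exact_mod_cast hg i
      rw [← Finset.mul_sum] at h3
      have h5 := hsq m
      push_cast at h1
      have h6 : ((m : ℤ) + 11 + 1) ^ 2 = ((m : ℤ) + 12) ^ 2 := by ring
      rw [h6] at h1
      linarith
    have h7 := key (C + 200)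
    push_cast at h7
    have hC : (0 : ℤ) ≤ C := Int.natCast_nonneg C
    nlinarith [mul_nonneg hC hC, mul_nonneg hC (mul_nonneg hC hC)]
  -- `4 d ≤ v`
  have h4d : 4 * d ≤ v := by
    by_contra hlt
    have hlt' : (v : ℤ) + 1 ≤ 4 * d := by
      push Not at hlt
      exact_mod_cast hlt
    have key : ∀ m : ℕ, 4 * d * (m : ℤ) ^ 3 ≤ v * ((m : ℤ) + 3) ^ 3 + C * ((m : ℤ) + 4) ^ 2 +
        6 * C₁ + 6 * C' * (((m : ℤ) + 1) * (m + 2)) := by
      intro m
      have h1 := (abs_le.1 (ha (m + 3))).2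
      have h2 : (4 * ∑ i ∈ Finset.range (m + 1), (b i : ℤ)) ≤ a (m + 3) + C₁ := by
        exact_mod_cast h4 m
      have h3 : ∑ i ∈ Finset.range (m + 1), (d * (i : ℤ) ^ 2 - C' * ((i : ℤ) + 1)) ≤
          ∑ i ∈ Finset.range (m + 1), (2 * (b i : ℤ)) :=
        Finset.sum_le_sum fun i _ => by
          have := (abs_le.1 (hb i)).1
          linarith
      rw [Finset.sum_sub_distrib, ← Finset.mul_sum, ← Finset.mul_sum, ← Finset.mul_sum] at h3
      have h5 := hsq m
      have h6 := hlin m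
      have hd : (0 : ℤ) ≤ d := Int.natCast_nonneg d
      have h8 : (d : ℤ) * (m : ℤ) ^ 3 ≤ d * (3 * ∑ i ∈ Finset.range (m + 1), (i : ℤ) ^ 2) :=
        mul_le_mul_of_nonneg_left h5 hd
      have h9 : (C' : ℤ) * (2 * ∑ i ∈ Finset.range (m + 1), ((i : ℤ) + 1)) =
          C' * (((m : ℤ) + 1) * (m + 2)) := by rw [h6]
      push_cast at h1
      have h10 : ((m : ℤ) + 3 + 1) ^ 2 = ((m : ℤ) + 4) ^ 2 := by ring
      rw [h10] at h1
      linarith
    -- choose `m` large
    set W : ℕ := 100 * (v + C + C' + C₁ + 1) with hW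
    have h7 := key W
    have hv0 : (0 : ℤ) ≤ v := Int.natCast_nonneg v
    have hC : (0 : ℤ) ≤ C := Int.natCast_nonneg C
    have hC' : (0 : ℤ) ≤ C' := Int.natCast_nonneg C'
    have hC₁ : (0 : ℤ) ≤ C₁ := Int.natCast_nonneg C₁
    have hWz : (W : ℤ) = 100 * ((v : ℤ) + C + C' + C₁ + 1) := by
      rw [hW]
      push_cast
      ring
    have hW100 : (100 : ℤ) ≤ W := by rw [hWz]; linarith
    have hW3 : (0 : ℤ) ≤ (W : ℤ) ^ 3 := by positivity
    have e1 : ((v : ℤ) + 1) * (W : ℤ) ^ 3 ≤ 4 * d * (W : ℤ) ^ 3 :=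
      mul_le_mul_of_nonneg_right hlt' hW3
    have e2 : ((W : ℤ) + 3) ^ 3 ≤ (W : ℤ) ^ 3 + 10 * (W : ℤ) ^ 2 := by nlinarith
    have e3 : ((W : ℤ) + 4) ^ 2 ≤ 2 * (W : ℤ) ^ 2 := by nlinarith
    have e4 : ((W : ℤ) + 1) * (W + 2) ≤ 2 * (W : ℤ) ^ 2 := by nlinarith
    have e5 : (1 : ℤ) ≤ (W : ℤ) ^ 2 := by nlinarith
    have e6 : (v : ℤ) * ((W : ℤ) + 3) ^ 3 ≤ v * ((W : ℤ) ^ 3 + 10 * (W : ℤ) ^ 2) :=
      mul_le_mul_of_nonneg_left e2 hv0
    have e7 : (C : ℤ) * ((W : ℤ) + 4) ^ 2 ≤ C * (2 * (W : ℤ) ^ 2) :=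
      mul_le_mul_of_nonneg_left e3 hC
    have e8 : 6 * (C' : ℤ) * (((W : ℤ) + 1) * (W + 2)) ≤ 6 * C' * (2 * (W : ℤ) ^ 2) :=
      mul_le_mul_of_nonneg_left e4 (by linarith)
    have e9 : 6 * (C₁ : ℤ) ≤ 6 * C₁ * (W : ℤ) ^ 2 := by nlinarith
    have e10 : (W : ℤ) ^ 3 ≤ (W : ℤ) ^ 2 * (10 * v + 2 * C + 12 * C' + 6 * C₁) := by nlinarith
    have e11 : (W : ℤ) ^ 2 * (10 * v + 2 * C + 12 * C' + 6 * C₁) < (W : ℤ) ^ 2 * W := by
      apply mul_lt_mul_of_pos_left _ (by linarith)
      rw [hWz]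
      linarith
    nlinarith
  omega

end VGP_

theorem vgp_proof (hUCH : XB.Stmt_Uch) (hRAY : XB.Stmt_Ray) (hXPR : XS.Stmt_Xpr)
    (hVGT : XB.Stmt_Vgt) (hXSL : XS.Stmt_Xsl) : Stmt_Vgp := by
  intro F _ _ k v d ⟨C, hC⟩ ⟨C', hC'⟩
  obtain ⟨Pg, -, hhom, -, hch, hn, -⟩ := hXPR F (some k)
  obtain ⟨C₁, hC₁⟩ := VGP_.cmp (JI F (some k)) Pg hhom hn
  refine VGP_.num v d (fun m => Module.finrank F (qgr (I F) m))
    (fun m => Module.finrank F (qgr (JI F (some k)) m))
    (fun m => Module.finrank F (qgr (JI F none) m)) C C' (4 * C₁) hC hC' (fun m => ?_)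
    (fun m => hVGT F m) (fun m => hXSL F m)
  have h1 := VGP_.main hUCH hRAY k Pg hch m
  have h2 := hC₁ (m + 1)
  omega

end Pool.Agent.BRG
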