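import Pool.Agent.BRG.GRW
import Pool.Agent.BRG.CMPb
import Pool.Agent.BRG.VGP
import Pool.Agent.BRG.LNP
import Pool.Agent.BRG.PAR
import Pool.Agent.BRG.Main
import Pool.Agent.DIL.All

/-!
# The bridge to the exact surfaces: all statements
-/

set_option autoImplicit false

namespace Pool.Agent.BRG

theorem lnp : Stmt_Lnp := LNP_proof XV.dim XV.pri XB.lza XB.lze

theorem par : Stmt_Par := PAR_proof XB.fid XB.fnh XB.lfk XB.hmb XV.pri

theorem vgp : Stmt_Vgp := vgp_proof XB.uch XB.ray XS.xpr XB.vgt XS.xsl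

theorem cmp : Stmt_Cmp := cmpb_proof

theorem grw : Stmt_GRW :=
  grw_proof GML.a_gro XB.qgr' XV.pri XB.hib GML.a_cnt DIL.rnk vgp par cmp

/-- **The tubes.** -/
theorem tub_all : FIN.Stmt_Tub := tub lnp grw

end Pool.Agent.BRG
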