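import Pool.Agent.BRG.JJ
import Pool.Agent.DIL.Surf

/-!
# The annihilators of the functionals on the ring of the dilated tube
-/

set_option autoImplicit false

noncomputable section

namespace Pool.Agent.BRG

open scoped Classical
open MvPolynomial IsLocalRing

section ext

variable {R D : Type} [CommRing R] [CommRing D] [Algebra R D]

theorem fin_ext {a P : Ideal D} (U : Finset D) (hU : Submodule.span D (U : Set D) = P)
    (hP : Module.Finite R (D ⧸ P))
    (h : ∀ p ∈ U, ∃ b : Ideal D, (∀ v ∈ b, p * v ∈ a) ∧ Module.Finite R (D ⧸ b)) :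
    Module.Finite R (D ⧸ a) := by
  rw [fin_iff] at hP ⊢
  obtain ⟨T, hT⟩ := hP
  have h' : ∀ p : D, ∃ (b : Ideal D) (T : Finset D), p ∈ U → (∀ v ∈ b, p * v ∈ a) ∧
      ∀ y : D, ∃ y' ∈ Submodule.span R (T : Set D), y - y' ∈ b := by
    intro p
    by_cases hp : p ∈ U
    · obtain ⟨b, hb, hf⟩ := h p hp
      rw [fin_iff] at hf
      obtain ⟨T, hT⟩ := hf
      exact ⟨b, T, fun _ => ⟨hb, hT⟩⟩
    · exact ⟨⊥, ∅, fun h => absurd h hp⟩
  choose b T' hb using h'
  refine ⟨T ∪ U.biUnion (fun p => (T' p).image (fun t => p * t)), fun y => ?_⟩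
  obtain ⟨y₁, hy₁, h1⟩ := hT y
  rw [← hU] at h1
  obtain ⟨f, -, hf⟩ := Submodule.mem_span_finset.1 h1
  have key : ∀ p ∈ U, ∃ w ∈ Submodule.span R
      ((U.biUnion (fun p => (T' p).image (fun t => p * t)) : Finset D) : Set D),
        f p • p - w ∈ a := by
    intro p hp
    obtain ⟨hb1, hb2⟩ := hb p hp
    obtain ⟨y', hy', h2⟩ := hb2 (f p)
    refine ⟨p * y', ?_, ?_⟩
    · have h3 : p * y' ∈ (Submodule.span R (T' p : Set D)).map (LinearMap.mulLeft R p) :=
        ⟨y', hy', rfl⟩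
      rw [Submodule.map_span] at h3
      refine Submodule.span_mono ?_ h3
      rintro _ ⟨t, ht, rfl⟩
      rw [Finset.mem_coe, Finset.mem_biUnion]
      exact ⟨p, hp, Finset.mem_image.2 ⟨t, ht, rfl⟩⟩
    · have h3 := hb1 _ h2
      have h4 : f p • p - p * y' = p * (f p - y') := by
        rw [smul_eq_mul]
        ring
      rw [h4]
      exact h3
  have key' : ∃ w ∈ Submodule.span R
      ((U.biUnion (fun p => (T' p).image (fun t => p * t)) : Finset D) : Set D),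
        ∑ p ∈ U, f p • p - w ∈ a := by
    have h' : ∀ p : D, ∃ w : D, p ∈ U → w ∈ Submodule.span R
      ((U.biUnion (fun p => (T' p).image (fun t => p * t)) : Finset D) : Set D) ∧
        f p • p - w ∈ a := by
      intro p
      by_cases hp : p ∈ U
      · obtain ⟨w, hw, hw'⟩ := key p hp
        exact ⟨w, fun _ => ⟨hw, hw'⟩⟩
      · exact ⟨0, fun h => absurd h hp⟩
    choose w hw using h'
    refine ⟨∑ p ∈ U, w p, Submodule.sum_mem _ fun p hp => (hw p hp).1, ?_⟩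
    rw [← Finset.sum_sub_distrib]
    exact Ideal.sum_mem _ fun p hp => (hw p hp).2
  obtain ⟨w, hw, h2⟩ := key'
  refine ⟨y₁ + w, ?_, ?_⟩
  · rw [Finset.coe_union, Submodule.span_union]
    exact Submodule.add_mem_sup hy₁ hw
  · have h3 : y - (y₁ + w) = ∑ p ∈ U, f p • p - w := by
      rw [hf]
      ring
    rw [h3]
    exact h2

end ext

section main

variable {V κ : Type} [CommRing V] [Field κ] {σ : V →+* κ} {ϖ : V} {hr : DIL.Res σ ϖ} {B : Type}
  [CommRing B] [Algebra V B] {ℬ : ℕ → Submodule V B} [GradedAlgebra ℬ] {S : Subalgebra V B}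
  {I : Ideal S} {h : Fin 3 → S} {a b c : ℕ} {γ : Fin 3 → S} {Q : Type} {x f : Q → S}
  (X : DIL.In hr ℬ S I h a b c γ x f)

/-- finitely many homogeneous generators -/
theorem hom_gen {P : Ideal (DIL.Dd X)} (hP : P.IsHomogeneous (DIL.dgr X)) :
    ∃ U : Finset (DIL.Dd X), (∀ p ∈ U, ∃ m, p ∈ DIL.dgr X m) ∧
      Submodule.span (DIL.Dd X) (U : Set (DIL.Dd X)) = P := by
  have h1 : P = Submodule.span (DIL.Dd X) {y | y ∈ P ∧ ∃ m, y ∈ DIL.dgr X m} := by
    apply le_antisymm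
    · intro y hy
      obtain ⟨s, hs⟩ := DIL.cp_sum (ℬ := DIL.dgr X) y
      rw [hs]
      exact Submodule.sum_mem _ fun n _ => Submodule.subset_span
        ⟨hP n hy, n, DIL.cp_mem (DIL.dgr X) n y⟩
    · rw [Submodule.span_le]
      exact fun y hy => hy.1
  have h2 : (Submodule.span (DIL.Dd X) {y | y ∈ P ∧ ∃ m, y ∈ DIL.dgr X m}).FG :=
    IsNoetherian.noetherian _
  obtain ⟨U, hU, hU'⟩ := Submodule.fg_span_iff_fg_span_finset_subset _ |>.1 h2
  exact ⟨U, fun p hp => (hU hp).2, by rw [← hU', ← h1]⟩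

/-- **The ring of the tube is finite over `V[h_0, h_1, h_2]` modulo the annihilator of a
functional.** -/
theorem ann_fin [IsDomain V] [IsDomain B] [IsDiscreteValuationRing V]
    [IsAdicComplete (maximalIdeal V) V] (hϖ : Irreducible ϖ) (h0 : DIL.Cnt X)
    (hloc : ∀ y : B, ∃ N : ℕ, algebraMap V B ϖ ^ N * y ∈ S)
    {ρ : ℕ → ℕ} (hρ : ∀ m, Module.rank V (ℬ m) = ρ m) {δ C' : ℚ}
    (hgr : ∀ m : ℕ, |(ρ m : ℚ) - δ * m ^ 3 / 6| ≤ C' * (m + 1) ^ 2)
    (hθ : (Module.finrank (MvPolynomial (Fin 3) κ) ↥(DIL.Fj X (a - 1)) : ℚ) / b < δ)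
    {s : ℤ} {φ : DIL.Dd X →ₗ[MvPolynomial (Fin (2 + 1)) V] MvPolynomial (Fin (2 + 1)) V}
    (hφ : φ ∈ DXA.Om (DIL.dgr X) s) :
    Module.Finite (MvPolynomial (Fin (2 + 1)) V) (DIL.Dd X ⧸ DXA.ann φ) := by
  suffices H : ∀ (A : Ideal (DIL.Dd X)) (s : ℤ)
      (φ : DIL.Dd X →ₗ[MvPolynomial (Fin (2 + 1)) V] MvPolynomial (Fin (2 + 1)) V),
      φ ∈ DXA.Om (DIL.dgr X) s → DXA.ann φ = A →
      Module.Finite (MvPolynomial (Fin (2 + 1)) V) (DIL.Dd X ⧸ DXA.ann φ) from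
    H _ s φ hφ rfl
  intro A
  induction A using WellFoundedGT.induction with
  | ind A ih =>
    intro s φ hφ hA
    by_cases h1 : φ = 0
    · have h2 : DXA.ann φ = ⊤ := (DXA.ann_eq_top φ).2 h1
      rw [h2, fin_iff]
      exact ⟨∅, fun y => ⟨0, Submodule.zero_mem _, Submodule.mem_top⟩⟩
    · obtain ⟨e, g, hg, hgφ, -, hhom, -, hfin, -⟩ :=
        DIL.exists_primeD X hϖ h0 hloc hρ hgr hθ hφ h1
      obtain ⟨U, hU, hU'⟩ := hom_gen X hhom
      refine fin_ext U hU' hfin fun p hp => ⟨DXA.ann (DXA.act p φ), fun v hv => ?_, ?_⟩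
      · exact (DXA.ann_act p v φ).1 hv
      · obtain ⟨m, hm⟩ := hU p hp
        refine ih _ ?_ (s + m) (DXA.act p φ) (DXA.act_mem (DIL.dgr X) hm hφ) rfl
        rw [← hA]
        refine lt_of_le_of_ne (DXA.ann_le_ann_act p φ) fun h2 => ?_
        have h3 : p ∈ DXA.ann (DXA.act g φ) := by
          rw [← hU']
          exact Submodule.subset_span hp
        rw [DXA.ann_act] at h3
        have h4 : g ∈ DXA.ann (DXA.act p φ) := by
          rw [DXA.ann_act, mul_comm]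
          exact h3
        rw [← h2] at h4
        exact hgφ ((DXA.act_eq_zero g φ).2 h4)

end main

section JJ

variable {V κ K : Type} [CommRing V] [IsDomain V] [Field κ] [Field K] [Algebra V K]
  {σ : V →+* κ} {ϖ : V} {hr : DIL.Res σ ϖ} {B : Type}
  [CommRing B] [Algebra V B] [Algebra K B] [IsScalarTower V K B] {ℬ : ℕ → Submodule K B}
  [GradedAlgebra ℬ] [gV : GradedAlgebra fun n => (ℬ n).restrictScalars V] {S : Subalgebra V B}
  {I : Ideal S} {h : Fin 3 → S} {a b c : ℕ} {γ : Fin 3 → S} {Q : Type} {x f : Q → S}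
  (X : DIL.In hr (fun n => (ℬ n).restrictScalars V) S I h a b c γ x f)

/-- homogeneous ideals over `V` and over `K` -/
theorem hom_iff (J : Ideal B) :
    J.IsHomogeneous (fun n => (ℬ n).restrictScalars V) → J.IsHomogeneous ℬ := by
  intro hJ n y hy
  have h1 := hJ n hy
  have h2 : DIL.cp (fun n => (ℬ n).restrictScalars V) n y = DIL.cp ℬ n y := by
    obtain ⟨s, hs⟩ := DIL.cp_sum (ℬ := ℬ) y
    have h3 : ∀ m, DIL.cp (fun n => (ℬ n).restrictScalars V) n (DIL.cp ℬ m y) =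
        DIL.cp ℬ n (DIL.cp ℬ m y) := by
      intro m
      have h4 : DIL.cp ℬ m y ∈ ℬ m := DIL.cp_mem ℬ m y
      have h5 : DIL.cp ℬ m y ∈ (fun n => (ℬ n).restrictScalars V) m := h4
      by_cases hmn : m = n
      · subst hmn
        rw [DIL.cp_self h4]
        exact DIL.cp_self (ℬ := fun n => (ℬ n).restrictScalars V) h5
      · rw [DIL.cp_ne h4 hmn]
        exact DIL.cp_ne (ℬ := fun n => (ℬ n).restrictScalars V) h5 hmn
    conv_lhs => rw [hs, map_sum]
    conv_rhs => rw [hs, map_sum]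
    exact Finset.sum_congr rfl fun m _ => h3 m
  have h3 : DIL.cp ℬ n y ∈ J := by
    rw [← h2]
    exact h1
  exact h3

/-- the ideal of `B` generated by the annihilator of a functional is in the family `JJ` -/
theorem exists_JJ (hϖ : Irreducible ϖ) (hloc : ∀ y : B, ∃ N : ℕ, algebraMap V B ϖ ^ N * y ∈ S)
    {s : ℤ} {φ : DIL.Dd X →ₗ[MvPolynomial (Fin (2 + 1)) V] MvPolynomial (Fin (2 + 1)) V}
    (hφ : φ ∈ DXA.Om (DIL.dgr X) s)
    (hfin : Module.Finite (MvPolynomial (Fin (2 + 1)) V) (DIL.Dd X ⧸ DXA.ann φ)) :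
    ∃ J ∈ JJ X ℬ, ∀ d : DIL.Dd X, DIL.emb X d ∈ J → φ d = 0 := by
  have hback : ∀ d : DIL.Dd X, DIL.emb X d ∈ DIL.exP X hloc (DXA.ann φ) → d ∈ DXA.ann φ := by
    rintro d ⟨N, e, he, h1⟩
    have h2 : e = (C (ϖ ^ N) : MvPolynomial (Fin (2 + 1)) V) • d := by
      apply DIL.emb_inj X
      have h3 : (C (ϖ ^ N) : MvPolynomial (Fin (2 + 1)) V) • d = ϖ ^ N • d :=
        algebraMap_smul (MvPolynomial (Fin (2 + 1)) V) (ϖ ^ N) d
      rw [h1, h3, map_smul, Algebra.smul_def, map_pow]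
    rw [h2] at he
    refine DXA.mem_ann_of_smul φ ?_ he
    rw [Ne, C_eq_zero]
    exact pow_ne_zero _ hϖ.ne_zero
  refine ⟨DIL.exP X hloc (DXA.ann φ), ⟨hom_iff _ (DIL.exP_hom hloc
    (DXA.ann_homogeneous (DIL.dgr X) hφ)), ?_⟩, fun d hd => ?_⟩
  · have h1 : DXA.ann φ ≤ (DIL.exP X hloc (DXA.ann φ)).comap (DIL.emb X : DIL.Dd X →+* B) := by
      intro d hd
      exact ⟨0, d, hd, by rw [pow_zero, one_mul]; rfl⟩
    exact fin_mono h1 hfin
  · have h1 := (DXA.mem_ann φ d).1 (hback d hd) 1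
    rwa [mul_one] at h1

end JJ

end Pool.Agent.BRG
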