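import Pool.Agent.BRG.GRStmts

/-!
# CMP: functionals on `D` and functionals on `B = D[1 / ϖ]`
-/

set_option autoImplicit false

noncomputable section

namespace Pool.Agent.BRG

open MvPolynomial

namespace CMP_

section abs

variable {V K : Type} [CommRing V] [IsDomain V] [IsDiscreteValuationRing V] [Field K]
  [Algebra V K] [IsFractionRing V K] {ϖ : V}

omit [IsDomain V] [IsDiscreteValuationRing V] in
theorem w_ne (hϖ : Irreducible ϖ) : algebraMap V K ϖ ≠ 0 := by
  intro h
  exact hϖ.ne_zero ((IsFractionRing.injective V K) (by rw [h, map_zero]))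

theorem clear1 (hϖ : Irreducible ϖ) (a : K) :
    ∃ (k : ℕ) (v : V), algebraMap V K v = algebraMap V K ϖ ^ k * a := by
  obtain ⟨x, y, hy, rfl⟩ := IsFractionRing.div_surjective (A := V) a
  have hy0 : y ≠ 0 := nonZeroDivisors.ne_zero hy
  obtain ⟨k, u, hu⟩ := IsDiscreteValuationRing.eq_unit_mul_pow_irreducible hy0 hϖ
  refine ⟨k, x * ↑u⁻¹, ?_⟩
  have h1 : algebraMap V K y ≠ 0 := by
    intro h
    exact hy0 ((IsFractionRing.injective V K) (by rw [h, map_zero]))
  rw [mul_div_assoc', eq_div_iff h1, ← map_pow, ← map_mul, ← map_mul]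
  congr 1
  rw [hu]
  have h2 : (u : V) * ((u⁻¹ : Vˣ) : V) = 1 := u.mul_inv
  linear_combination (x * ϖ ^ k) * h2

variable {n : ℕ}

theorem clear (hϖ : Irreducible ϖ) (p : MvPolynomial (Fin n) K) :
    ∃ (k : ℕ) (q : MvPolynomial (Fin n) V),
      map (algebraMap V K) q = C (algebraMap V K ϖ) ^ k * p := by
  induction p using MvPolynomial.induction_on with
  | C a =>
    obtain ⟨k, v, h⟩ := clear1 hϖ a
    exact ⟨k, C v, by rw [map_C, h, C_mul, C_pow]⟩
  | add p q hp hq =>
    obtain ⟨k, p', hp⟩ := hp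
    obtain ⟨l, q', hq⟩ := hq
    refine ⟨k + l, C ϖ ^ l * p' + C ϖ ^ k * q', ?_⟩
    rw [map_add, map_mul, map_mul, hp, hq, map_pow, map_pow, map_C]
    ring
  | mul_X p i hp =>
    obtain ⟨k, p', hp⟩ := hp
    refine ⟨k, p' * X i, ?_⟩
    rw [map_mul, hp, map_X]
    ring

variable {D B : Type} [CommRing D] [CommRing B] [Algebra (MvPolynomial (Fin n) V) D]
  [Algebra (MvPolynomial (Fin n) K) B] {e : D →+* B}

theorem ext_exists (hϖ : Irreducible ϖ) (he : Function.Injective e)
    (hc : ∀ p, e (algebraMap (MvPolynomial (Fin n) V) D p) =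
      algebraMap (MvPolynomial (Fin n) K) B (map (algebraMap V K) p))
    (hs : ∀ y : B, ∃ (N : ℕ) (d : D),
      e d = algebraMap (MvPolynomial (Fin n) K) B (C (algebraMap V K ϖ)) ^ N * y)
    (φ : D →ₗ[MvPolynomial (Fin n) V] MvPolynomial (Fin n) V) :
    ∃ φ' : B →ₗ[MvPolynomial (Fin n) K] MvPolynomial (Fin n) K,
      ∀ d, φ' (e d) = map (algebraMap V K) (φ d) := by
  have hw := w_ne (K := K) hϖ
  set w : K := algebraMap V K ϖ with hwdef
  have hww : (C w : MvPolynomial (Fin n) K) * C w⁻¹ = 1 := by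
    rw [← C_mul, mul_inv_cancel₀ hw, C_1]
  have hcN : ∀ M : ℕ, e (algebraMap (MvPolynomial (Fin n) V) D (C ϖ ^ M)) =
      algebraMap (MvPolynomial (Fin n) K) B (C w) ^ M := by
    intro M
    rw [hc, map_pow, map_pow, map_C]
  choose N d hd using hs
  let f : B → MvPolynomial (Fin n) K := fun y => C w⁻¹ ^ N y * map (algebraMap V K) (φ (d y))
  have key : ∀ (y : B) (M : ℕ) (d' : D),
      e d' = algebraMap (MvPolynomial (Fin n) K) B (C w) ^ M * y →
      f y = C w⁻¹ ^ M * map (algebraMap V K) (φ d') := by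
    intro y M d' h
    have h1 : (C ϖ : MvPolynomial (Fin n) V) ^ M • d y =
        (C ϖ : MvPolynomial (Fin n) V) ^ N y • d' := by
      apply he
      rw [Algebra.smul_def, Algebra.smul_def, map_mul, map_mul, hcN, hcN, hd, h]
      ring
    have h2 := congrArg (fun t => map (algebraMap V K) (φ t)) h1
    simp only [map_smul, smul_eq_mul, map_mul, map_pow, map_C] at h2
    have h3 : (C w : MvPolynomial (Fin n) K) ^ M * C w⁻¹ ^ M = 1 := by
      rw [← mul_pow, hww, one_pow]
    have h4 : (C w : MvPolynomial (Fin n) K) ^ N y * C w⁻¹ ^ N y = 1 := by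
      rw [← mul_pow, hww, one_pow]
    show C w⁻¹ ^ N y * map (algebraMap V K) (φ (d y)) = _
    calc C w⁻¹ ^ N y * map (algebraMap V K) (φ (d y))
        = C w⁻¹ ^ N y * map (algebraMap V K) (φ (d y)) * (C w ^ M * C w⁻¹ ^ M) := by
          rw [h3, mul_one]
      _ = C w⁻¹ ^ N y * C w⁻¹ ^ M * (C w ^ M * map (algebraMap V K) (φ (d y))) := by ring
      _ = C w⁻¹ ^ N y * C w⁻¹ ^ M * (C w ^ N y * map (algebraMap V K) (φ d')) := by rw [h2]
      _ = C w ^ N y * C w⁻¹ ^ N y * (C w⁻¹ ^ M * map (algebraMap V K) (φ d')) := by ring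
      _ = _ := by rw [h4, one_mul]
  refine ⟨{ toFun := f, map_add' := ?_, map_smul' := ?_ }, ?_⟩
  · intro y y'
    have h1 : e ((C ϖ : MvPolynomial (Fin n) V) ^ N y' • d y +
        (C ϖ : MvPolynomial (Fin n) V) ^ N y • d y') =
        algebraMap (MvPolynomial (Fin n) K) B (C w) ^ (N y + N y') * (y + y') := by
      rw [map_add, Algebra.smul_def, Algebra.smul_def, map_mul, map_mul, hcN, hcN, hd, hd]
      ring
    rw [key _ _ _ h1, map_add, map_smul, map_smul, map_add, smul_eq_mul, smul_eq_mul, map_mul,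
      map_mul, map_pow, map_pow, map_C]
    show _ = C w⁻¹ ^ N y * map (algebraMap V K) (φ (d y)) +
      C w⁻¹ ^ N y' * map (algebraMap V K) (φ (d y'))
    have h3 : (C w : MvPolynomial (Fin n) K) ^ N y * C w⁻¹ ^ N y = 1 := by
      rw [← mul_pow, hww, one_pow]
    have h4 : (C w : MvPolynomial (Fin n) K) ^ N y' * C w⁻¹ ^ N y' = 1 := by
      rw [← mul_pow, hww, one_pow]
    rw [pow_add, ← hwdef]
    linear_combination (C w⁻¹ ^ N y * map (algebraMap V K) (φ (d y))) * h4 +
      (C w⁻¹ ^ N y' * map (algebraMap V K) (φ (d y'))) * h3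
  · intro p y
    obtain ⟨k, q, hq⟩ := clear hϖ p
    have h1 : e (q • d y) =
        algebraMap (MvPolynomial (Fin n) K) B (C w) ^ (k + N y) * (p • y) := by
      rw [Algebra.smul_def, Algebra.smul_def, map_mul, hc, hd, hq, map_mul, map_pow]
      ring
    rw [key _ _ _ h1, map_smul, smul_eq_mul, map_mul, hq]
    show _ = p • (C w⁻¹ ^ N y * map (algebraMap V K) (φ (d y)))
    have h3 : (C w : MvPolynomial (Fin n) K) ^ k * C w⁻¹ ^ k = 1 := by
      rw [← mul_pow, hww, one_pow]
    rw [pow_add, ← hwdef, smul_eq_mul]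
    linear_combination (C w⁻¹ ^ N y * p * map (algebraMap V K) (φ (d y))) * h3
  · intro d'
    show f (e d') = _
    rw [key (e d') 0 d' (by rw [pow_zero, one_mul]), pow_zero, one_mul]

theorem res_exists (hϖ : Irreducible ϖ)
    (hc : ∀ p, e (algebraMap (MvPolynomial (Fin n) V) D p) =
      algebraMap (MvPolynomial (Fin n) K) B (map (algebraMap V K) p))
    (φ : B →ₗ[MvPolynomial (Fin n) K] MvPolynomial (Fin n) K) (T : Finset D)
    (hT : ∀ d : D, ∃ d' ∈ Submodule.span (MvPolynomial (Fin n) V) (T : Set D),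
      φ (e (d - d')) = 0) :
    ∃ (k : ℕ) (ψ : D →ₗ[MvPolynomial (Fin n) V] MvPolynomial (Fin n) V),
      ∀ d, map (algebraMap V K) (ψ d) = C (algebraMap V K ϖ) ^ k * φ (e d) := by
  classical
  have h1 : ∀ U : Finset D, ∃ k : ℕ, ∀ t ∈ U, ∃ q : MvPolynomial (Fin n) V,
      map (algebraMap V K) q = C (algebraMap V K ϖ) ^ k * φ (e t) := by
    intro U
    induction U using Finset.induction_on with
    | empty => exact ⟨0, fun t ht => absurd ht (Finset.notMem_empty t)⟩
    | insert a U ha ih =>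
      obtain ⟨k, hk⟩ := ih
      obtain ⟨l, q, hq⟩ := clear hϖ (φ (e a))
      refine ⟨k + l, fun t ht => ?_⟩
      rcases Finset.mem_insert.1 ht with rfl | ht
      · refine ⟨C ϖ ^ k * q, ?_⟩
        rw [map_mul, map_pow, map_C, hq]
        ring
      · obtain ⟨q', hq'⟩ := hk t ht
        refine ⟨C ϖ ^ l * q', ?_⟩
        rw [map_mul, map_pow, map_C, hq']
        ring
  obtain ⟨k, hk⟩ := h1 T
  have h2 : ∀ d : D, ∃ q : MvPolynomial (Fin n) V,
      map (algebraMap V K) q = C (algebraMap V K ϖ) ^ k * φ (e d) := by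
    intro d
    obtain ⟨d', hd', h0⟩ := hT d
    have h3 : φ (e d) = φ (e d') := by
      rw [map_sub, map_sub, sub_eq_zero] at h0
      exact h0
    rw [h3]
    clear h3 h0
    induction hd' using Submodule.span_induction with
    | mem x hx => exact hk x hx
    | zero => exact ⟨0, by rw [map_zero, map_zero, map_zero, mul_zero]⟩
    | add x y _ _ hx hy =>
      obtain ⟨q, hq⟩ := hx
      obtain ⟨q', hq'⟩ := hy
      exact ⟨q + q', by rw [map_add, hq, hq', map_add, map_add, mul_add]⟩
    | smul a x _ hx =>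
      obtain ⟨q, hq⟩ := hx
      refine ⟨a * q, ?_⟩
      rw [map_mul, hq, Algebra.smul_def, map_mul, hc, ← Algebra.smul_def, map_smul, smul_eq_mul]
      ring
  choose q hq using h2
  have hinj : Function.Injective (map (σ := Fin n) (algebraMap V K)) :=
    map_injective _ (IsFractionRing.injective V K)
  refine ⟨k, { toFun := q, map_add' := ?_, map_smul' := ?_ }, hq⟩
  · intro x y
    apply hinj
    rw [map_add, hq, hq, hq, map_add, map_add, mul_add]
  · intro a x
    apply hinj
    rw [RingHom.id_apply, smul_eq_mul, map_mul, hq, hq, Algebra.smul_def, map_mul, hc,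
      ← Algebra.smul_def, map_smul, smul_eq_mul]
    ring

theorem fin_lift {R D : Type} [CommRing R] [CommRing D] [Algebra R D] (I : Ideal D)
    (h : Module.Finite R (D ⧸ I)) :
    ∃ T : Finset D, ∀ y : D, ∃ y' ∈ Submodule.span R (T : Set D), y - y' ∈ I := by
  classical
  obtain ⟨T', hT'⟩ := h.fg_top
  choose g hg using fun t : D ⧸ I => Ideal.Quotient.mk_surjective t
  refine ⟨T'.image g, fun y => ?_⟩
  have h1 : Ideal.Quotient.mkₐ R I y ∈ (Submodule.span R ((T'.image g : Finset D) : Set D)).map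
      (Ideal.Quotient.mkₐ R I).toLinearMap := by
    rw [Submodule.map_span]
    have h2 : ((Ideal.Quotient.mkₐ R I).toLinearMap : D → D ⧸ I) ''
        ((T'.image g : Finset D) : Set D) = (T' : Set (D ⧸ I)) := by
      rw [Finset.coe_image, Set.image_image]
      have h3 : ∀ t : D ⧸ I, (Ideal.Quotient.mkₐ R I).toLinearMap (g t) = t := fun t => hg t
      simp only [h3, Set.image_id']
    rw [h2, hT']
    exact Submodule.mem_top
  obtain ⟨y', hy', h2⟩ := h1
  refine ⟨y', hy', ?_⟩
  rw [← Ideal.Quotient.eq]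
  exact h2.symm

section rel

variable {M W : Type} [AddCommGroup M] [Module V M] [AddCommGroup W] [Module K W]
  (p : Submodule V M) (q : Submodule K W) (R : M → W → Prop)
  (radd : ∀ m m' w w', R m w → R m' w' → R (m + m') (w + w'))
  (rsmul : ∀ (v : V) m w, R m w → R (v • m) (algebraMap V K v • w))

include radd rsmul in
omit [IsDomain V] [IsDiscreteValuationRing V] [IsFractionRing V K] in
theorem rel_sum {ι : Type} (U : Finset ι) (v : ι → V) (m : ι → M) (w : ι → W) (r0 : R 0 0)
    (h : ∀ i, R (m i) (w i)) : R (∑ i ∈ U, v i • m i) (∑ i ∈ U, algebraMap V K (v i) • w i) := by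
  classical
  induction U using Finset.induction_on with
  | empty => simpa using r0
  | insert a U ha ih =>
    rw [Finset.sum_insert ha, Finset.sum_insert ha]
    exact radd _ _ _ _ (rsmul _ _ _ (h a)) ih

include radd rsmul in
theorem le_of_rel (hϖ : Irreducible ϖ) (r0 : R 0 0) (rz : ∀ w, R 0 w → w = 0)
    (hp : Module.Finite V p) (hq : Module.Finite K q)
    (h : ∀ w ∈ q, ∃ (k : ℕ), ∃ m ∈ p, R m (algebraMap V K ϖ ^ k • w)) :
    Module.finrank K q ≤ Module.finrank V p := by
  have hw := w_ne (K := K) hϖ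
  set bs := Module.finBasis K q with hbs
  choose k m hm hr using fun i => h (bs i) (bs i).2
  have h3 : LinearIndependent V (fun i => (⟨m i, hm i⟩ : p)) := by
    rw [Fintype.linearIndependent_iff]
    intro g hg i
    have h4 : ∑ i, (algebraMap V K (g i) * algebraMap V K ϖ ^ k i) • bs i = 0 := by
      apply Subtype.ext
      rw [ZeroMemClass.coe_zero]
      apply rz
      have h5 := rel_sum R radd rsmul Finset.univ g m
        (fun i => algebraMap V K ϖ ^ k i • (bs i : W)) r0 hr
      have h6 := congrArg Subtype.val hg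
      rw [ZeroMemClass.coe_zero, AddSubmonoidClass.coe_finsetSum] at h6
      have h7 : ∑ i, g i • m i = 0 := h6
      rw [h7] at h5
      rw [AddSubmonoidClass.coe_finsetSum]
      have h8 : (∑ i, (((algebraMap V K (g i) * algebraMap V K ϖ ^ k i) • bs i : q) : W)) =
          ∑ i, algebraMap V K (g i) • algebraMap V K ϖ ^ k i • (bs i : W) :=
        Finset.sum_congr rfl fun i _ => by rw [Submodule.coe_smul, mul_smul]
      rw [h8]
      exact h5
    have h5 := Fintype.linearIndependent_iff.1 bs.linearIndependent _ h4 i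
    rcases mul_eq_zero.1 h5 with h6 | h6
    · exact (IsFractionRing.injective V K) (by rw [h6, map_zero])
    · exact absurd (eq_zero_of_pow_eq_zero h6) hw
  have h4 := h3.fintype_card_le_finrank
  rwa [Fintype.card_fin] at h4

include radd rsmul in
theorem ge_of_rel (r0 : R 0 0) (rz : ∀ m, R m 0 → m = 0)
    (hfree : Module.Free V p) (hp : Module.Finite V p) (hq : Module.Finite K q)
    (h : ∀ i, ∃ w ∈ q, R (Module.finBasis V p i) w) :
    Module.finrank V p ≤ Module.finrank K q := by
  set bs := Module.finBasis V p with hbs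
  choose w hw hr using h
  have h3 : LinearIndependent K (fun i => (⟨w i, hw i⟩ : q)) := by
    rw [Fintype.linearIndependent_iff]
    intro g hg i
    obtain ⟨b, hb⟩ := IsLocalization.exist_integer_multiples (nonZeroDivisors V) Finset.univ g
    choose v hv using fun i => hb i (Finset.mem_univ i)
    have hb0 : algebraMap V K b ≠ 0 := by
      intro h0
      exact nonZeroDivisors.ne_zero b.2 ((IsFractionRing.injective V K) (by rw [h0, map_zero]))
    have h4 : ∑ i, v i • bs i = 0 := by
      apply Subtype.ext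
      rw [ZeroMemClass.coe_zero, AddSubmonoidClass.coe_finsetSum]
      apply rz
      have h5 := rel_sum R radd rsmul Finset.univ v (fun i => (bs i : M)) w r0 hr
      have h6 := congrArg Subtype.val hg
      rw [ZeroMemClass.coe_zero, AddSubmonoidClass.coe_finsetSum] at h6
      have h7 : ∑ i, algebraMap V K (v i) • w i = 0 := by
        have h8 : ∑ i, algebraMap V K (v i) • w i = algebraMap V K b • ∑ i, g i • w i := by
          rw [Finset.smul_sum]
          refine Finset.sum_congr rfl fun i _ => ?_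
          rw [hv i, Algebra.smul_def, mul_smul]
        have h9 : ∑ i, g i • w i = 0 := h6
        rw [h8, h9, smul_zero]
      rw [h7] at h5
      exact h5
    have h5 := Fintype.linearIndependent_iff.1 bs.linearIndependent _ h4 i
    have h6 := hv i
    rw [h5, map_zero, Algebra.smul_def] at h6
    rcases mul_eq_zero.1 h6.symm with h7 | h7
    · exact absurd h7 hb0
    · exact h7
  have h4 := h3.fintype_card_le_finrank
  rwa [Fintype.card_fin] at h4

end rel

end abs

end CMP_

open scoped Classical in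
open CMP_ in
theorem cmp_proof : Stmt_Cmp := by
  intro V κ K _ _ _ _ _ _ _ σ ϖ hr B _ _ _ _ _ ℬ _ hgr S I h a b c γ Q x f Y _ _ hϖ hX hS hne hmul
    s hfree hfin hH hann
  set e : DIL.Dd Y →+* B := (DIL.emb Y : DIL.Dd Y →+* B) with he
  have hinj : Function.Injective e := DIL.emb_inj Y
  have hw := w_ne (K := K) hϖ
  have hc : ∀ p, e (algebraMap (MvPolynomial (Fin 3) V) (DIL.Dd Y) p) =
      algebraMap (MvPolynomial (Fin (2 + 1)) K) B (map (algebraMap V K) p) := by
    intro p
    have h1 : e.comp (algebraMap (MvPolynomial (Fin 3) V) (DIL.Dd Y)) =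
        (algebraMap (MvPolynomial (Fin (2 + 1)) K) B).comp (map (algebraMap V K)) := by
      apply MvPolynomial.ringHom_ext
      · intro v
        rw [RingHom.comp_apply, RingHom.comp_apply, map_C]
        have h2 : (C v : MvPolynomial (Fin 3) V) = algebraMap V (MvPolynomial (Fin 3) V) v := rfl
        have h3 : (C (algebraMap V K v) : MvPolynomial (Fin (2 + 1)) K) =
            algebraMap K (MvPolynomial (Fin (2 + 1)) K) (algebraMap V K v) := rfl
        rw [h2, h3, ← IsScalarTower.algebraMap_apply V (MvPolynomial (Fin 3) V) (DIL.Dd Y),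
          ← IsScalarTower.algebraMap_apply K (MvPolynomial (Fin (2 + 1)) K) B,
          ← IsScalarTower.algebraMap_apply V K B]
        exact (DIL.emb Y).commutes v
      · intro i
        rw [RingHom.comp_apply, RingHom.comp_apply, map_X, hX i, DIL.algebraMap_Dd, aeval_X]
        exact DIL.emb_ofS Y (h i)
    exact DFunLike.congr_fun h1 p
  have hωB : algebraMap (MvPolynomial (Fin (2 + 1)) K) B (C (algebraMap V K ϖ)) =
      algebraMap V B ϖ := by
    have h3 : (C (algebraMap V K ϖ) : MvPolynomial (Fin (2 + 1)) K) =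
        algebraMap K (MvPolynomial (Fin (2 + 1)) K) (algebraMap V K ϖ) := rfl
    rw [h3, ← IsScalarTower.algebraMap_apply K (MvPolynomial (Fin (2 + 1)) K) B,
      ← IsScalarTower.algebraMap_apply V K B]
  have hs : ∀ y : B, ∃ (N : ℕ) (d : DIL.Dd Y),
      e d = algebraMap (MvPolynomial (Fin (2 + 1)) K) B (C (algebraMap V K ϖ)) ^ N * y := by
    intro y
    obtain ⟨N, hN⟩ := hS y
    refine ⟨N, DIL.ofS Y ⟨_, hN⟩, ?_⟩
    rw [hωB]
    exact DIL.emb_ofS Y _
  have hzero : ∀ φ : B →ₗ[MvPolynomial (Fin (2 + 1)) K] MvPolynomial (Fin (2 + 1)) K,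
      (∀ d, φ (e d) = 0) → φ = 0 := by
    intro φ hφ
    apply LinearMap.ext
    intro y
    obtain ⟨N, d, hd⟩ := hs y
    have h1 := hφ d
    rw [hd, ← map_pow, ← Algebra.smul_def, map_smul, smul_eq_mul] at h1
    rcases mul_eq_zero.1 h1 with h2 | h2
    · exfalso
      exact hw ((C_eq_zero).1 (eq_zero_of_pow_eq_zero h2))
    · exact h2
  have hmapinj : Function.Injective (map (σ := Fin (2 + 1)) (algebraMap V K)) :=
    map_injective _ (IsFractionRing.injective V K)
  -- the relation between the functionals on `D` and on `B`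
  set R : (DIL.Dd Y →ₗ[MvPolynomial (Fin 3) V] MvPolynomial (Fin 3) V) →
      (B →ₗ[MvPolynomial (Fin (2 + 1)) K] MvPolynomial (Fin (2 + 1)) K) → Prop :=
    fun φ ψ => ∀ d, map (algebraMap V K) (φ d) = ψ (e d) with hR
  have radd : ∀ m m' w w', R m w → R m' w' → R (m + m') (w + w') := by
    intro m m' w w' h1 h2 d
    rw [LinearMap.add_apply, LinearMap.add_apply, map_add, h1 d, h2 d]
  have rsmul : ∀ (v : V) m w, R m w → R (v • m) (algebraMap V K v • w) := by
    intro v m w h1 d
    rw [LinearMap.smul_apply, LinearMap.smul_apply, MvPolynomial.smul_eq_C_mul,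
      MvPolynomial.smul_eq_C_mul, map_mul, map_C, h1 d]
  have r0 : R 0 0 := by
    intro d
    rw [LinearMap.zero_apply, LinearMap.zero_apply, map_zero]
  have rz1 : ∀ w, R 0 w → w = 0 := by
    intro w h1
    apply hzero
    intro d
    rw [← h1 d, LinearMap.zero_apply, map_zero]
  have rz2 : ∀ m, R m 0 → m = 0 := by
    intro m h1
    apply LinearMap.ext
    intro d
    apply hmapinj
    rw [h1 d, LinearMap.zero_apply, LinearMap.zero_apply, map_zero]
  have hOm : ∀ ψ : DIL.Dd Y →ₗ[MvPolynomial (Fin 3) V] MvPolynomial (Fin 3) V,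
      ψ ∈ GML.Om (DIL.dmod Y) s ↔ ψ ∈ DXA.Om (DIL.dgr Y) (s : ℤ) := fun ψ =>
    DIL.mem_om_iff (n := 2) (DIL.dgr Y) (DIL.dX Y) s ψ
  constructor
  · intro J hJ
    refine le_of_rel (M := DIL.Dd Y →ₗ[MvPolynomial (Fin 3) V] MvPolynomial (Fin 3) V)
      (W := B →ₗ[MvPolynomial (Fin (2 + 1)) K] MvPolynomial (Fin (2 + 1)) K)
      (GML.Om (DIL.dmod Y) s) (GMD.HHm (n := 2) ℬ J s) R radd rsmul hϖ r0 rz1 hfin (hH J hJ) ?_
    intro w hw'
    obtain ⟨T, hT⟩ := fin_lift _ hJ.2
    obtain ⟨k, ψ, hψ⟩ := res_exists hϖ hc w T fun d => by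
      obtain ⟨d', hd', hdd⟩ := hT d
      exact ⟨d', hd', hw'.2 _ hdd⟩
    refine ⟨k, ψ, (hOm ψ).2 ?_, ?_⟩
    · intro m y hy d hd
      refine hw'.1 m (e y) hy d ?_
      intro h0
      apply hd
      apply IsFractionRing.injective V K
      rw [map_zero, ← coeff_map, hψ, ← C_pow, coeff_C_mul, h0, mul_zero]
    · intro d
      rw [hψ d, LinearMap.smul_apply, MvPolynomial.smul_eq_C_mul, C_pow]
  · have hann' : ∀ φ : DIL.Dd Y →ₗ[MvPolynomial (Fin 3) V] MvPolynomial (Fin 3) V,
        φ ∈ GML.Om (DIL.dmod Y) s → ∃ J ∈ JJ Y ℬ, ∀ d : DIL.Dd Y, e d ∈ J → φ d = 0 :=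
      fun φ hφ => hann φ hφ
    have h1 : ∀ (r : ℕ) (g : Fin r → DIL.Dd Y →ₗ[MvPolynomial (Fin 3) V] MvPolynomial (Fin 3) V),
        (∀ i, g i ∈ GML.Om (DIL.dmod Y) s) → ∃ J ∈ JJ Y ℬ, ∀ i, ∀ d : DIL.Dd Y, e d ∈ J →
          g i d = 0 := by
      intro r g hg
      have h2 : ∀ U : Finset (Fin r), ∃ J ∈ JJ Y ℬ, ∀ i ∈ U, ∀ d : DIL.Dd Y, e d ∈ J →
          g i d = 0 := by
        intro U
        induction U using Finset.induction_on with
        | empty =>
          obtain ⟨J, hJ⟩ := hne
          exact ⟨J, hJ, fun i hi => absurd hi (Finset.notMem_empty i)⟩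
        | insert a U ha ih =>
          obtain ⟨J, hJ, h1⟩ := ih
          obtain ⟨J', hJ', h2⟩ := hann' _ (hg a)
          refine ⟨J * J', hmul J hJ J' hJ', fun i hi d hd => ?_⟩
          have hle1 : J * J' ≤ J := Ideal.mul_le_left
          have hle2 : J * J' ≤ J' := Ideal.mul_le_right
          have hd1 : e d ∈ J := hle1 hd
          have hd2 : e d ∈ J' := hle2 hd
          rcases Finset.mem_insert.1 hi with rfl | hi
          · exact h2 d hd2
          · exact h1 i hi d hd1
      obtain ⟨J, hJ, hJ0⟩ := h2 Finset.univ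
      exact ⟨J, hJ, fun i => hJ0 i (Finset.mem_univ i)⟩
    obtain ⟨J, hJ, hJ0⟩ := h1 _ (fun i => (Module.finBasis V (GML.Om (DIL.dmod Y) s) i).1)
      (fun i => (Module.finBasis V (GML.Om (DIL.dmod Y) s) i).2)
    refine ⟨J, hJ, ?_⟩
    have hE : ∀ ψ : DIL.Dd Y →ₗ[MvPolynomial (Fin 3) V] MvPolynomial (Fin 3) V,
        ψ ∈ GML.Om (DIL.dmod Y) s → (∀ d : DIL.Dd Y, e d ∈ J → ψ d = 0) →
        ∃ w ∈ GMD.HHm (n := 2) ℬ J s, R ψ w := by
      intro ψ hψ hJi
      have hbi := (hOm _).1 hψ
      obtain ⟨φ, hφ⟩ := ext_exists (n := 2 + 1) (K := K) hϖ hinj hc hs ψ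
      refine ⟨φ, ⟨?_, ?_⟩, fun d => (hφ d).symm⟩
      · intro m y hy u hu
        obtain ⟨N, d, hd⟩ := hs y
        have hdm : d ∈ DIL.dgr Y m := by
          rw [DIL.mem_dgr]
          show e d ∈ ℬ m
          have h4 : algebraMap (MvPolynomial (Fin (2 + 1)) K) B (C (algebraMap V K ϖ)) ^ N * y =
              (algebraMap V K ϖ ^ N) • y := by
            rw [hωB, Algebra.smul_def, map_pow, ← IsScalarTower.algebraMap_apply V K B]
          rw [hd, h4]
          exact Submodule.smul_mem _ _ hy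
        refine hbi m d hdm u ?_
        intro h0
        apply hu
        have h5 := congrArg (coeff u) (hφ d)
        rw [coeff_map, h0, map_zero, hd, ← map_pow, ← Algebra.smul_def, map_smul, smul_eq_mul,
          ← C_pow, coeff_C_mul] at h5
        rcases mul_eq_zero.1 h5 with h6 | h6
        · exact absurd (eq_zero_of_pow_eq_zero h6) hw
        · exact h6
      · intro y hy
        obtain ⟨N, d, hd⟩ := hs y
        have h3 : e d ∈ J := by
          rw [hd]
          exact Ideal.mul_mem_left _ _ hy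
        have h4 := hφ d
        rw [hJi d h3, map_zero, hd, ← map_pow, ← Algebra.smul_def, map_smul, smul_eq_mul] at h4
        rcases mul_eq_zero.1 h4 with h6 | h6
        · exact absurd ((C_eq_zero).1 (eq_zero_of_pow_eq_zero h6)) hw
        · exact h6
    refine ge_of_rel (M := DIL.Dd Y →ₗ[MvPolynomial (Fin 3) V] MvPolynomial (Fin 3) V)
      (W := B →ₗ[MvPolynomial (Fin (2 + 1)) K] MvPolynomial (Fin (2 + 1)) K)
      (GML.Om (DIL.dmod Y) s) (GMD.HHm (n := 2) ℬ J s) R radd rsmul r0 rz2 hfree hfin (hH J hJ) ?_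
    exact fun i => hE _ (Module.finBasis V (GML.Om (DIL.dmod Y) s) i).2 (hJ0 i)

end Pool.Agent.BRG
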