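import Pool.Agent.DIL.Dil
import Pool.Agent.RST.Defs
import Pool.Agent.XB.StmtsB

/-!
# The ideals of the compact surfaces of the tube
-/

set_option autoImplicit false

noncomputable section

namespace Pool.Agent.BRG

open scoped Classical
open MvPolynomial Pool.Agent.FRM Pool.Agent.XV Pool.Agent.GML Pool.Agent.XB

section JJ

variable {V κ : Type} [CommRing V] [Field κ] {σ : V →+* κ} {ϖ : V} {hr : DIL.Res σ ϖ} {B : Type}
  [CommRing B] [Algebra V B] {ℬ : ℕ → Submodule V B} [GradedAlgebra ℬ] {S : Subalgebra V B}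
  {I : Ideal S} {h : Fin 3 → S} {a b c : ℕ} {γ : Fin 3 → S} {Q : Type} {x f : Q → S}
  (X : DIL.In hr ℬ S I h a b c γ x f)

/-- `D / (J ∩ D)` is finite over `V[h_0, h_1, h_2]` -/
def FinJ (J : Ideal B) : Prop :=
  Module.Finite (MvPolynomial (Fin 3) V) (DIL.Dd X ⧸ J.comap (DIL.emb X : DIL.Dd X →+* B))

/-- **The ideals of the compact surfaces of the tube.** -/
def JJ {K : Type} [Field K] [Algebra K B] (ℬK : ℕ → Submodule K B) [GradedAlgebra ℬK] :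
    Set (Ideal B) :=
  {J | J.IsHomogeneous ℬK ∧ FinJ X J}

end JJ

/-- **GRW**: the growth of the spaces of fractions with poles in the tube of the surface `P_k`. -/
def Stmt_GRW : Prop :=
  ∀ (p : ℕ) (J : Type) (E : Eqs p XV.N J) (K : Type) [Field K] (V : ValuationSubring K)
    (F : Type) [Field F] [IsAlgClosed F] (c : F →+* V) (σ : V →+* F) (t ϖ : V)
    (P : Ideal (MvPolynomial (Fin (XV.N + 1)) K)) (z : Fin 4 → MvPolynomial (Fin (XV.N + 1)) V)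
    (B : Type) [CommRing B] [IsDomain B] [IsIntegrallyClosed B] [Algebra K B]
    (φ : MvPolynomial (Fin (XV.N + 1)) K →ₐ[K] B) (ℬ : ℕ → Submodule K B) [GradedAlgebra ℬ],
    IsAdicComplete (IsLocalRing.maximalIdeal V) V → SuB E V c σ t ϖ P z φ ℬ →
    ∀ (hr : DIL.Res σ ϖ) (_ : GradedAlgebra fun n => (ℬ n).restrictScalars V) (k : Fin 10)
      (h : Fin 3 → MvPolynomial (Fin (XV.N + 1)) F) (M : ℕ)
      (G : Fin 3 → MvPolynomial (Fin (XV.N + 1)) F)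
      (S : Finset (MvPolynomial (Fin (XV.N + 1)) F × MvPolynomial (Fin (XV.N + 1)) F)),
    ChD F (some k) h M G S → (∀ i, (h i).IsHomogeneous 1) →
    (∀ s ∈ S, ∃ π σ l, RayOf (some k) π σ l ∧ s = (chf F π σ, che F π σ l)) →
    (∀ j, ∃ n : ℕ, (X j : MvPolynomial (Fin (XV.N + 1)) F) ^ n ∈
      Ideal.span (Set.range h) ⊔ JI F (some k)) →
    ∀ θ : MvPolynomial (Fin (XV.N + 1)) F, θ.IsHomogeneous 1 →
    (∀ j, ∃ n : ℕ, (X j : MvPolynomial (Fin (XV.N + 1)) F) ^ n ∈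
      Ideal.span (Set.range h) ⊔ Ideal.span {θ} ⊔ I F) →
    ∀ h' : Fin 3 → Sb V φ, (∀ i, (h' i : B) = lfb V φ c (h i)) →
    ∀ (cc : ℕ) (γ : Fin 3 → Sb V φ) (x f : S → Sb V φ),
      (∀ s : S, ((x s : B) = lfb V φ c s.1.1 ∧ (f s : B) = lfb V φ c s.1.2)) →
      ∀ Y : DIL.In hr (fun n => (ℬ n).restrictScalars V) (Sb V φ) (Igb V φ ϖ (some k)) h'
        (aG (some k)) 1 cc γ x f,
    ∀ n b r, 0 < n → IsBas V c ϖ φ n b r → ∀ v d : ℕ,
    (∃ C : ℕ, ∀ m : ℕ, |6 * (Module.finrank F (qgr (I F) m) : ℤ) - v * (m : ℤ) ^ 3| ≤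
      C * ((m : ℤ) + 1) ^ 2) →
    (∃ C : ℕ, ∀ m : ℕ, |2 * (Module.finrank F (qgr (JI F (some k)) m) : ℤ) - d * (m : ℤ) ^ 2| ≤
      C * ((m : ℤ) + 1)) →
    ∀ (L : Type) [Field L] [Algebra B L] [IsFractionRing B L] [Algebra K L] [IsScalarTower K B L]
      (hne : (JJ Y ℬ).Nonempty) (hmul : ∀ J ∈ JJ Y ℬ, ∀ J' ∈ JJ Y ℬ, J * J' ∈ JJ Y ℬ),
      (∀ m, Module.Finite K (RST.WP (L := L) ℬ (JJ Y ℬ) hne hmul ⊤ m)) ∧
      ∃ C : ℕ, ∀ m : ℕ, |(Module.finrank K (RST.WP (L := L) ℬ (JJ Y ℬ) hne hmul ⊤ m) : ℚ) -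
        n * (v + 2 * d : ℕ) * (m : ℚ) ^ 3 / 6| ≤ C * ((m : ℚ) + 1) ^ 2

end Pool.Agent.BRG
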