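import Pool.Agent.BRG.JJ
import Pool.Agent.NRM.All
import Pool.Agent.NRM.Noe
import Pool.Agent.XS.StmtsC

/-!
# The integral model: the fields of the context
-/

set_option autoImplicit false

noncomputable section

namespace Pool.Agent.BRG

open scoped Classical
open MvPolynomial Pool.Agent.FRM Pool.Agent.XV Pool.Agent.GML Pool.Agent.XB

section sub

variable {K : Type} [Field K] {V : ValuationSubring K} {B : Type} [CommRing B] [Algebra K B]
  {φ : MvPolynomial (Fin (XV.N + 1)) K →ₐ[K] B}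

theorem vB_mem (G : MvPolynomial (Fin (XV.N + 1)) V) : vB V φ G ∈ Sb V φ :=
  RingHom.isIntegralElem_map _

theorem aeval_mem_Sb (G : MvPolynomial (Fin (XV.N + 1)) V) :
    aeval (fun i => φ (MvPolynomial.X i)) G ∈ Sb V φ := by
  rw [← vB_eq]
  exact vB_mem G

theorem x_mem (i : Fin (XV.N + 1)) : φ (MvPolynomial.X i) ∈ Sb V φ := by
  have h := aeval_mem_Sb (V := V) (φ := φ) (MvPolynomial.X i)
  rwa [aeval_X] at h

variable {p : ℕ} {J : Type} {E : Eqs p XV.N J} {F : Type} [Field F] {c : F →+* V} {σ : V →+* F}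
  {t ϖ : V} {P : Ideal (MvPolynomial (Fin (XV.N + 1)) K)}
  {z : Fin 4 → MvPolynomial (Fin (XV.N + 1)) V} {ℬ : ℕ → Submodule K B}

theorem S_lat (hB : SuB E V c σ t ϖ P z φ ℬ) (b : B) : ∃ k : ℕ, ϖ ^ k • b ∈ Sb V φ := by
  obtain ⟨v, hv, h⟩ := NRM.exists_mul_mem V φ (hB.intB b)
  have hdvr := hB.base.dvr
  obtain ⟨n, u, hu⟩ := IsDiscreteValuationRing.eq_unit_mul_pow_irreducible hv hB.base.irr
  refine ⟨n, ?_⟩
  have h1 : ϖ ^ n • b = ((u⁻¹ : Vˣ) : V) • (algebraMap V B v * b) := by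
    rw [Algebra.smul_def, Algebra.smul_def, ← mul_assoc, ← map_mul, hu, ← mul_assoc]
    simp
  rw [h1]
  exact (Sb V φ).smul_mem h _

theorem S_fin (hB : SuB E V c σ t ϖ P z φ ℬ) : ∃ T : Finset B, (∀ t ∈ T, t ∈ Sb V φ) ∧
    ∀ s ∈ Sb V φ, ∃ G : B → MvPolynomial (Fin (XV.N + 1)) V,
      s = ∑ t ∈ T, aeval (fun i => φ (MvPolynomial.X i)) (G t) * t := by
  obtain ⟨m, b, hb, hgen⟩ := hB.finS
  refine ⟨Finset.univ.image b, ?_, ?_⟩
  · intro t ht
    obtain ⟨i, -, rfl⟩ := Finset.mem_image.1 ht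
    exact hb i
  · intro s hs
    obtain ⟨q, hq⟩ := hgen s hs
    refine ⟨fun t => ∑ i with b i = t, aeval z (q i), ?_⟩
    rw [hq]
    have h1 : ∀ t ∈ Finset.univ.image b,
        aeval (fun i => φ (MvPolynomial.X i)) (∑ i with b i = t, aeval z (q i)) * t =
          ∑ i with b i = t, vB V φ (aeval z (q i)) * b i := by
      intro t _
      rw [map_sum, Finset.sum_mul]
      refine Finset.sum_congr rfl fun i hi => ?_
      rw [vB_eq, (Finset.mem_filter.1 hi).2]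
    rw [Finset.sum_congr rfl h1]
    exact (Finset.sum_fiberwise_of_maps_to (fun i _ => Finset.mem_image_of_mem b
      (Finset.mem_univ i)) _).symm

theorem exists_lift (hB : SuB E V c σ t ϖ P z φ ℬ) (G : MvPolynomial (Fin (XV.N + 1)) V) :
    ∃ s ∈ Sb V φ, aeval (fun i => φ (MvPolynomial.X i)) G =
      lfb V φ c (MvPolynomial.map σ G) + ϖ • s := by
  have h1 : C ϖ ∣ G - MvPolynomial.map c (MvPolynomial.map σ G) := by
    rw [C_dvd_iff_dvd_coeff]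
    intro i
    rw [← Ideal.mem_span_singleton, ← hB.base.ker, RingHom.mem_ker, coeff_sub, map_sub, coeff_map,
      coeff_map, hB.base.sec, sub_self]
  obtain ⟨H, hH⟩ := h1
  refine ⟨aeval (fun i => φ (MvPolynomial.X i)) H, aeval_mem_Sb H, ?_⟩
  have h2 : G = MvPolynomial.map c (MvPolynomial.map σ G) + C ϖ * H := by
    rw [← hH]
    ring
  conv_lhs => rw [h2, map_add, map_mul, aeval_C]
  rw [Algebra.smul_def, ← vB_eq]
  rfl

theorem dvb_iff {b : B} : Dvb V φ ϖ b ↔ ∃ s ∈ Sb V φ, b = ϖ • s := by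
  constructor
  · rintro ⟨s, hs, rfl⟩
    exact ⟨s, hs, by rw [Algebra.smul_def]⟩
  · rintro ⟨s, hs, rfl⟩
    exact ⟨s, hs, by rw [Algebra.smul_def]⟩

theorem dvb_add {b b' : B} (h : Dvb V φ ϖ b) (h' : Dvb V φ ϖ b') : Dvb V φ ϖ (b + b') := by
  obtain ⟨s, hs, rfl⟩ := h
  obtain ⟨s', hs', rfl⟩ := h'
  exact ⟨s + s', (Sb V φ).add_mem hs hs', by ring⟩

theorem dvb_smul {s : B} (hs : s ∈ Sb V φ) : Dvb V φ ϖ (ϖ • s) := dvb_iff.2 ⟨s, hs, rfl⟩

variable [GradedAlgebra ℬ]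

theorem red0 (hLfk : Stmt_Lfk) (hB : SuB E V c σ t ϖ P z φ ℬ)
    (G : MvPolynomial (Fin (XV.N + 1)) V) (hG : MvPolynomial.map σ G ∈ XV.I F) :
    ∃ s ∈ Sb V φ, aeval (fun i => φ (MvPolynomial.X i)) G = ϖ • s := by
  rw [← dvb_iff]
  obtain ⟨s, hs, h⟩ := exists_lift hB G
  rw [h]
  exact dvb_add ((hLfk p J E K V F c σ t ϖ P z B φ ℬ hB _).2 hG) (dvb_smul hs)

theorem red1 (hNzd : Stmt_Nzd) (hB : SuB E V c σ t ϖ P z φ ℬ)
    (G : MvPolynomial (Fin (XV.N + 1)) V) (hG : MvPolynomial.map σ G ∉ XV.I F) (s : B)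
    (hs : s ∈ Sb V φ)
    (h : ∃ s' ∈ Sb V φ, aeval (fun i => φ (MvPolynomial.X i)) G * s = ϖ • s') :
    ∃ s' ∈ Sb V φ, s = ϖ • s' := by
  rw [← dvb_iff] at h ⊢
  obtain ⟨s₁, hs₁, h1⟩ := exists_lift hB G
  refine hNzd p J E K V F c σ t ϖ P z B φ ℬ hB _ hG s hs ?_
  have h2 : lfb V φ c (MvPolynomial.map σ G) * s =
      aeval (fun i => φ (MvPolynomial.X i)) G * s + ϖ • (-(s₁ * s)) := by
    rw [h1, smul_neg, add_mul, smul_mul_assoc]
    ring
  rw [h2]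
  exact dvb_add h (dvb_smul ((Sb V φ).neg_mem ((Sb V φ).mul_mem hs₁ hs)))

theorem S_one (hGss : Stmt_Gss) [IsDomain B] (hB : SuB E V c σ t ϖ P z φ ℬ) (s : B)
    (hs : s ∈ Sb V φ) : ϖ • s ≠ 1 := by
  have h := (hGss K V ϖ hB.base.irr hB.base.dvr P hB.base.close.dim z hB.base.close.z_int B φ
    hB.ker hB.intB).2.1
  intro h1
  apply h
  rw [dvb_iff]
  exact ⟨s, hs, h1.symm⟩

theorem rank_of (hB : SuB E V c σ t ϖ P z φ ℬ) {n : ℕ} {b : Fin n → B}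
    {r : MvPolynomial (Fin (XV.N + 1)) F} (hbas : IsBas V c ϖ φ n b r) {d : Fin n → ℕ} {k : ℕ}
    (hd : ∀ i, b i ∈ ℬ (d i)) (hr : r.IsHomogeneous k) :
    ∃ (b : Fin n → B) (d : Fin n → ℕ) (f : MvPolynomial (Fin (XV.N + 1)) V) (k : ℕ),
      (∀ i, b i ∈ Sb V φ ∧ b i ∈ ℬ (d i)) ∧ f.IsHomogeneous k ∧
      MvPolynomial.map σ f ∉ XV.I F ∧ ∀ s ∈ Sb V φ,
        ∃ G : Fin n → MvPolynomial (Fin (XV.N + 1)) V, ∃ s' ∈ Sb V φ,
          aeval (fun i => φ (MvPolynomial.X i)) f * s =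
            ∑ i, aeval (fun i => φ (MvPolynomial.X i)) (G i) * b i + ϖ • s' := by
  have h1 : ∀ G : MvPolynomial (Fin (XV.N + 1)) F,
      MvPolynomial.map σ (MvPolynomial.map c G) = G := by
    intro G
    rw [MvPolynomial.map_map]
    have : σ.comp c = RingHom.id F := RingHom.ext hB.base.sec
    rw [this, MvPolynomial.map_id]
  have h2 : ∀ G : MvPolynomial (Fin (XV.N + 1)) F,
      aeval (fun i => φ (MvPolynomial.X i)) (MvPolynomial.map c G) = lfb V φ c G := by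
    intro G
    rw [← vB_eq]
    rfl
  refine ⟨b, d, MvPolynomial.map c r, k, fun i => ⟨hbas.mem i, hd i⟩, hr.map _, ?_, ?_⟩
  · rw [h1]
    exact hbas.r_nz
  · intro s hs
    obtain ⟨q, hq⟩ := hbas.gen s hs
    obtain ⟨s', hs', h3⟩ := dvb_iff.1 hq
    refine ⟨fun i => MvPolynomial.map c (q i), s', hs', ?_⟩
    rw [← h3, h2]
    simp only [h2]
    ring

end sub

end Pool.Agent.BRG
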