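import Pool.Agent.BRG.Ann
import Pool.Agent.BRG.Sub
import Pool.Agent.BRG.GRStmts
import Pool.Agent.DIL.Rnk

/-!
# GRW: the growth of the spaces of fractions with poles in the tube
-/

set_option autoImplicit false

noncomputable section

namespace Pool.Agent.BRG

open scoped Classical
open MvPolynomial Pool.Agent.FRM Pool.Agent.XV Pool.Agent.GML Pool.Agent.XB

section numerics

theorem cube_le {m c : ℕ} : ((m : ℚ) + c) ^ 3 ≤ m ^ 3 + 3 * (c + 1) ^ 3 * (m + 1) ^ 2 := by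
  have hm : (0 : ℚ) ≤ m := Nat.cast_nonneg m
  have hc : (0 : ℚ) ≤ c := Nat.cast_nonneg c
  have h1 : (0 : ℚ) ≤ m * c := mul_nonneg hm hc
  have h2 : (0 : ℚ) ≤ m * c ^ 2 := by positivity
  have h3 : (0 : ℚ) ≤ m ^ 2 * c ^ 2 := by positivity
  have h4 : (0 : ℚ) ≤ m ^ 2 * c ^ 3 := by positivity
  have h5 : (0 : ℚ) ≤ m * c ^ 3 := by positivity
  have h6 : (0 : ℚ) ≤ c ^ 3 := by positivity
  have h7 : (0 : ℚ) ≤ c ^ 2 := by positivity
  nlinarith

/-- comparison of growths -/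
theorem grow_cmp {w β u : ℕ → ℚ} {e₁ e₂ C C₁ C₂ : ℚ} {c : ℕ} (he₁ : 0 ≤ e₁) (he₂ : 0 ≤ e₂)
    (hC : 0 ≤ C) (hw : ∀ m, 0 ≤ w m)
    (hβ : ∀ m : ℕ, |β m - e₁ * (m : ℚ) ^ 3 / 6| ≤ C₁ * ((m : ℚ) + 1) ^ 2)
    (hu : ∀ m : ℕ, |u m - e₂ * (m : ℚ) ^ 3 / 6| ≤ C₂ * ((m : ℚ) + 1) ^ 2)
    (h1 : ∀ m, w m ≤ β (m + c) + u (m + c))
    (h2 : ∀ m : ℕ, u m + β m ≤ w (m + c) + C * ((m : ℚ) + 1) ^ 2) :
    ∃ C' : ℕ, ∀ m : ℕ, |w m - (e₁ + e₂) * (m : ℚ) ^ 3 / 6| ≤ C' * ((m : ℚ) + 1) ^ 2 := by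
  have hC₁ : 0 ≤ C₁ := by simpa using (abs_nonneg _).trans (hβ 0)
  have hC₂ : 0 ≤ C₂ := by simpa using (abs_nonneg _).trans (hu 0)
  obtain ⟨C', hC'⟩ := exists_nat_ge ((C₁ + C₂ + C) * (c + 1) ^ 2 + (e₁ + e₂) * (3 * (c + 1) ^ 3))
  refine ⟨C', fun m => ?_⟩
  have hm : (0 : ℚ) ≤ m := Nat.cast_nonneg m
  have hc : (0 : ℚ) ≤ c := Nat.cast_nonneg c
  have hm2 : (0 : ℚ) ≤ ((m : ℚ) + 1) ^ 2 := by positivity
  have hbound := mul_le_mul_of_nonneg_right hC' hm2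
  have hbd : ((C₁ + C₂ + C) * (c + 1) ^ 2 + (e₁ + e₂) * (3 * (c + 1) ^ 3)) * ((m : ℚ) + 1) ^ 2 =
      (C₁ + C₂ + C) * ((c + 1) ^ 2 * ((m : ℚ) + 1) ^ 2) +
        (e₁ + e₂) * (3 * (c + 1) ^ 3 * ((m : ℚ) + 1) ^ 2) := by ring
  have he : 0 ≤ e₁ + e₂ := add_nonneg he₁ he₂
  rw [abs_le]
  constructor
  · -- lower bound
    rcases le_or_gt c m with hcm | hcm
    · obtain ⟨s, rfl⟩ := Nat.exists_eq_add_of_le' hcm
      have e1 := h2 s
      have e2 := (abs_le.1 (hβ s)).1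
      have e3 := (abs_le.1 (hu s)).1
      have e4 := @cube_le s c
      have e5 := mul_le_mul_of_nonneg_left e4 he
      have hs : (0 : ℚ) ≤ s := Nat.cast_nonneg s
      have e6 : ((s : ℚ) + 1) ^ 2 ≤ (((s + c : ℕ) : ℚ) + 1) ^ 2 := by
        push_cast
        apply pow_le_pow_left₀ (by positivity)
        linarith
      have e7 : ((s : ℚ) + 1) ^ 2 ≤ (c + 1) ^ 2 * (((s + c : ℕ) : ℚ) + 1) ^ 2 := by
        have : (1 : ℚ) ≤ ((c : ℚ) + 1) ^ 2 := by nlinarith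
        nlinarith
      have e8 := mul_le_mul_of_nonneg_left e7 (by positivity : 0 ≤ C₁ + C₂ + C)
      have e9 : 3 * ((c : ℚ) + 1) ^ 3 * ((s : ℚ) + 1) ^ 2 ≤
          3 * (c + 1) ^ 3 * (((s + c : ℕ) : ℚ) + 1) ^ 2 :=
        mul_le_mul_of_nonneg_left e6 (by positivity)
      have e10 := mul_le_mul_of_nonneg_left e9 he
      rw [hbd] at hbound
      have e11 : 0 ≤ (e₁ + e₂) * (3 * (c + 1) ^ 3 * (((s + c : ℕ) : ℚ) + 1) ^ 2) := by positivity
      push_cast at *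
      nlinarith
    · have e1 := hw m
      have e2 : (m : ℚ) ^ 3 ≤ 3 * (c + 1) ^ 3 * ((m : ℚ) + 1) ^ 2 := by
        have : (m : ℚ) ≤ c := by exact_mod_cast hcm.le
        have h3 : (m : ℚ) ^ 3 ≤ (c + 1) ^ 3 := pow_le_pow_left₀ hm (by linarith) 3
        have h4 : (1 : ℚ) ≤ ((m : ℚ) + 1) ^ 2 := by nlinarith
        have h5 : (0 : ℚ) ≤ ((c : ℚ) + 1) ^ 3 := by positivity
        nlinarith
      have e3 := mul_le_mul_of_nonneg_left e2 he
      rw [hbd] at hbound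
      have e4 : 0 ≤ (C₁ + C₂ + C) * ((c + 1) ^ 2 * ((m : ℚ) + 1) ^ 2) := by positivity
      have e5 : 0 ≤ (e₁ + e₂) * (3 * (c + 1) ^ 3 * ((m : ℚ) + 1) ^ 2) := by positivity
      nlinarith
  · have e1 := h1 m
    have e2 := (abs_le.1 (hβ (m + c))).2
    have e3 := (abs_le.1 (hu (m + c))).2
    have e4 := @cube_le m c
    have e5 := mul_le_mul_of_nonneg_left e4 he
    have e7 : (((m + c : ℕ) : ℚ) + 1) ^ 2 ≤ (c + 1) ^ 2 * ((m : ℚ) + 1) ^ 2 := by
      rw [← mul_pow]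
      apply pow_le_pow_left₀ (by positivity)
      push_cast
      nlinarith
    have e8 := mul_le_mul_of_nonneg_left e7 (by positivity : 0 ≤ C₁ + C₂)
    have e9 : 0 ≤ C * ((c + 1) ^ 2 * ((m : ℚ) + 1) ^ 2) := by positivity
    have e10 : 0 ≤ (e₁ + e₂) * (3 * (c + 1) ^ 3 * ((m : ℚ) + 1) ^ 2) := by positivity
    rw [hbd] at hbound
    push_cast at *
    nlinarith

/-- equality of leading coefficients -/
theorem eq_of_growth {ρ : ℕ → ℤ} {d d' C C' : ℕ}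
    (h1 : ∀ m : ℕ, |ρ m - d * ((m + 2).choose 2 : ℕ)| ≤ C * ((m : ℤ) + 1))
    (h2 : ∀ m : ℕ, |2 * ρ m - d' * (m : ℤ) ^ 2| ≤ C' * ((m : ℤ) + 1)) : d = d' := by
  have h3 : ∀ m : ℕ, (2 * (((m + 2).choose 2 : ℕ) : ℤ)) = (m + 2) * (m + 1) := by
    intro m
    have h4 : 2 * (m + 2).choose 2 = (m + 2) * (m + 1) := by
      rw [Nat.choose_two_right]
      have h3 : 2 ∣ (m + 2) * (m + 2 - 1) := (Nat.even_mul_pred_self (m + 2)).two_dvd
      rw [Nat.mul_div_cancel' h3]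
      rfl
    exact_mod_cast h4
  have h4 : ∀ m : ℕ, |((d : ℤ) - d') * (m : ℤ) ^ 2| ≤ (2 * C + C' + 3 * d) * ((m : ℤ) + 1) := by
    intro m
    have e1 := abs_le.1 (h1 m)
    have e2 := abs_le.1 (h2 m)
    have e3 := h3 m
    have hm : (0 : ℤ) ≤ m := by positivity
    have hd : (0 : ℤ) ≤ d := by positivity
    have e4 : 2 * ((d : ℤ) * (((m + 2).choose 2 : ℕ) : ℤ)) = d * ((m + 2) * (m + 1)) := by
      rw [← e3]
      ring
    have e5 : (0 : ℤ) ≤ d * m := mul_nonneg hd hm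
    rw [abs_le]
    constructor <;> nlinarith
  by_contra hne
  have h5 : (1 : ℤ) ≤ |(d : ℤ) - d'| := by
    apply Int.one_le_abs
    intro h
    apply hne
    omega
  have h6 := h4 (2 * (2 * C + C' + 3 * d) + 1)
  rw [abs_mul] at h6
  set M : ℤ := 2 * C + C' + 3 * d with hM
  have hM0 : 0 ≤ M := by positivity
  have h7 : |(((2 * (2 * C + C' + 3 * d) + 1 : ℕ) : ℤ)) ^ 2| = (2 * M + 1) ^ 2 := by
    rw [abs_of_nonneg (by positivity)]
    push_cast
    rfl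
  rw [h7] at h6
  have h8 : (2 * M + 1) ^ 2 ≤ |(d : ℤ) - d'| * (2 * M + 1) ^ 2 := by
    have : (0 : ℤ) ≤ (2 * M + 1) ^ 2 := by positivity
    nlinarith
  push_cast at h6
  rw [← hM] at h6
  nlinarith

end numerics

section wp

variable {K B L : Type} [Field K] [CommRing B] [Algebra K B] [Field L] [Algebra B L] [Algebra K L]
  [IsScalarTower K B L] (ℬ : ℕ → Submodule K B) {JJ : Set (Ideal B)} (hne : JJ.Nonempty)
  (hmul : ∀ J ∈ JJ, ∀ J' ∈ JJ, J * J' ∈ JJ)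

theorem FF_le {J : Ideal B} (hJ : J ∈ JJ) (m : ℕ) :
    GMD.FFm ℬ L J m ≤ RST.WP (L := L) ℬ JJ hne hmul ⊤ m := by
  intro b hb
  refine ⟨J, hJ, fun i j hj hji => ?_⟩
  obtain ⟨x, hx, hx'⟩ := hb i j hj hji
  exact ⟨x, trivial, hx, hx'⟩

theorem FF_mono {J J' : Ideal B} (h : J' ≤ J) (m : ℕ) :
    GMD.FFm ℬ L J m ≤ GMD.FFm ℬ L J' m :=
  fun _ hb i j hj hji => hb i j (h hj) hji

theorem mem_FF {b : L} {m : ℕ} (hb : b ∈ RST.WP (L := L) ℬ JJ hne hmul ⊤ m) :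
    ∃ J ∈ JJ, b ∈ GMD.FFm ℬ L J m := by
  obtain ⟨J, hJ, h⟩ := hb
  refine ⟨J, hJ, fun i j hj hji => ?_⟩
  obtain ⟨x, -, hx, hx'⟩ := h i j hj hji
  exact ⟨x, hx, hx'⟩

theorem finset_FF {m : ℕ} (s : Finset (RST.WP (L := L) ℬ JJ hne hmul ⊤ m)) :
    ∃ J ∈ JJ, ∀ b ∈ s, (b : L) ∈ GMD.FFm ℬ L J m := by
  induction s using Finset.induction_on with
  | empty =>
    obtain ⟨J, hJ⟩ := hne
    exact ⟨J, hJ, fun b hb => absurd hb (Finset.notMem_empty b)⟩
  | insert b s hb ih =>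
    obtain ⟨J, hJ, h⟩ := ih
    obtain ⟨J', hJ', h'⟩ := mem_FF ℬ hne hmul b.2
    refine ⟨J * J', hmul J hJ J' hJ', fun x hx => ?_⟩
    rcases Finset.mem_insert.1 hx with rfl | hx
    · exact FF_mono ℬ Ideal.mul_le_right m h'
    · exact FF_mono ℬ Ideal.mul_le_left m (h x hx)

theorem wp_bound {m N : ℕ} (hfin : ∀ J ∈ JJ, Module.Finite K (GMD.FFm ℬ L J m))
    (hN : ∀ J ∈ JJ, Module.finrank K (GMD.FFm ℬ L J m) ≤ N) :
    Module.Finite K (RST.WP (L := L) ℬ JJ hne hmul ⊤ m) ∧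
      Module.finrank K (RST.WP (L := L) ℬ JJ hne hmul ⊤ m) ≤ N := by
  have h1 : Module.rank K (RST.WP (L := L) ℬ JJ hne hmul ⊤ m) ≤ N := by
    apply rank_le
    intro s hs
    obtain ⟨J, hJ, h⟩ := finset_FF ℬ hne hmul s
    have := hfin J hJ
    refine le_trans ?_ (hN J hJ)
    have h2 : LinearIndependent K (fun i : s => (⟨(i : L), h i i.2⟩ : GMD.FFm ℬ L J m)) := by
      have h3 : LinearIndependent K (fun i : s => ((i : RST.WP (L := L) ℬ JJ hne hmul ⊤ m) : L)) :=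
        hs.map' (Submodule.subtype _) (Submodule.ker_subtype _)
      exact LinearIndependent.of_comp (GMD.FFm ℬ L J m).subtype h3
    have h4 := h2.fintype_card_le_finrank
    rwa [Fintype.card_coe] at h4
  have h2 : Module.Finite K (RST.WP (L := L) ℬ JJ hne hmul ⊤ m) := by
    rw [← Module.rank_lt_aleph0_iff]
    exact lt_of_le_of_lt h1 (Cardinal.natCast_lt_aleph0)
  refine ⟨h2, ?_⟩
  rw [← Module.finrank_eq_rank] at h1
  exact_mod_cast h1

end wp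


section fin

variable {V κ K : Type} [CommRing V] [IsDomain V] [Field κ] [Field K] [Algebra V K]
  [IsFractionRing V K]
  {σ : V →+* κ} {ϖ : V} {hr : DIL.Res σ ϖ} {B : Type}
  [CommRing B] [Algebra V B] [Algebra K B] [IsScalarTower V K B] {ℬ : ℕ → Submodule V B}
  [GradedAlgebra ℬ] {S : Subalgebra V B}
  {I : Ideal S} {h : Fin 3 → S} {a b c : ℕ} {γ : Fin 3 → S} {Q : Type} {x f : Q → S}
  (X : DIL.In hr ℬ S I h a b c γ x f) [Algebra (MvPolynomial (Fin (2 + 1)) K) B]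
  [IsScalarTower K (MvPolynomial (Fin (2 + 1)) K) B]
  (hA : ∀ i : Fin (2 + 1), algebraMap (MvPolynomial (Fin (2 + 1)) K) B (MvPolynomial.X i) = h i)

include hA in
theorem emb_smul (q : MvPolynomial (Fin 3) V) (y : DIL.Dd X) :
    DIL.emb X (q • y) = (MvPolynomial.map (algebraMap V K) q : MvPolynomial (Fin (2 + 1)) K) •
      DIL.emb X y := by
  rw [Algebra.smul_def, Algebra.smul_def, map_mul, DIL.algebraMap_Dd, DIL.emb_ofS]
  congr 1
  have h1 : (S.val.comp (aeval h : MvPolynomial (Fin 3) V →ₐ[V] S)).toRingHom =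
      (algebraMap (MvPolynomial (Fin (2 + 1)) K) B).comp
        (MvPolynomial.map (algebraMap V K) : MvPolynomial (Fin 3) V →+* _) := by
    apply MvPolynomial.ringHom_ext
    · intro v
      show ((aeval h (C v) : S) : B) = algebraMap (MvPolynomial (Fin (2 + 1)) K) B
        (MvPolynomial.map (algebraMap V K) (C v))
      rw [aeval_C, map_C]
      have h2 : algebraMap (MvPolynomial (Fin (2 + 1)) K) B (C (algebraMap V K v)) =
          algebraMap K B (algebraMap V K v) :=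
        (IsScalarTower.algebraMap_apply K (MvPolynomial (Fin (2 + 1)) K) B _).symm
      rw [h2, ← IsScalarTower.algebraMap_apply]
      rfl
    · intro i
      show ((aeval h (MvPolynomial.X i) : S) : B) = algebraMap (MvPolynomial (Fin (2 + 1)) K) B
        (MvPolynomial.map (algebraMap V K) (MvPolynomial.X i))
      rw [aeval_X, map_X]
      exact (hA i).symm
  exact RingHom.congr_fun h1 q

include hA in
theorem finB (hϖ : ϖ ≠ 0) (hloc : ∀ y : B, ∃ N : ℕ, algebraMap V B ϖ ^ N * y ∈ S) {J : Ideal B}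
    (hJ : FinJ X J) : Module.Finite (MvPolynomial (Fin (2 + 1)) K) (B ⧸ J) := by
  have hJ' : Module.Finite (MvPolynomial (Fin 3) V)
    (DIL.Dd X ⧸ J.comap (DIL.emb X : DIL.Dd X →+* B)) := hJ
  rw [fin_iff] at hJ' ⊢
  obtain ⟨T, hT⟩ := hJ'
  refine ⟨T.image (DIL.emb X), fun y => ?_⟩
  obtain ⟨N, d, hd⟩ := DIL.exists_num (X := X) hloc y
  obtain ⟨y', hy', h1⟩ := hT d
  have h2 : DIL.emb X y' ∈ Submodule.span (MvPolynomial (Fin (2 + 1)) K)
      ((T.image (DIL.emb X) : Finset B) : Set B) := by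
    refine Submodule.span_induction ?_ ?_ ?_ ?_ hy'
    · intro t ht
      refine Submodule.subset_span ?_
      rw [Finset.coe_image]
      exact ⟨t, ht, rfl⟩
    · rw [map_zero]
      exact Submodule.zero_mem _
    · intro u w _ _ hu hw
      rw [map_add]
      exact Submodule.add_mem _ hu hw
    · intro q u _ hu
      rw [emb_smul X hA]
      exact Submodule.smul_mem _ _ hu
  set ε : K := (algebraMap V K ϖ ^ N)⁻¹ with hε
  have hε0 : algebraMap V K ϖ ^ N ≠ 0 := by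
    apply pow_ne_zero
    rw [Ne, map_eq_zero_iff _ (IsFractionRing.injective V K)]
    exact hϖ
  have h3 : y = algebraMap K B ε * DIL.emb X d := by
    rw [hd, ← mul_assoc, IsScalarTower.algebraMap_apply V K B, ← map_pow, ← map_mul, hε,
      inv_mul_cancel₀ hε0, map_one, one_mul]
  refine ⟨algebraMap K B ε * DIL.emb X y', ?_, ?_⟩
  · have h4 : algebraMap K B ε * DIL.emb X y' =
        (C ε : MvPolynomial (Fin (2 + 1)) K) • DIL.emb X y' := by
      rw [Algebra.smul_def]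
      congr 1
      exact IsScalarTower.algebraMap_apply K (MvPolynomial (Fin (2 + 1)) K) B ε
    rw [h4]
    exact Submodule.smul_mem _ _ h2
  · rw [h3, ← mul_sub]
    apply Ideal.mul_mem_left
    have h5 := Ideal.mem_comap.1 h1
    rw [map_sub] at h5
    exact h5

end fin

theorem phi_hom {K B : Type} [Field K] [CommRing B] [Algebra K B]
    {φ : MvPolynomial (Fin (XV.N + 1)) K →ₐ[K] B} (ℬ : ℕ → Submodule K B) [GradedAlgebra ℬ]
    (hdeg : ∀ i, φ (X i) ∈ ℬ 1) (d : ℕ) (q : MvPolynomial (Fin (XV.N + 1)) K)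
    (hq : q.IsHomogeneous d) : φ q ∈ ℬ d := by
  rw [q.as_sum, map_sum]
  refine Submodule.sum_mem _ fun s hs => ?_
  have h1 : s.degree = d := by
    by_contra h
    exact (MvPolynomial.mem_support_iff.1 hs) (hq.coeff_eq_zero h)
  rw [MvPolynomial.monomial_eq, map_mul]
  have h2 : φ (C (coeff s q)) = algebraMap K B (coeff s q) := φ.commutes _
  rw [h2, ← Algebra.smul_def]
  refine Submodule.smul_mem _ _ ?_
  rw [Finsupp.prod, map_prod]
  have h3 : ∏ i ∈ s.support, φ (X i) ^ s i ∈ ℬ (∑ i ∈ s.support, s i • 1) :=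
    SetLike.prod_pow_mem_graded ℬ (fun _ => 1) (fun i => φ (X i)) (fun i => s i)
      fun i _ => hdeg i
  have h4 : ∑ i ∈ s.support, s i • 1 = d := by
    rw [← h1, Finsupp.degree]
    simp
  rw [h4] at h3
  simpa only [map_pow] using h3

/-- `V`-ranks are `K`-dimensions -/
theorem rank_V' {K : Type} [Field K] (V : ValuationSubring K) {B : Type} [CommRing B]
    [Algebra K B] {ℬ : ℕ → Submodule K B} (m : ℕ) (hfin : Module.Finite K (ℬ m)) :
    Module.rank V ((ℬ m).restrictScalars V) = Module.finrank K (ℬ m) := by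
  have h1 : Module.rank K (ℬ m) = Module.rank V (ℬ m) :=
    IsLocalization.rank_eq K (nonZeroDivisors V) le_rfl
  rw [Module.finrank_eq_rank, h1]
  rfl

/-- **GRW** -/
theorem grw_proof (hGro : GML.Stmt_GRO) (hQgr : XB.Stmt_Qgr) (hPri : XV.Stmt_Pri)
    (hHib : XB.Stmt_Hib) (hCnt : GML.Stmt_CNT) (hRnk : DIL.Stmt_Rnk) (hVgp : Stmt_Vgp)
    (hPar : Stmt_Par) (hCmp : Stmt_Cmp) : Stmt_GRW := by
  intro p J E K _ V F _ _ c σ t ϖ P z B _ _ _ _ φ ℬ _ hcomp hB hr gV k h M G S hC hh1 hS hh2 θ hθ1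
    hθ2 h' hh' cc γ x f hxf Y n b r hn hbas v d hv hd L _ _ _ _ _ hne hmul
  have hdvr : IsDiscreteValuationRing V := hB.base.dvr
  have hϖ : Irreducible ϖ := hB.base.irr
  -- the special fibre
  obtain ⟨hfinT, hposT, hrk⟩ := hRnk p J E K V F c σ t ϖ P z B φ ℬ hB hr gV (some k) h M G S hC
    hh1 hS hh2 h' hh' cc γ x f hxf Y n b r hbas
  obtain ⟨C₁, hC₁⟩ := DIL.gro_T hGro hQgr h (JI F (some k)) (DIL.JI_hom hPri F (some k)) hh1 hfinT
  obtain ⟨C₂, hC₂⟩ := hd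
  have hdT : Module.finrank (MvPolynomial (Fin 3) F) (DIL.Tq h (JI F (some k))) = d :=
    eq_of_growth hC₁ hC₂
  have h2d : 2 * d < v := hVgp F k v d hv ⟨C₂, hC₂⟩
  have hrk' : Module.finrank (MvPolynomial (Fin 3) F) ↥(DIL.Fj Y (aG (some k) - 1)) =
      2 * (n * d) := by
    rw [hrk, hdT]
    rfl
  -- the growth of `B`
  obtain ⟨hfinB, C₃, hC₃⟩ := hHib p J E K V F c σ t ϖ P z B φ ℬ hB n b r hbas
  obtain ⟨C₄, hC₄⟩ := hv
  have hβ : ∀ m : ℕ, |(Module.finrank K (ℬ m) : ℚ) - (n * v : ℕ) * (m : ℚ) ^ 3 / 6| ≤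
      (C₃ + n * C₄ : ℚ) * ((m : ℚ) + 1) ^ 2 := by
    intro m
    have e1 := hC₃ m
    have e2 := hC₄ m
    rw [abs_le] at e1 e2
    have e1' : (-(C₃ * ((m : ℚ) + 1) ^ 2) ≤ (Module.finrank K (ℬ m) : ℚ) -
        n * Module.finrank F (qgr (XV.I F) m)) ∧
        ((Module.finrank K (ℬ m) : ℚ) - n * Module.finrank F (qgr (XV.I F) m) ≤
          C₃ * ((m : ℚ) + 1) ^ 2) := by exact_mod_cast e1
    have e2' : (-(C₄ * ((m : ℚ) + 1) ^ 2) ≤ 6 * (Module.finrank F (qgr (XV.I F) m) : ℚ) -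
        v * (m : ℚ) ^ 3) ∧ (6 * (Module.finrank F (qgr (XV.I F) m) : ℚ) -
        v * (m : ℚ) ^ 3 ≤ C₄ * ((m : ℚ) + 1) ^ 2) := by exact_mod_cast e2
    have hn0 : (0 : ℚ) ≤ n := Nat.cast_nonneg n
    have e3 := mul_le_mul_of_nonneg_left e2'.1 hn0
    have e4 := mul_le_mul_of_nonneg_left e2'.2 hn0
    have e5 : (0 : ℚ) ≤ n * C₄ * ((m : ℚ) + 1) ^ 2 := by positivity
    push_cast
    rw [abs_le]
    constructor
    · nlinarith [e1'.1]
    · nlinarith [e1'.2]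
  have hloc : ∀ y : B, ∃ N : ℕ, algebraMap V B ϖ ^ N * y ∈ Sb V φ := by
    intro y
    obtain ⟨N, hN⟩ := S_lat hB y
    refine ⟨N, ?_⟩
    rwa [Algebra.smul_def, map_pow] at hN
  -- the functionals on `D`
  have hcnt : DIL.Cnt Y := DIL.cnt Y hϖ hCnt
  have hann : ∀ (s : ℤ), ∀ ψ ∈ GML.Om (DIL.dmod Y) s, ∃ J ∈ JJ Y ℬ,
      ∀ d : DIL.Dd Y, DIL.emb Y d ∈ J → ψ d = 0 := by
    intro s ψ hψ
    have h1 := (DIL.om_iff Y s ψ).2 hψ
    have h2 := ann_fin Y hϖ hcnt hloc (fun m => rank_V' V m (hfinB m)) (δ := (n * v : ℕ))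
      (C' := C₃ + n * C₄) hβ (by
        rw [hrk']
        have e1 : 2 * (n * d) < n * v := by
          have := Nat.mul_lt_mul_of_pos_left h2d hn
          nlinarith
        have e2 : ((2 * (n * d) : ℕ) : ℚ) < ((n * v : ℕ) : ℚ) := by exact_mod_cast e1
        rw [Nat.cast_one, div_one]
        exact e2) h1
    exact exists_JJ Y hϖ hloc h1 h2
  -- the algebra structure of `B`
  let hb : Fin (2 + 1) → B := fun i => lfb V φ c (h i)
  let _ : Algebra (MvPolynomial (Fin (2 + 1)) K) B :=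
    (aeval hb : MvPolynomial (Fin (2 + 1)) K →ₐ[K] B).toRingHom.toAlgebra
  have htow : IsScalarTower K (MvPolynomial (Fin (2 + 1)) K) B :=
    IsScalarTower.of_algebraMap_eq fun a =>
      ((aeval hb : MvPolynomial (Fin (2 + 1)) K →ₐ[K] B).commutes a).symm
  have hAX : ∀ i : Fin (2 + 1), algebraMap (MvPolynomial (Fin (2 + 1)) K) B (X i) = h' i := by
    intro i
    rw [hh' i]
    exact aeval_X hb i
  obtain ⟨hpar1, T, hT⟩ := hPar p J E K V F c σ t ϖ P z B φ ℬ hB h θ hh1 hθ1 hθ2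
  have hev : ∀ q : Polynomial (MvPolynomial (Fin (2 + 1)) K),
      Polynomial.aeval (lfb V φ c θ) q = Polynomial.eval₂ ((aeval fun i => lfb V φ c (h i) :
        MvPolynomial (Fin (2 + 1)) K →ₐ[K] B) : MvPolynomial (Fin (2 + 1)) K →+* B)
          (lfb V φ c θ) q := fun q => rfl
  have hdeg : ∀ (ψ : MvPolynomial (Fin (XV.N + 1)) F), ψ.IsHomogeneous 1 → lfb V φ c ψ ∈ ℬ 1 :=
    fun ψ hψ => phi_hom ℬ hB.deg 1 _ ((hψ.map c).map V.subtype)
  obtain ⟨hfd, c₀, C₀, hgmd⟩ := GMD.gmd (n := 2) ℬ (fun i => by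
      rw [hAX i, hh' i]
      exact hdeg _ (hh1 i)) (lfb V φ c θ) (hdeg _ hθ1) (by
      rw [injective_iff_map_eq_zero]
      intro q hq
      exact hpar1 q hq) (by
      let f : Polynomial (MvPolynomial (Fin (2 + 1)) K) →+* B :=
        (Polynomial.aeval (lfb V φ c θ) : Polynomial (MvPolynomial (Fin (2 + 1)) K) →ₐ[
          MvPolynomial (Fin (2 + 1)) K] B).toRingHom
      show f.Finite
      let _ : Algebra (Polynomial (MvPolynomial (Fin (2 + 1)) K)) B := f.toAlgebra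
      have h1 : Module.Finite (Polynomial (MvPolynomial (Fin (2 + 1)) K)) B := by
        refine ⟨⟨T, ?_⟩⟩
        rw [eq_top_iff]
        intro y _
        obtain ⟨q, hq⟩ := hT y
        rw [hq]
        exact Submodule.sum_mem _ fun t ht => Submodule.smul_mem _ (q t)
          (Submodule.subset_span ht)
      exact h1) L
  have hfinJ : ∀ J ∈ JJ Y ℬ, Module.Finite (MvPolynomial (Fin (2 + 1)) K) (B ⧸ J) :=
    fun J hJ => finB Y hAX hϖ.ne_zero hloc hJ.2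
  have hcmp : ∀ s : ℕ, (∀ J ∈ JJ Y ℬ, Module.finrank K (GMD.HHm (n := 2) ℬ J s) ≤
      Module.finrank V (GML.Om (DIL.dmod Y) s)) ∧
    ∃ J ∈ JJ Y ℬ, Module.finrank V (GML.Om (DIL.dmod Y) s) ≤
      Module.finrank K (GMD.HHm (n := 2) ℬ J s) := by
    intro s
    exact hCmp V F K σ ϖ hr B ℬ gV (Sb V φ) (Igb V φ ϖ (some k)) h' (aG (some k)) 1 cc γ S x f Y hϖ
      hAX hloc hne hmul s (hcnt.1 s).1 (hcnt.1 s).2.1
      (fun J hJ => (hgmd J hJ.1 (hfinJ J hJ)).1 s) (hann s)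
  have hw := fun m => wp_bound (L := L) ℬ hne hmul (m := m)
    (N := Module.finrank K (ℬ (m + c₀)) + Module.finrank V (GML.Om (DIL.dmod Y) ((m + c₀ : ℕ) : ℤ)))
    (fun J hJ => (hgmd J hJ.1 (hfinJ J hJ)).2.1 m) (fun J hJ =>
      ((hgmd J hJ.1 (hfinJ J hJ)).2.2 m).2.trans
        (Nat.add_le_add_left ((hcmp (m + c₀)).1 J hJ) _))
  refine ⟨fun m => (hw m).1, ?_⟩
  obtain ⟨C₅, hC₅⟩ := hcnt.2
  obtain ⟨C', hC'⟩ := grow_cmp (w := fun m => (Module.finrank K (RST.WP (L := L) ℬ (JJ Y ℬ) hne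
      hmul ⊤ m) : ℚ)) (β := fun m => (Module.finrank K (ℬ m) : ℚ))
    (u := fun m => (Module.finrank V (GML.Om (DIL.dmod Y) m) : ℚ)) (e₁ := (n * v : ℕ))
    (e₂ := (2 * (n * d) : ℕ)) (C := C₀) (C₁ := C₃ + n * C₄) (C₂ := C₅) (c := c₀)
    (Nat.cast_nonneg _) (Nat.cast_nonneg _) (Nat.cast_nonneg _) (fun m => Nat.cast_nonneg _) hβ
    (fun m => by
      have h1 := (hC₅ m).2
      rw [hrk', Nat.cast_one, mul_one] at h1
      exact h1)
    (fun m => by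
      have h1 := (hw m).2
      exact_mod_cast h1)
    (fun m => by
      obtain ⟨J, hJ, h1⟩ := (hcmp m).2
      have h2 := ((hgmd J hJ.1 (hfinJ J hJ)).2.2 m).1
      have h3 : Module.finrank K (GMD.FFm ℬ L J (m + c₀)) ≤
          Module.finrank K (RST.WP (L := L) ℬ (JJ Y ℬ) hne hmul ⊤ (m + c₀)) := by
        have := (hw (m + c₀)).1
        exact Submodule.finrank_mono (FF_le ℬ hne hmul hJ (m + c₀))
      have h4 : Module.finrank V (GML.Om (DIL.dmod Y) m) + Module.finrank K (ℬ m) ≤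
          Module.finrank K (RST.WP (L := L) ℬ (JJ Y ℬ) hne hmul ⊤ (m + c₀)) +
            C₀ * (m + 1) ^ 2 := by omega
      exact_mod_cast h4)
  refine ⟨C', fun m => ?_⟩
  have h1 := hC' m
  have h2 : (((n * v : ℕ) : ℚ) + ((2 * (n * d) : ℕ) : ℚ)) = n * ((v + 2 * d : ℕ) : ℚ) := by
    push_cast
    ring
  rw [h2] at h1
  exact h1

end Pool.Agent.BRG
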