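import Pool.Agent.BRG.Sub
import Pool.Agent.TFR.HIE

/-!
# Exactness of the prime ideal of the exact surface
-/

set_option autoImplicit false

noncomputable section

namespace Pool.Agent.BRG

open scoped Classical
open MvPolynomial Pool.Agent.FRM Pool.Agent.XV Pool.Agent.GML Pool.Agent.XB

theorem q_exact {K : Type} [Field K] {V : ValuationSubring K} {B : Type} [CommRing B]
    [Algebra K B] {φ : MvPolynomial (Fin (XV.N + 1)) K →ₐ[K] B} {F : Type} [Field F]
    {σ : V →+* F} {ϖ : V} (hV : IsDiscreteValuationRing V) (hϖ : Irreducible ϖ)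
    (hker : RingHom.ker σ = Ideal.span {ϖ}) {Q : Ideal (MvPolynomial (Fin (XV.N + 1)) K)}
    (hom : Homog Q) {q : Ideal B} (hq : ∀ g, φ g ∈ q ↔ g ∈ Q) {ϖ' : V} (h0 : ϖ' ≠ 0)
    (hu : ¬IsUnit ϖ') {c : Fin (XV.N + 1)}
    (hc : (vmap V Q).IsIntegralElem (Ideal.Quotient.mk Q (C ((ϖ' : K)⁻¹) * MvPolynomial.X c))) :
    ∃ (m : ℕ) (G : MvPolynomial (Fin (XV.N + 1)) V), 0 < m ∧ G.IsHomogeneous m ∧
      MvPolynomial.map σ G = MvPolynomial.X c ^ m ∧
      aeval (fun i => φ (MvPolynomial.X i)) G ∈ q := by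
  have hσ : σ ϖ' = 0 := by
    rw [← RingHom.mem_ker, hker, ← hϖ.maximalIdeal_eq]
    exact hu
  have h1 : TFR.amap V.subtype Q (MvPolynomial.X : Fin (XV.N + 1) → _) = vmap V Q := by
    refine RingHom.ext fun f => ?_
    show Ideal.Quotient.mk Q (MvPolynomial.map V.subtype (aeval MvPolynomial.X f)) = _
    rw [aeval_X_left_apply]
    rfl
  obtain ⟨n, a, hn, ha, h2⟩ := TFR.hie_proof XV.N (XV.N + 1) V K V.subtype Q hom MvPolynomial.X
    (fun i => isHomogeneous_X _ i) (C ((ϖ' : K)⁻¹) * MvPolynomial.X c) 1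
    (by
      have h3 := (isHomogeneous_C (Fin (XV.N + 1)) ((ϖ' : K)⁻¹)).mul
        (isHomogeneous_X K c)
      rwa [zero_add] at h3)
    (by rw [h1]; exact hc)
  have h3 : (ϖ' : K) ≠ 0 := fun h => h0 (Subtype.ext h)
  refine ⟨n, MvPolynomial.X c ^ n + ∑ i ∈ Finset.Icc 1 n, C ϖ' ^ i * a i * MvPolynomial.X c ^ (n - i), hn,
    ?_, ?_, ?_⟩
  · refine IsHomogeneous.add ?_ (IsHomogeneous.sum _ _ _ fun i hi => ?_)
    · have h4 := (isHomogeneous_X V c).pow n
      rwa [one_mul] at h4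
    · rw [Finset.mem_Icc] at hi
      have h4 : (C ϖ' ^ i : MvPolynomial (Fin (XV.N + 1)) V).IsHomogeneous 0 := by
        rw [← C_pow]
        exact isHomogeneous_C _ _
      have h5 := (h4.mul (ha i)).mul ((isHomogeneous_X V c).pow (n - i))
      have h6 : 0 + i * 1 + 1 * (n - i) = n := by omega
      rwa [h6] at h5
  · rw [map_add, map_pow, map_X, map_sum, Finset.sum_eq_zero, add_zero]
    intro i hi
    rw [Finset.mem_Icc] at hi
    rw [map_mul, map_mul, map_pow, map_C, hσ, C_0, zero_pow (by omega), zero_mul, zero_mul]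
  · rw [← vB_eq]
    show φ (MvPolynomial.map V.subtype _) ∈ q
    rw [hq]
    have h4 : MvPolynomial.map V.subtype (MvPolynomial.X c ^ n +
        ∑ i ∈ Finset.Icc 1 n, C ϖ' ^ i * a i * MvPolynomial.X c ^ (n - i)) =
        C (ϖ' : K) ^ n * ((C ((ϖ' : K)⁻¹) * MvPolynomial.X c) ^ n + ∑ i ∈ Finset.Icc 1 n,
          MvPolynomial.map V.subtype (aeval MvPolynomial.X (a i)) *
            (C ((ϖ' : K)⁻¹) * MvPolynomial.X c) ^ (n - i)) := by
      have h5 : C (ϖ' : K) * C ((ϖ' : K)⁻¹) = (1 : MvPolynomial (Fin (XV.N + 1)) K) := by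
        rw [← C_mul, mul_inv_cancel₀ h3, C_1]
      rw [map_add, map_pow, map_X, map_sum, mul_add, ← mul_pow, ← mul_assoc, h5, one_mul,
        Finset.mul_sum]
      congr 1
      refine Finset.sum_congr rfl fun i hi => ?_
      rw [Finset.mem_Icc] at hi
      rw [map_mul, map_mul, map_pow, map_pow, map_C, map_X, aeval_X_left_apply]
      have h6 : C (ϖ' : K) ^ n = (C (ϖ' : K) ^ i * C (ϖ' : K) ^ (n - i) :
          MvPolynomial (Fin (XV.N + 1)) K) := by
        rw [← pow_add]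
        congr 1
        omega
      rw [h6, mul_pow]
      have h7 : C (ϖ' : K) ^ (n - i) * C ((ϖ' : K)⁻¹) ^ (n - i) =
          (1 : MvPolynomial (Fin (XV.N + 1)) K) := by
        rw [← mul_pow, h5, one_pow]
      calc C (V.subtype ϖ') ^ i * (MvPolynomial.map V.subtype) (a i) * MvPolynomial.X c ^ (n - i)
          = C (ϖ' : K) ^ i * (MvPolynomial.map V.subtype) (a i) *
            (C (ϖ' : K) ^ (n - i) * C ((ϖ' : K)⁻¹) ^ (n - i)) * MvPolynomial.X c ^ (n - i) := by
            rw [h7, mul_one]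
            rfl
        _ = _ := by ring
    rw [h4]
    exact Ideal.mul_mem_left _ _ h2

end Pool.Agent.BRG
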